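import Pool.Agent.H73AM.Check

/-!
# Certificates: strong shift equivalences to `[2]` (generated)
-/

set_option autoImplicit false
set_option maxRecDepth 100000

namespace Pool.Agent.H73AM

/-- Representative 0. -/
def rep0 : List (List ℕ) := [[0, 0, 0, 0, 0, 1, 0, 1], [0, 0, 0, 1, 0, 0, 1, 0], [1, 0, 0, 0, 1, 0, 0, 0], [0, 1, 1, 0, 0, 0, 0, 0], [0, 0, 0, 0, 1, 0, 1, 0], [0, 0, 0, 1, 0, 1, 0, 0], [1, 0, 0, 0, 0, 0, 0, 1], [0, 1, 1, 0, 0, 0, 0, 0]]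

/-- Chain from representative 0 to `[2]`. -/
def ch0 : List (ℕ × List (List ℕ) × List (List ℕ) × List (List ℕ)) :=
  [(7, [[1, 1, 0, 0, 0, 0, 0], [0, 0, 0, 1, 0, 1, 0], [0, 1, 0, 1, 0, 0, 0], [0, 0, 1, 0, 0, 0, 1], [0, 0, 0, 1, 1, 0, 0], [0, 0, 0, 1, 1, 0, 0], [1, 0, 0, 0, 0, 1, 0]], [[0, 0, 0, 0, 0, 1, 0], [0, 0, 1, 0, 0, 0, 0], [0, 0, 0, 0, 0, 0, 1], [0, 0, 0, 1, 0, 0, 0], [1, 0, 0, 0, 0, 0, 0], [0, 0, 0, 0, 1, 0, 0], [0, 1, 0, 0, 0, 0, 0], [0, 0, 0, 1, 0, 0, 0]], [[0, 0, 0, 0, 1, 0, 1, 0], [1, 0, 0, 0, 0, 0, 0, 1], [0, 0, 0, 1, 0, 0, 1, 0], [0, 1, 1, 0, 0, 0, 0, 0], [0, 0, 0, 1, 0, 1, 0, 0], [0, 0, 0, 0, 0, 1, 0, 1], [1, 0, 0, 0, 1, 0, 0, 0]]),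
   (6, [[1, 1, 0, 0, 0, 0], [0, 0, 1, 1, 1, 1], [0, 0, 0, 1, 0, 1], [1, 0, 0, 0, 0, 0], [0, 0, 1, 0, 1, 0], [0, 1, 0, 0, 0, 0]], [[0, 0, 1, 0, 1, 0], [0, 0, 0, 1, 0, 1], [0, 0, 1, 0, 0, 1], [0, 1, 0, 0, 0, 0], [1, 0, 0, 0, 0, 0], [1, 0, 0, 0, 0, 0], [0, 0, 0, 1, 1, 0]], [[0, 0, 0, 1, 1, 0, 0], [0, 0, 1, 0, 0, 0, 1], [0, 1, 0, 0, 0, 0, 0], [0, 0, 0, 0, 0, 1, 0], [1, 0, 0, 0, 0, 0, 0], [0, 0, 0, 1, 0, 0, 0]]),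
   (4, [[0, 0, 1, 1], [1, 1, 0, 0], [1, 1, 0, 0], [0, 0, 1, 1]], [[0, 0, 1, 1], [1, 1, 0, 0], [1, 0, 0, 0], [0, 0, 0, 1], [0, 1, 0, 0], [0, 0, 1, 0]], [[0, 0, 0, 1, 0, 1], [0, 0, 1, 0, 1, 0], [0, 1, 0, 0, 0, 0], [1, 0, 0, 0, 0, 0]]),
   (2, [[1, 1], [1, 1]], [[1, 0], [0, 1], [0, 1], [1, 0]], [[0, 0, 1, 1], [1, 1, 0, 0]]),
   (1, [[2]], [[1], [1]], [[1, 1]])]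

theorem ok0 : chainOK 8 rep0 ch0 = true := by decide +kernel

/-- Representative 1. -/
def rep1 : List (List ℕ) := [[0, 0, 1, 0, 0, 0, 1, 0], [0, 0, 0, 1, 0, 0, 0, 1], [0, 0, 0, 1, 0, 0, 0, 1], [0, 1, 0, 0, 0, 1, 0, 0], [0, 0, 1, 0, 1, 0, 0, 0], [1, 0, 0, 0, 0, 1, 0, 0], [0, 1, 0, 0, 1, 0, 0, 0], [1, 0, 0, 0, 0, 0, 1, 0]]

/-- Chain from representative 1 to `[2]`. -/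
def ch1 : List (ℕ × List (List ℕ) × List (List ℕ) × List (List ℕ)) :=
  [(7, [[1, 0, 0, 0, 0, 0, 1], [1, 0, 1, 0, 0, 0, 0], [0, 0, 0, 1, 0, 0, 0], [0, 1, 1, 0, 1, 1, 0], [0, 0, 0, 0, 1, 1, 0], [0, 1, 0, 0, 0, 0, 1], [0, 0, 0, 1, 0, 0, 0]], [[0, 1, 0, 0, 0, 0, 1], [0, 0, 0, 1, 0, 0, 0], [0, 0, 0, 1, 0, 0, 0], [0, 0, 1, 0, 1, 0, 0], [1, 0, 0, 0, 0, 0, 1], [0, 0, 0, 0, 1, 1, 0], [1, 0, 1, 0, 0, 0, 0], [0, 1, 0, 0, 0, 1, 0]], [[0, 0, 0, 0, 1, 0, 0, 0], [0, 0, 0, 0, 0, 0, 1, 0], [0, 1, 0, 0, 0, 0, 0, 0], [0, 0, 0, 1, 0, 0, 0, 1], [0, 0, 0, 0, 0, 1, 0, 0], [1, 0, 0, 0, 0, 0, 0, 0], [0, 0, 1, 0, 0, 0, 0, 0]]),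
   (6, [[1, 0, 0, 1, 0, 0], [1, 0, 0, 0, 0, 1], [0, 1, 0, 0, 1, 0], [0, 1, 1, 0, 0, 0], [0, 1, 0, 0, 1, 0], [0, 1, 1, 0, 0, 0]], [[0, 0, 0, 0, 1, 0], [0, 0, 1, 0, 0, 0], [0, 1, 0, 0, 0, 0], [1, 0, 0, 0, 0, 1], [1, 0, 0, 0, 0, 0], [0, 0, 0, 1, 0, 0], [0, 1, 0, 0, 0, 0]], [[0, 0, 0, 0, 1, 1, 0], [0, 0, 0, 1, 0, 0, 0], [1, 0, 1, 0, 0, 0, 0], [0, 1, 0, 0, 0, 0, 1], [1, 0, 0, 0, 0, 0, 1], [0, 1, 1, 0, 0, 0, 0]]),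
   (4, [[0, 1, 1, 0], [0, 1, 1, 0], [1, 0, 0, 1], [1, 0, 0, 1]], [[0, 0, 0, 1], [0, 0, 1, 0], [0, 1, 0, 0], [1, 0, 0, 0], [0, 1, 0, 0], [1, 0, 0, 0]], [[0, 1, 1, 0, 0, 0], [0, 1, 0, 0, 1, 0], [1, 0, 0, 0, 0, 1], [1, 0, 0, 1, 0, 0]]),
   (2, [[1, 1], [1, 1]], [[0, 1], [0, 1], [1, 0], [1, 0]], [[1, 0, 0, 1], [0, 1, 1, 0]]),
   (1, [[2]], [[1], [1]], [[1, 1]])]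

theorem ok1 : chainOK 8 rep1 ch1 = true := by decide +kernel

/-- Representative 2. -/
def rep2 : List (List ℕ) := [[0, 0, 0, 0, 0, 1, 0, 1], [1, 1, 0, 0, 0, 0, 0, 0], [1, 1, 0, 0, 0, 0, 0, 0], [0, 0, 1, 1, 0, 0, 0, 0], [0, 0, 0, 0, 0, 1, 0, 1], [0, 0, 0, 1, 1, 0, 0, 0], [0, 0, 1, 0, 1, 0, 0, 0], [0, 0, 0, 0, 0, 0, 2, 0]]

/-- Chain from representative 2 to `[2]`. -/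
def ch2 : List (ℕ × List (List ℕ) × List (List ℕ) × List (List ℕ)) :=
  [(6, [[0, 0, 0, 0, 0, 2], [1, 0, 0, 1, 0, 0], [0, 0, 1, 0, 1, 0], [0, 1, 1, 0, 0, 0], [0, 1, 0, 0, 1, 0], [0, 1, 0, 0, 1, 0]], [[0, 1, 0, 0, 0, 0], [0, 0, 0, 0, 1, 0], [0, 0, 0, 0, 1, 0], [0, 0, 1, 0, 0, 0], [0, 1, 0, 0, 0, 0], [0, 0, 0, 1, 0, 0], [0, 0, 0, 0, 0, 1], [1, 0, 0, 0, 0, 0]], [[0, 0, 0, 0, 0, 0, 2, 0], [0, 0, 0, 0, 0, 1, 0, 1], [0, 0, 1, 1, 0, 0, 0, 0], [0, 0, 0, 1, 1, 0, 0, 0], [1, 1, 0, 0, 0, 0, 0, 0], [0, 0, 1, 0, 1, 0, 0, 0]]),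
   (5, [[0, 0, 1, 0, 2], [0, 1, 0, 1, 0], [1, 1, 0, 0, 0], [1, 0, 0, 1, 0], [0, 0, 0, 1, 0]], [[0, 0, 0, 0, 2], [1, 0, 0, 0, 0], [0, 1, 0, 0, 0], [0, 0, 1, 0, 0], [0, 0, 0, 1, 0], [0, 0, 0, 1, 0]], [[1, 0, 0, 1, 0, 0], [0, 0, 1, 0, 1, 0], [0, 1, 1, 0, 0, 0], [0, 1, 0, 0, 1, 0], [0, 0, 0, 0, 0, 1]]),
   (4, [[1, 1, 0, 0], [0, 0, 0, 1], [1, 0, 1, 0], [2, 1, 1, 0]], [[0, 0, 0, 1], [1, 0, 1, 0], [0, 1, 1, 0], [1, 1, 0, 0], [1, 0, 0, 0]], [[0, 0, 0, 1, 0], [1, 0, 0, 0, 0], [0, 1, 0, 0, 0], [0, 0, 1, 0, 2]]),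
   (3, [[1, 0, 1], [1, 0, 1], [0, 1, 1]], [[0, 0, 1], [0, 1, 0], [1, 0, 0], [1, 0, 1]], [[1, 0, 1, 0], [0, 0, 0, 1], [1, 1, 0, 0]]),
   (2, [[1, 1], [1, 1]], [[1, 0], [1, 0], [0, 1]], [[1, 0, 1], [0, 1, 1]]),
   (1, [[2]], [[1], [1]], [[1, 1]])]

theorem ok2 : chainOK 8 rep2 ch2 = true := by decide +kernel

/-- Representative 3. -/
def rep3 : List (List ℕ) := [[0, 1, 1, 0, 0, 0, 0, 0], [0, 1, 1, 0, 0, 0, 0, 0], [0, 0, 0, 1, 0, 0, 1, 0], [0, 0, 0, 1, 0, 1, 0, 0], [0, 0, 0, 0, 0, 1, 1, 0], [1, 0, 0, 0, 1, 0, 0, 0], [0, 0, 0, 0, 0, 0, 0, 2], [1, 0, 0, 0, 1, 0, 0, 0]]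

/-- Chain from representative 3 to `[2]`. -/
def ch3 : List (ℕ × List (List ℕ) × List (List ℕ) × List (List ℕ)) :=
  [(6, [[0, 1, 0, 0, 0, 0], [0, 0, 0, 1, 1, 1], [0, 0, 1, 1, 0, 0], [0, 1, 0, 0, 0, 0], [0, 0, 1, 0, 1, 1], [2, 0, 0, 0, 0, 0]], [[0, 0, 0, 0, 1, 0], [0, 0, 0, 0, 1, 0], [0, 0, 1, 0, 0, 1], [0, 0, 1, 1, 0, 0], [0, 0, 0, 1, 0, 1], [0, 1, 0, 0, 0, 0], [2, 0, 0, 0, 0, 0], [0, 1, 0, 0, 0, 0]], [[0, 0, 0, 0, 0, 0, 0, 1], [1, 0, 0, 0, 1, 0, 0, 0], [0, 0, 0, 1, 0, 0, 0, 0], [0, 0, 0, 0, 0, 1, 0, 0], [0, 1, 1, 0, 0, 0, 0, 0], [0, 0, 0, 0, 0, 0, 1, 0]]),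
   (5, [[0, 0, 1, 1, 0], [0, 1, 1, 0, 0], [1, 0, 0, 0, 0], [0, 1, 0, 1, 1], [2, 0, 0, 0, 0]], [[1, 0, 0, 0, 0], [0, 0, 1, 1, 0], [0, 1, 1, 0, 0], [1, 0, 0, 0, 0], [0, 1, 0, 1, 0], [0, 0, 0, 0, 1]], [[0, 1, 0, 0, 0, 0], [0, 0, 1, 0, 0, 0], [0, 0, 0, 1, 0, 0], [0, 0, 0, 0, 1, 1], [2, 0, 0, 0, 0, 0]]),
   (4, [[1, 0, 1, 2], [1, 0, 0, 1], [0, 0, 1, 1], [0, 1, 0, 0]], [[0, 1, 0, 0], [0, 0, 1, 0], [0, 0, 0, 1], [1, 0, 0, 0], [0, 0, 0, 2]], [[0, 1, 0, 1, 1], [0, 0, 1, 1, 0], [0, 1, 1, 0, 0], [1, 0, 0, 0, 0]]),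
   (3, [[1, 1, 0], [0, 0, 1], [1, 1, 1]], [[1, 0, 1], [0, 0, 1], [1, 0, 0], [0, 1, 0]], [[0, 0, 1, 1], [0, 1, 0, 0], [1, 0, 0, 1]]),
   (2, [[1, 1], [1, 1]], [[1, 0], [0, 1], [1, 1]], [[1, 1, 0], [0, 0, 1]]),
   (1, [[2]], [[1], [1]], [[1, 1]])]

theorem ok3 : chainOK 8 rep3 ch3 = true := by decide +kernel

/-- Representative 4. -/
def rep4 : List (List ℕ) := [[0, 0, 0, 0, 1, 0, 0, 1], [0, 1, 0, 0, 0, 1, 0, 0], [1, 1, 0, 0, 0, 0, 0, 0], [0, 0, 1, 1, 0, 0, 0, 0], [0, 0, 0, 1, 0, 1, 0, 0], [0, 0, 0, 0, 1, 0, 0, 1], [1, 0, 1, 0, 0, 0, 0, 0], [0, 0, 0, 0, 0, 0, 2, 0]]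

/-- Chain from representative 4 to `[2]`. -/
def ch4 : List (ℕ × List (List ℕ) × List (List ℕ) × List (List ℕ)) :=
  [(7, [[0, 0, 0, 1, 0, 0, 0], [1, 0, 0, 0, 0, 0, 1], [0, 0, 0, 1, 0, 0, 0], [0, 2, 1, 0, 0, 1, 0], [0, 0, 1, 0, 1, 0, 0], [0, 0, 0, 0, 0, 1, 1], [1, 0, 0, 0, 1, 0, 0]], [[0, 0, 0, 1, 0, 0, 0], [0, 0, 1, 0, 1, 0, 0], [1, 0, 0, 0, 1, 0, 0], [0, 0, 0, 0, 0, 1, 1], [0, 0, 1, 0, 0, 1, 0], [0, 0, 0, 1, 0, 0, 0], [1, 0, 0, 0, 0, 0, 1], [0, 2, 0, 0, 0, 0, 0]], [[1, 0, 0, 0, 0, 0, 0, 0], [0, 0, 0, 0, 0, 0, 1, 0], [0, 0, 0, 0, 0, 1, 0, 0], [0, 0, 0, 0, 1, 0, 0, 1], [0, 1, 0, 0, 0, 0, 0, 0], [0, 0, 0, 1, 0, 0, 0, 0], [0, 0, 1, 0, 0, 0, 0, 0]]),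
   (6, [[1, 0, 0, 0, 0, 1], [0, 0, 0, 1, 0, 1], [1, 2, 0, 1, 0, 0], [0, 0, 1, 0, 0, 0], [0, 0, 0, 1, 1, 0], [0, 0, 0, 1, 1, 0]], [[0, 0, 0, 1, 0, 0], [0, 1, 0, 0, 0, 0], [0, 0, 0, 1, 0, 0], [0, 0, 1, 0, 0, 0], [0, 0, 0, 0, 1, 0], [1, 0, 0, 0, 0, 0], [0, 0, 0, 0, 0, 1]], [[0, 0, 0, 0, 0, 1, 1], [1, 0, 0, 0, 0, 0, 1], [0, 2, 1, 0, 0, 1, 0], [0, 0, 0, 1, 0, 0, 0], [0, 0, 1, 0, 1, 0, 0], [1, 0, 0, 0, 1, 0, 0]]),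
   (5, [[0, 0, 1, 0, 0], [0, 1, 0, 1, 0], [1, 1, 0, 0, 2], [1, 0, 0, 1, 0], [1, 0, 0, 1, 0]], [[0, 1, 0, 0, 0], [0, 0, 0, 0, 1], [0, 0, 1, 0, 0], [1, 0, 0, 0, 0], [0, 0, 0, 1, 0], [0, 0, 0, 1, 0]], [[0, 0, 1, 0, 0, 0], [1, 0, 0, 0, 0, 1], [1, 2, 0, 1, 0, 0], [0, 0, 0, 1, 1, 0], [0, 0, 0, 1, 0, 1]]),
   (4, [[1, 1, 0, 0], [0, 0, 0, 1], [1, 0, 1, 0], [2, 1, 1, 0]], [[0, 1, 0, 0], [0, 0, 1, 0], [0, 0, 0, 1], [1, 0, 0, 0], [1, 0, 0, 0]], [[1, 0, 0, 1, 0], [0, 0, 1, 0, 0], [0, 1, 0, 1, 0], [1, 1, 0, 0, 2]]),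
   (3, [[1, 0, 1], [1, 0, 1], [0, 1, 1]], [[0, 0, 1], [0, 1, 0], [1, 0, 0], [1, 0, 1]], [[1, 0, 1, 0], [0, 0, 0, 1], [1, 1, 0, 0]]),
   (2, [[1, 1], [1, 1]], [[1, 0], [1, 0], [0, 1]], [[1, 0, 1], [0, 1, 1]]),
   (1, [[2]], [[1], [1]], [[1, 1]])]

theorem ok4 : chainOK 8 rep4 ch4 = true := by decide +kernel

/-- Representative 5. -/
def rep5 : List (List ℕ) := [[0, 0, 1, 0, 0, 0, 1, 0], [0, 1, 1, 0, 0, 0, 0, 0], [0, 0, 0, 1, 0, 0, 1, 0], [0, 0, 0, 1, 1, 0, 0, 0], [1, 0, 0, 0, 0, 1, 0, 0], [0, 1, 0, 0, 1, 0, 0, 0], [0, 0, 0, 0, 0, 0, 0, 2], [1, 0, 0, 0, 0, 1, 0, 0]]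

/-- Chain from representative 5 to `[2]`. -/
def ch5 : List (ℕ × List (List ℕ) × List (List ℕ) × List (List ℕ)) :=
  [(7, [[0, 1, 0, 0, 0, 0, 1], [0, 0, 0, 2, 0, 0, 0], [0, 0, 0, 1, 1, 0, 0], [1, 0, 1, 0, 0, 0, 0], [0, 0, 0, 0, 1, 0, 1], [0, 0, 0, 1, 0, 1, 0], [0, 1, 0, 0, 0, 1, 0]], [[1, 0, 0, 0, 0, 0, 0], [0, 0, 0, 0, 1, 0, 0], [0, 0, 0, 0, 0, 0, 1], [0, 0, 0, 0, 0, 1, 0], [0, 0, 0, 1, 0, 0, 0], [0, 0, 1, 0, 0, 0, 0], [0, 1, 0, 0, 0, 0, 0], [0, 0, 0, 1, 0, 0, 0]], [[0, 0, 1, 0, 0, 0, 1, 0], [0, 0, 0, 0, 0, 0, 0, 2], [0, 1, 0, 0, 1, 0, 0, 0], [1, 0, 0, 0, 0, 1, 0, 0], [0, 1, 1, 0, 0, 0, 0, 0], [0, 0, 0, 1, 1, 0, 0, 0], [0, 0, 0, 1, 0, 0, 1, 0]]),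
   (6, [[1, 0, 1, 0, 0, 0], [0, 0, 2, 0, 0, 0], [0, 0, 0, 1, 0, 0], [0, 1, 1, 0, 1, 1], [0, 0, 0, 0, 1, 1], [1, 1, 0, 0, 0, 0]], [[0, 1, 0, 0, 0, 1], [0, 0, 2, 0, 0, 0], [0, 0, 1, 0, 1, 0], [0, 0, 0, 1, 0, 0], [0, 0, 0, 0, 1, 1], [1, 0, 1, 0, 0, 0], [1, 1, 0, 0, 0, 0]], [[0, 0, 0, 0, 0, 1, 0], [0, 1, 0, 0, 0, 0, 0], [0, 0, 0, 1, 0, 0, 0], [1, 0, 1, 0, 0, 0, 0], [0, 0, 0, 0, 1, 0, 0], [0, 0, 0, 0, 0, 0, 1]]),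
   (5, [[0, 0, 1, 1, 1], [0, 1, 1, 0, 0], [1, 0, 0, 0, 0], [0, 1, 0, 1, 1], [0, 0, 2, 0, 0]], [[0, 1, 1, 0, 0], [0, 0, 2, 0, 0], [1, 0, 0, 0, 0], [0, 0, 1, 1, 1], [0, 0, 0, 1, 0], [0, 1, 0, 0, 1]], [[0, 0, 0, 1, 0, 0], [1, 0, 0, 0, 0, 0], [0, 0, 1, 0, 0, 0], [0, 0, 0, 0, 1, 1], [0, 1, 0, 0, 0, 0]]),
   (4, [[1, 0, 1, 2], [1, 0, 0, 1], [0, 0, 1, 1], [0, 1, 0, 0]], [[1, 0, 0, 1], [0, 0, 1, 1], [0, 1, 0, 0], [1, 0, 1, 0], [0, 0, 0, 2]], [[0, 0, 0, 1, 1], [1, 0, 0, 0, 0], [0, 1, 0, 0, 0], [0, 0, 1, 0, 0]]),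
   (3, [[1, 1, 0], [0, 0, 1], [1, 1, 1]], [[1, 0, 1], [0, 0, 1], [1, 0, 0], [0, 1, 0]], [[0, 0, 1, 1], [0, 1, 0, 0], [1, 0, 0, 1]]),
   (2, [[1, 1], [1, 1]], [[1, 0], [0, 1], [1, 1]], [[1, 1, 0], [0, 0, 1]]),
   (1, [[2]], [[1], [1]], [[1, 1]])]

theorem ok5 : chainOK 8 rep5 ch5 = true := by decide +kernel

/-- Representative 6. -/
def rep6 : List (List ℕ) := [[0, 0, 0, 0, 1, 0, 1, 0], [1, 0, 0, 0, 0, 0, 0, 1], [0, 0, 1, 0, 0, 1, 0, 0], [0, 0, 0, 1, 1, 0, 0, 0], [0, 0, 1, 0, 0, 0, 1, 0], [1, 0, 0, 0, 0, 0, 0, 1], [0, 1, 0, 0, 0, 1, 0, 0], [0, 1, 0, 1, 0, 0, 0, 0]]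

/-- Chain from representative 6 to `[2]`. -/
def ch6 : List (ℕ × List (List ℕ) × List (List ℕ) × List (List ℕ)) :=
  [(7, [[0, 1, 0, 0, 0, 1, 0], [0, 0, 0, 2, 0, 0, 0], [1, 0, 1, 0, 0, 0, 0], [0, 0, 0, 0, 1, 0, 1], [0, 0, 1, 1, 0, 0, 0], [0, 0, 0, 1, 0, 1, 0], [1, 1, 0, 0, 0, 0, 0]], [[0, 0, 0, 0, 0, 0, 1], [0, 0, 0, 1, 0, 0, 0], [0, 0, 0, 0, 0, 1, 0], [0, 0, 1, 0, 0, 0, 0], [1, 0, 0, 0, 0, 0, 0], [0, 0, 0, 1, 0, 0, 0], [0, 1, 0, 0, 0, 0, 0], [0, 0, 0, 0, 1, 0, 0]], [[0, 0, 1, 0, 0, 0, 1, 0], [0, 1, 0, 0, 0, 1, 0, 0], [0, 0, 0, 1, 1, 0, 0, 0], [1, 0, 0, 0, 0, 0, 0, 1], [0, 1, 0, 1, 0, 0, 0, 0], [0, 0, 1, 0, 0, 1, 0, 0], [0, 0, 0, 0, 1, 0, 1, 0]]),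
   (6, [[0, 0, 0, 0, 0, 2], [1, 0, 0, 0, 1, 0], [1, 1, 0, 1, 0, 1], [0, 1, 0, 1, 0, 0], [0, 0, 0, 0, 1, 1], [0, 0, 1, 0, 0, 0]], [[1, 0, 0, 0, 1, 0], [0, 0, 0, 0, 0, 2], [0, 1, 0, 1, 0, 0], [0, 0, 1, 0, 0, 0], [0, 0, 0, 1, 0, 1], [0, 0, 0, 0, 1, 1], [1, 1, 0, 0, 0, 0]], [[0, 1, 0, 0, 0, 0, 0], [1, 0, 0, 0, 0, 0, 0], [0, 0, 0, 0, 1, 0, 1], [0, 0, 1, 0, 0, 0, 0], [0, 0, 0, 0, 0, 1, 0], [0, 0, 0, 1, 0, 0, 0]]),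
   (5, [[0, 0, 1, 0, 0], [0, 1, 0, 1, 1], [1, 1, 0, 0, 1], [1, 0, 0, 1, 0], [2, 0, 0, 0, 0]], [[2, 0, 0, 0, 0], [0, 0, 0, 1, 1], [1, 1, 0, 0, 1], [0, 1, 0, 0, 0], [1, 0, 0, 1, 0], [0, 0, 1, 0, 0]], [[0, 0, 0, 0, 0, 1], [0, 1, 0, 1, 0, 0], [0, 0, 1, 0, 0, 0], [0, 0, 0, 0, 1, 0], [1, 0, 0, 0, 0, 0]]),
   (4, [[0, 0, 0, 1], [2, 1, 1, 0], [1, 0, 1, 0], [1, 1, 0, 0]], [[0, 0, 0, 1], [0, 1, 1, 0], [1, 1, 0, 0], [1, 0, 1, 0], [2, 0, 0, 0]], [[1, 0, 0, 0, 0], [0, 1, 0, 0, 1], [0, 0, 0, 1, 0], [0, 0, 1, 0, 0]]),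
   (3, [[1, 1, 1], [1, 0, 0], [0, 1, 1]], [[0, 1, 0], [1, 0, 1], [0, 0, 1], [1, 0, 0]], [[1, 1, 0, 0], [0, 0, 0, 1], [1, 0, 1, 0]]),
   (2, [[1, 1], [1, 1]], [[1, 1], [0, 1], [1, 0]], [[0, 1, 1], [1, 0, 0]]),
   (1, [[2]], [[1], [1]], [[1, 1]])]

theorem ok6 : chainOK 8 rep6 ch6 = true := by decide +kernel

/-- Representative 7. -/
def rep7 : List (List ℕ) := [[0, 1, 0, 0, 0, 1, 0, 0], [0, 0, 0, 0, 0, 0, 1, 1], [0, 0, 1, 0, 1, 0, 0, 0], [0, 0, 0, 1, 0, 0, 0, 1], [1, 0, 0, 1, 0, 0, 0, 0], [0, 0, 1, 0, 0, 0, 1, 0], [1, 0, 0, 0, 1, 0, 0, 0], [0, 1, 0, 0, 0, 1, 0, 0]]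

/-- Chain from representative 7 to `[2]`. -/
def ch7 : List (ℕ × List (List ℕ) × List (List ℕ) × List (List ℕ)) :=
  [(7, [[0, 0, 1, 0, 0, 0, 1], [1, 0, 0, 0, 0, 0, 1], [0, 0, 1, 0, 1, 0, 0], [0, 2, 0, 0, 1, 1, 0], [0, 0, 0, 1, 0, 0, 0], [1, 0, 0, 0, 0, 1, 0], [0, 0, 0, 1, 0, 0, 0]], [[0, 0, 0, 1, 0, 0, 0], [0, 1, 0, 0, 1, 0, 0], [1, 0, 0, 0, 0, 1, 0], [0, 0, 1, 0, 1, 0, 0], [0, 0, 1, 0, 0, 0, 1], [0, 1, 0, 0, 0, 1, 0], [1, 0, 0, 0, 0, 0, 1], [0, 0, 0, 1, 0, 0, 0]], [[0, 0, 0, 0, 1, 0, 0, 0], [0, 0, 0, 0, 0, 0, 1, 0], [0, 0, 0, 1, 0, 0, 0, 0], [0, 1, 0, 0, 0, 1, 0, 0], [0, 0, 0, 0, 0, 0, 0, 1], [0, 0, 1, 0, 0, 0, 0, 0], [1, 0, 0, 0, 0, 0, 0, 0]]),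
   (6, [[0, 1, 1, 0, 0, 0], [0, 0, 1, 1, 0, 0], [0, 0, 0, 0, 0, 1], [0, 0, 1, 1, 0, 0], [0, 1, 0, 0, 1, 0], [2, 0, 1, 0, 1, 0]], [[0, 1, 0, 0, 0, 0], [1, 0, 0, 0, 0, 0], [0, 0, 0, 1, 0, 0], [0, 0, 0, 0, 0, 1], [0, 0, 1, 0, 0, 0], [0, 0, 0, 0, 1, 0], [0, 0, 1, 0, 0, 0]], [[1, 0, 0, 0, 0, 0, 1], [0, 0, 1, 0, 0, 0, 1], [0, 0, 0, 1, 0, 0, 0], [0, 0, 1, 0, 1, 0, 0], [1, 0, 0, 0, 0, 1, 0], [0, 2, 0, 0, 1, 1, 0]]),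
   (5, [[0, 0, 1, 1, 2], [0, 1, 1, 0, 0], [1, 0, 0, 0, 0], [0, 1, 0, 1, 0], [0, 1, 1, 0, 0]], [[0, 0, 0, 0, 1], [0, 1, 0, 0, 0], [0, 0, 1, 0, 0], [0, 1, 0, 0, 0], [0, 0, 0, 1, 0], [1, 0, 0, 0, 0]], [[2, 0, 1, 0, 1, 0], [0, 0, 1, 1, 0, 0], [0, 0, 0, 0, 0, 1], [0, 1, 0, 0, 1, 0], [0, 1, 1, 0, 0, 0]]),
   (4, [[0, 2, 1, 1], [0, 1, 0, 1], [0, 1, 1, 0], [1, 0, 0, 0]], [[1, 0, 0, 0], [0, 1, 0, 0], [0, 0, 0, 1], [0, 0, 1, 0], [0, 1, 0, 0]], [[0, 0, 1, 1, 2], [0, 1, 1, 0, 0], [0, 1, 0, 1, 0], [1, 0, 0, 0, 0]]),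
   (3, [[1, 1, 0], [1, 0, 1], [1, 0, 1]], [[1, 0, 1], [1, 0, 0], [0, 0, 1], [0, 1, 0]], [[0, 1, 0, 1], [1, 0, 0, 0], [0, 1, 1, 0]]),
   (2, [[1, 1], [1, 1]], [[0, 1], [1, 0], [1, 0]], [[1, 0, 1], [1, 1, 0]]),
   (1, [[2]], [[1], [1]], [[1, 1]])]

theorem ok7 : chainOK 8 rep7 ch7 = true := by decide +kernel

/-- Representative 8. -/
def rep8 : List (List ℕ) := [[0, 0, 0, 1, 0, 0, 0, 1], [0, 1, 0, 0, 0, 0, 0, 1], [0, 0, 1, 1, 0, 0, 0, 0], [1, 0, 0, 0, 1, 0, 0, 0], [0, 1, 0, 0, 0, 0, 1, 0], [1, 0, 0, 0, 1, 0, 0, 0], [0, 0, 0, 0, 0, 2, 0, 0], [0, 0, 1, 0, 0, 0, 1, 0]]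

/-- Chain from representative 8 to `[2]`. -/
def ch8 : List (ℕ × List (List ℕ) × List (List ℕ) × List (List ℕ)) :=
  [(7, [[0, 0, 1, 1, 0, 1, 1], [2, 0, 0, 0, 0, 0, 0], [1, 0, 0, 0, 0, 0, 0], [0, 0, 0, 1, 0, 0, 1], [0, 0, 1, 0, 1, 0, 0], [0, 1, 0, 0, 0, 0, 0], [0, 0, 0, 0, 1, 1, 0]], [[0, 0, 1, 0, 0, 0, 1], [0, 0, 0, 1, 0, 0, 1], [0, 0, 1, 0, 1, 0, 0], [1, 0, 0, 0, 0, 0, 0], [0, 0, 0, 1, 0, 1, 0], [1, 0, 0, 0, 0, 0, 0], [0, 1, 0, 0, 0, 0, 0], [0, 0, 0, 0, 1, 1, 0]], [[1, 0, 0, 0, 1, 0, 0, 0], [0, 0, 0, 0, 0, 2, 0, 0], [0, 0, 0, 1, 0, 0, 0, 0], [0, 1, 0, 0, 0, 0, 0, 0], [0, 0, 1, 0, 0, 0, 0, 0], [0, 0, 0, 0, 0, 0, 1, 0], [0, 0, 0, 0, 0, 0, 0, 1]]),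
   (6, [[0, 1, 0, 0, 1, 1], [1, 0, 0, 0, 0, 0], [0, 1, 1, 0, 0, 0], [2, 0, 0, 0, 0, 0], [0, 0, 1, 0, 1, 1], [0, 0, 0, 1, 0, 0]], [[0, 1, 0, 0, 1, 1], [2, 0, 0, 0, 0, 0], [1, 0, 0, 0, 0, 0], [0, 0, 0, 0, 1, 0], [0, 1, 1, 0, 0, 0], [0, 0, 0, 1, 0, 0], [0, 0, 1, 0, 0, 1]], [[1, 0, 0, 0, 0, 0, 0], [0, 0, 1, 0, 0, 0, 0], [0, 0, 0, 0, 1, 0, 0], [0, 1, 0, 0, 0, 0, 0], [0, 0, 0, 1, 0, 0, 1], [0, 0, 0, 0, 0, 1, 0]]),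
   (5, [[0, 0, 2, 0, 0], [1, 1, 0, 0, 1], [0, 1, 0, 1, 0], [0, 0, 1, 0, 0], [0, 0, 0, 1, 1]], [[0, 1, 0, 1, 0], [0, 0, 1, 0, 0], [0, 0, 0, 1, 1], [0, 0, 2, 0, 0], [0, 1, 0, 0, 1], [1, 0, 0, 0, 0]], [[0, 0, 0, 1, 0, 0], [0, 0, 0, 0, 1, 1], [1, 0, 0, 0, 0, 0], [0, 1, 0, 0, 0, 0], [0, 0, 1, 0, 0, 0]]),
   (4, [[0, 0, 0, 1], [2, 1, 1, 0], [1, 0, 1, 0], [1, 1, 0, 0]], [[2, 0, 0, 0], [0, 1, 0, 0], [0, 0, 0, 1], [1, 0, 0, 0], [0, 0, 1, 0]], [[0, 0, 1, 0, 0], [1, 1, 0, 0, 1], [0, 0, 0, 1, 1], [0, 1, 0, 1, 0]]),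
   (3, [[1, 1, 1], [1, 0, 0], [0, 1, 1]], [[0, 1, 0], [1, 0, 1], [0, 0, 1], [1, 0, 0]], [[1, 1, 0, 0], [0, 0, 0, 1], [1, 0, 1, 0]]),
   (2, [[1, 1], [1, 1]], [[1, 1], [0, 1], [1, 0]], [[0, 1, 1], [1, 0, 0]]),
   (1, [[2]], [[1], [1]], [[1, 1]])]

theorem ok8 : chainOK 8 rep8 ch8 = true := by decide +kernel

/-- Representative 9. -/
def rep9 : List (List ℕ) := [[0, 0, 0, 1, 0, 1, 0, 0], [0, 1, 0, 0, 1, 0, 0, 0], [0, 0, 1, 0, 0, 0, 0, 1], [1, 0, 1, 0, 0, 0, 0, 0], [0, 0, 0, 1, 0, 1, 0, 0], [0, 0, 0, 0, 0, 0, 2, 0], [0, 0, 0, 0, 1, 0, 0, 1], [1, 1, 0, 0, 0, 0, 0, 0]]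

/-- Chain from representative 9 to `[2]`. -/
def ch9 : List (ℕ × List (List ℕ) × List (List ℕ) × List (List ℕ)) :=
  [(7, [[0, 2, 1, 0, 0, 0, 0], [0, 0, 0, 0, 0, 1, 0], [1, 0, 0, 0, 1, 0, 0], [1, 0, 0, 1, 0, 0, 0], [0, 0, 0, 0, 1, 0, 1], [1, 0, 0, 0, 0, 0, 1], [1, 0, 0, 1, 0, 0, 0]], [[1, 0, 0, 0, 0, 0, 0], [0, 0, 0, 1, 0, 0, 0], [0, 0, 0, 0, 1, 0, 0], [0, 0, 1, 0, 0, 0, 0], [1, 0, 0, 0, 0, 0, 0], [0, 2, 0, 0, 0, 0, 0], [0, 0, 0, 0, 0, 1, 0], [0, 0, 0, 0, 0, 0, 1]], [[0, 0, 0, 1, 0, 1, 0, 0], [0, 0, 0, 0, 0, 0, 1, 0], [1, 0, 1, 0, 0, 0, 0, 0], [0, 1, 0, 0, 1, 0, 0, 0], [0, 0, 1, 0, 0, 0, 0, 1], [0, 0, 0, 0, 1, 0, 0, 1], [1, 1, 0, 0, 0, 0, 0, 0]]),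
   (6, [[0, 1, 0, 2, 0, 0], [1, 0, 1, 0, 0, 0], [0, 0, 1, 0, 1, 0], [0, 0, 0, 0, 0, 1], [1, 0, 0, 0, 1, 0], [1, 0, 0, 0, 1, 0]], [[1, 0, 0, 0, 0, 0], [0, 0, 0, 1, 0, 0], [0, 1, 0, 0, 0, 0], [0, 0, 0, 0, 1, 0], [0, 0, 1, 0, 0, 0], [0, 0, 0, 0, 0, 1], [0, 0, 0, 0, 1, 0]], [[0, 2, 1, 0, 0, 0, 0], [1, 0, 0, 0, 1, 0, 0], [0, 0, 0, 0, 1, 0, 1], [0, 0, 0, 0, 0, 1, 0], [1, 0, 0, 1, 0, 0, 0], [1, 0, 0, 0, 0, 0, 1]]),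
   (5, [[0, 1, 0, 0, 0], [0, 1, 1, 0, 0], [2, 0, 0, 1, 0], [0, 0, 1, 0, 1], [0, 1, 0, 0, 1]], [[0, 0, 1, 0, 0], [0, 0, 0, 1, 0], [0, 0, 0, 0, 1], [1, 0, 0, 0, 0], [0, 1, 0, 0, 0], [0, 1, 0, 0, 0]], [[0, 0, 0, 0, 0, 1], [1, 0, 0, 0, 1, 0], [0, 1, 0, 2, 0, 0], [1, 0, 1, 0, 0, 0], [0, 0, 1, 0, 1, 0]]),
   (4, [[0, 2, 1, 1], [0, 1, 0, 1], [0, 1, 1, 0], [1, 0, 0, 0]], [[0, 1, 0, 0], [0, 1, 0, 1], [1, 0, 0, 0], [0, 0, 1, 1], [0, 1, 1, 0]], [[2, 0, 0, 1, 0], [0, 1, 0, 0, 0], [0, 0, 0, 0, 1], [0, 0, 1, 0, 0]]),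
   (3, [[1, 1, 0], [1, 0, 1], [1, 0, 1]], [[1, 0, 1], [1, 0, 0], [0, 0, 1], [0, 1, 0]], [[0, 1, 0, 1], [1, 0, 0, 0], [0, 1, 1, 0]]),
   (2, [[1, 1], [1, 1]], [[0, 1], [1, 0], [1, 0]], [[1, 0, 1], [1, 1, 0]]),
   (1, [[2]], [[1], [1]], [[1, 1]])]

theorem ok9 : chainOK 8 rep9 ch9 = true := by decide +kernel

/-- Representative 10. -/
def rep10 : List (List ℕ) := [[0, 0, 0, 1, 0, 0, 0, 1], [0, 1, 0, 0, 0, 0, 1, 0], [0, 0, 1, 0, 0, 1, 0, 0], [1, 0, 0, 0, 1, 0, 0, 0], [1, 0, 0, 0, 0, 1, 0, 0], [0, 1, 0, 0, 0, 0, 1, 0], [0, 0, 0, 1, 0, 0, 0, 1], [0, 0, 1, 0, 1, 0, 0, 0]]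

/-- Chain from representative 10 to `[2]`. -/
def ch10 : List (ℕ × List (List ℕ) × List (List ℕ) × List (List ℕ)) :=
  [(6, [[0, 1, 0, 1, 0, 0], [1, 0, 0, 0, 1, 0], [0, 1, 1, 0, 0, 0], [0, 1, 1, 0, 0, 0], [0, 0, 0, 1, 0, 1], [0, 0, 1, 0, 0, 1]], [[0, 1, 0, 0, 0, 0], [0, 0, 1, 0, 0, 0], [0, 0, 0, 0, 0, 1], [1, 0, 0, 0, 0, 0], [0, 0, 0, 1, 0, 0], [0, 0, 1, 0, 0, 0], [0, 1, 0, 0, 0, 0], [0, 0, 0, 0, 1, 0]], [[1, 0, 0, 0, 1, 0, 0, 0], [0, 0, 0, 1, 0, 0, 0, 1], [0, 1, 0, 0, 0, 0, 1, 0], [1, 0, 0, 0, 0, 1, 0, 0], [0, 0, 1, 0, 1, 0, 0, 0], [0, 0, 1, 0, 0, 1, 0, 0]]),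
   (5, [[1, 0, 0, 1, 0], [0, 0, 0, 1, 1], [1, 0, 0, 1, 0], [0, 0, 0, 1, 1], [0, 1, 1, 0, 0]], [[0, 1, 0, 0, 0], [0, 0, 0, 0, 1], [0, 0, 0, 1, 0], [0, 0, 0, 1, 0], [0, 0, 1, 0, 0], [1, 0, 0, 0, 0]], [[0, 0, 1, 0, 0, 1], [0, 1, 0, 1, 0, 0], [0, 0, 0, 1, 0, 1], [0, 1, 1, 0, 0, 0], [1, 0, 0, 0, 1, 0]]),
   (3, [[1, 0, 1], [1, 0, 1], [0, 1, 1]], [[1, 0, 0], [0, 0, 1], [1, 0, 0], [0, 0, 1], [0, 1, 0]], [[1, 0, 0, 1, 0], [0, 1, 1, 0, 0], [0, 0, 0, 1, 1]]),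
   (2, [[1, 1], [1, 1]], [[1, 0], [1, 0], [0, 1]], [[1, 0, 1], [0, 1, 1]]),
   (1, [[2]], [[1], [1]], [[1, 1]])]

theorem ok10 : chainOK 8 rep10 ch10 = true := by decide +kernel

/-- Representative 11. -/
def rep11 : List (List ℕ) := [[0, 0, 0, 1, 1, 0, 0, 0], [0, 1, 0, 0, 0, 1, 0, 0], [0, 0, 1, 0, 0, 0, 0, 1], [1, 0, 0, 0, 0, 0, 1, 0], [0, 0, 0, 1, 0, 0, 0, 1], [0, 0, 1, 0, 1, 0, 0, 0], [0, 1, 0, 0, 0, 1, 0, 0], [1, 0, 0, 0, 0, 0, 1, 0]]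

/-- Chain from representative 11 to `[2]`. -/
def ch11 : List (ℕ × List (List ℕ) × List (List ℕ) × List (List ℕ)) :=
  [(6, [[0, 1, 0, 0, 0, 0], [1, 0, 1, 1, 0, 0], [0, 0, 1, 1, 0, 1], [1, 0, 0, 0, 1, 0], [0, 1, 0, 0, 0, 0], [0, 0, 0, 0, 1, 1]], [[1, 0, 0, 1, 0, 0], [0, 0, 1, 0, 0, 0], [0, 0, 0, 0, 1, 1], [0, 1, 0, 0, 0, 0], [1, 0, 0, 0, 1, 0], [0, 0, 0, 1, 0, 1], [0, 0, 1, 0, 0, 0], [0, 1, 0, 0, 0, 0]], [[0, 0, 0, 1, 0, 0, 0, 0], [1, 0, 0, 0, 0, 0, 1, 0], [0, 1, 0, 0, 0, 1, 0, 0], [0, 0, 0, 0, 1, 0, 0, 0], [0, 0, 0, 0, 0, 0, 0, 1], [0, 0, 1, 0, 0, 0, 0, 0]]),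
   (5, [[1, 0, 1, 0, 0], [0, 0, 0, 0, 1], [0, 0, 0, 0, 1], [1, 1, 1, 1, 0], [0, 1, 0, 1, 0]], [[0, 0, 0, 0, 1], [0, 1, 0, 1, 0], [1, 0, 0, 1, 0], [0, 1, 1, 0, 0], [0, 0, 0, 0, 1], [1, 0, 1, 0, 0]], [[0, 0, 0, 0, 0, 1], [1, 0, 0, 0, 0, 0], [0, 0, 0, 0, 1, 0], [0, 0, 1, 1, 0, 0], [0, 1, 0, 0, 0, 0]]),
   (3, [[1, 1, 0], [0, 0, 1], [1, 1, 1]], [[1, 0, 0], [0, 1, 0], [0, 1, 0], [1, 0, 1], [0, 0, 1]], [[1, 0, 1, 0, 0], [0, 0, 0, 0, 1], [0, 1, 0, 1, 0]]),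
   (2, [[1, 1], [1, 1]], [[1, 0], [0, 1], [1, 1]], [[1, 1, 0], [0, 0, 1]]),
   (1, [[2]], [[1], [1]], [[1, 1]])]

theorem ok11 : chainOK 8 rep11 ch11 = true := by decide +kernel

/-- Representative 12. -/
def rep12 : List (List ℕ) := [[0, 0, 0, 1, 0, 0, 0, 1], [1, 1, 0, 0, 0, 0, 0, 0], [1, 1, 0, 0, 0, 0, 0, 0], [0, 0, 0, 0, 0, 1, 1, 0], [0, 0, 1, 0, 0, 0, 1, 0], [0, 0, 0, 0, 1, 1, 0, 0], [0, 0, 0, 1, 0, 0, 0, 1], [0, 0, 1, 0, 1, 0, 0, 0]]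

/-- Chain from representative 12 to `[2]`. -/
def ch12 : List (ℕ × List (List ℕ) × List (List ℕ) × List (List ℕ)) :=
  [(6, [[1, 1, 0, 0, 0, 0], [0, 0, 1, 1, 1, 1], [0, 0, 0, 1, 0, 1], [1, 0, 0, 0, 0, 0], [0, 0, 1, 0, 1, 0], [0, 1, 0, 0, 0, 0]], [[0, 1, 0, 0, 0, 0], [1, 0, 0, 0, 0, 0], [1, 0, 0, 0, 0, 0], [0, 0, 0, 0, 1, 1], [0, 0, 0, 1, 0, 1], [0, 0, 1, 0, 1, 0], [0, 1, 0, 0, 0, 0], [0, 0, 1, 1, 0, 0]], [[1, 1, 0, 0, 0, 0, 0, 0], [0, 0, 0, 1, 0, 0, 0, 1], [0, 0, 0, 0, 1, 0, 0, 0], [0, 0, 1, 0, 0, 0, 0, 0], [0, 0, 0, 0, 0, 1, 0, 0], [0, 0, 0, 0, 0, 0, 1, 0]]),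
   (4, [[0, 0, 1, 1], [1, 1, 0, 0], [1, 1, 0, 0], [0, 0, 1, 1]], [[0, 0, 1, 1], [1, 1, 0, 0], [1, 0, 0, 0], [0, 0, 0, 1], [0, 1, 0, 0], [0, 0, 1, 0]], [[0, 0, 0, 1, 0, 1], [0, 0, 1, 0, 1, 0], [0, 1, 0, 0, 0, 0], [1, 0, 0, 0, 0, 0]]),
   (2, [[1, 1], [1, 1]], [[1, 0], [0, 1], [0, 1], [1, 0]], [[0, 0, 1, 1], [1, 1, 0, 0]]),
   (1, [[2]], [[1], [1]], [[1, 1]])]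

theorem ok12 : chainOK 8 rep12 ch12 = true := by decide +kernel

/-- Representative 13. -/
def rep13 : List (List ℕ) := [[0, 1, 1, 0, 0, 0, 0, 0], [0, 1, 1, 0, 0, 0, 0, 0], [0, 0, 0, 0, 1, 0, 0, 1], [1, 0, 0, 0, 0, 0, 1, 0], [0, 0, 0, 0, 0, 1, 0, 1], [0, 0, 0, 1, 0, 1, 0, 0], [0, 0, 0, 1, 1, 0, 0, 0], [1, 0, 0, 0, 0, 0, 1, 0]]

/-- Chain from representative 13 to `[2]`. -/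
def ch13 : List (ℕ × List (List ℕ) × List (List ℕ) × List (List ℕ)) :=
  [(6, [[1, 0, 0, 1, 0, 0], [1, 0, 0, 0, 0, 1], [0, 1, 0, 0, 1, 0], [0, 1, 1, 0, 0, 0], [0, 1, 0, 0, 1, 0], [0, 1, 1, 0, 0, 0]], [[1, 0, 0, 0, 0, 0], [1, 0, 0, 0, 0, 0], [0, 0, 0, 1, 0, 0], [0, 1, 0, 0, 0, 0], [0, 0, 1, 0, 0, 0], [0, 0, 0, 0, 1, 0], [0, 0, 0, 0, 0, 1], [0, 1, 0, 0, 0, 0]], [[0, 1, 1, 0, 0, 0, 0, 0], [1, 0, 0, 0, 0, 0, 1, 0], [0, 0, 0, 0, 0, 1, 0, 1], [0, 0, 0, 0, 1, 0, 0, 1], [0, 0, 0, 1, 0, 1, 0, 0], [0, 0, 0, 1, 1, 0, 0, 0]]),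
   (4, [[0, 1, 1, 0], [0, 1, 1, 0], [1, 0, 0, 1], [1, 0, 0, 1]], [[0, 0, 0, 1], [0, 0, 1, 0], [0, 1, 0, 0], [1, 0, 0, 0], [0, 1, 0, 0], [1, 0, 0, 0]], [[0, 1, 1, 0, 0, 0], [0, 1, 0, 0, 1, 0], [1, 0, 0, 0, 0, 1], [1, 0, 0, 1, 0, 0]]),
   (2, [[1, 1], [1, 1]], [[0, 1], [0, 1], [1, 0], [1, 0]], [[1, 0, 0, 1], [0, 1, 1, 0]]),
   (1, [[2]], [[1], [1]], [[1, 1]])]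

theorem ok13 : chainOK 8 rep13 ch13 = true := by decide +kernel

/-- Representative 14. -/
def rep14 : List (List ℕ) := [[0, 0, 0, 1, 1, 0, 0, 0], [0, 0, 0, 0, 0, 1, 1, 0], [1, 1, 0, 0, 0, 0, 0, 0], [0, 0, 0, 0, 1, 1, 0, 0], [1, 1, 0, 0, 0, 0, 0, 0], [0, 0, 1, 0, 0, 0, 0, 1], [0, 0, 0, 1, 0, 0, 1, 0], [0, 0, 1, 0, 0, 0, 0, 1]]

/-- Chain from representative 14 to `[2]`. -/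
def ch14 : List (ℕ × List (List ℕ) × List (List ℕ) × List (List ℕ)) :=
  [(6, [[1, 0, 0, 0, 1, 0], [0, 1, 0, 1, 0, 0], [0, 0, 0, 1, 1, 0], [0, 0, 1, 0, 0, 1], [0, 1, 0, 1, 0, 0], [1, 1, 0, 0, 0, 0]], [[0, 0, 1, 0, 0, 0], [0, 0, 0, 0, 0, 1], [0, 0, 0, 1, 0, 0], [0, 0, 0, 0, 1, 0], [0, 0, 0, 1, 0, 0], [0, 1, 0, 0, 0, 0], [1, 0, 0, 0, 0, 0], [0, 1, 0, 0, 0, 0]], [[0, 0, 0, 1, 0, 0, 1, 0], [0, 0, 1, 0, 0, 0, 0, 1], [0, 0, 0, 1, 1, 0, 0, 0], [1, 1, 0, 0, 0, 0, 0, 0], [0, 0, 0, 0, 1, 1, 0, 0], [0, 0, 0, 0, 0, 1, 1, 0]]),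
   (5, [[1, 0, 0, 1, 0], [0, 0, 0, 1, 1], [1, 0, 0, 1, 0], [0, 0, 0, 1, 1], [0, 1, 1, 0, 0]], [[1, 0, 0, 0, 0], [0, 0, 0, 1, 0], [0, 1, 0, 0, 0], [0, 0, 0, 0, 1], [0, 0, 0, 1, 0], [0, 0, 1, 0, 0]], [[1, 0, 0, 0, 1, 0], [0, 0, 0, 1, 1, 0], [1, 1, 0, 0, 0, 0], [0, 1, 0, 1, 0, 0], [0, 0, 1, 0, 0, 1]]),
   (3, [[1, 0, 1], [1, 0, 1], [0, 1, 1]], [[1, 0, 0], [0, 0, 1], [1, 0, 0], [0, 0, 1], [0, 1, 0]], [[1, 0, 0, 1, 0], [0, 1, 1, 0, 0], [0, 0, 0, 1, 1]]),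
   (2, [[1, 1], [1, 1]], [[1, 0], [1, 0], [0, 1]], [[1, 0, 1], [0, 1, 1]]),
   (1, [[2]], [[1], [1]], [[1, 1]])]

theorem ok14 : chainOK 8 rep14 ch14 = true := by decide +kernel

/-- Representative 15. -/
def rep15 : List (List ℕ) := [[0, 0, 1, 0, 1, 0, 0, 0], [0, 0, 1, 0, 1, 0, 0, 0], [0, 0, 0, 0, 0, 1, 0, 1], [1, 0, 0, 0, 0, 0, 1, 0], [1, 0, 0, 1, 0, 0, 0, 0], [0, 1, 0, 1, 0, 0, 0, 0], [0, 1, 0, 0, 0, 0, 1, 0], [0, 0, 0, 0, 0, 1, 0, 1]]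

/-- Chain from representative 15 to `[2]`. -/
def ch15 : List (ℕ × List (List ℕ) × List (List ℕ) × List (List ℕ)) :=
  [(6, [[1, 0, 0, 0, 0, 1], [0, 1, 0, 0, 1, 1], [0, 0, 0, 1, 0, 0], [0, 1, 1, 0, 1, 0], [1, 0, 1, 0, 0, 0], [0, 0, 0, 1, 0, 0]], [[0, 0, 0, 1, 0, 0], [0, 0, 0, 1, 0, 0], [0, 1, 0, 0, 0, 0], [1, 0, 1, 0, 0, 0], [0, 0, 1, 0, 1, 0], [0, 0, 0, 0, 1, 1], [1, 0, 0, 0, 0, 1], [0, 1, 0, 0, 0, 0]], [[0, 0, 0, 0, 0, 0, 1, 0], [0, 0, 0, 0, 0, 1, 0, 1], [1, 0, 0, 0, 0, 0, 0, 0], [0, 0, 1, 0, 1, 0, 0, 0], [0, 0, 0, 1, 0, 0, 0, 0], [0, 1, 0, 0, 0, 0, 0, 0]]),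
   (5, [[1, 0, 1, 0, 0], [0, 0, 0, 0, 1], [0, 0, 0, 0, 1], [1, 1, 1, 1, 0], [0, 1, 0, 1, 0]], [[1, 0, 1, 0, 0], [0, 0, 1, 1, 0], [0, 0, 0, 0, 1], [0, 1, 0, 1, 0], [1, 1, 0, 0, 0], [0, 0, 0, 0, 1]], [[1, 0, 0, 0, 0, 0], [0, 0, 1, 0, 0, 0], [0, 0, 0, 0, 0, 1], [0, 1, 0, 0, 1, 0], [0, 0, 0, 1, 0, 0]]),
   (3, [[1, 1, 0], [0, 0, 1], [1, 1, 1]], [[1, 0, 0], [0, 1, 0], [0, 1, 0], [1, 0, 1], [0, 0, 1]], [[1, 0, 1, 0, 0], [0, 0, 0, 0, 1], [0, 1, 0, 1, 0]]),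
   (2, [[1, 1], [1, 1]], [[1, 0], [0, 1], [1, 1]], [[1, 1, 0], [0, 0, 1]]),
   (1, [[2]], [[1], [1]], [[1, 1]])]

theorem ok15 : chainOK 8 rep15 ch15 = true := by decide +kernel

/-- Representative 16. -/
def rep16 : List (List ℕ) := [[0, 1, 0, 0, 0, 0, 1, 0], [0, 0, 0, 1, 0, 0, 0, 1], [0, 0, 0, 1, 1, 0, 0, 0], [1, 0, 1, 0, 0, 0, 0, 0], [1, 0, 0, 0, 0, 0, 1, 0], [0, 0, 0, 0, 1, 1, 0, 0], [0, 1, 1, 0, 0, 0, 0, 0], [0, 0, 0, 0, 0, 1, 0, 1]]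

/-- Chain from representative 16 to `[2]`. -/
def ch16 : List (ℕ × List (List ℕ) × List (List ℕ) × List (List ℕ)) :=
  [(8, [[0, 2, 1, 0, 0, 0, 0, 1], [0, 0, 0, 1, 0, 0, 0, 0], [0, 0, 0, 0, 0, 0, 1, 0], [0, 1, 1, 0, 1, 0, 0, 0], [1, 1, 0, 0, 0, 0, 0, 1], [0, 0, 1, 0, 0, 1, 0, 0], [1, 0, 0, 0, 1, 0, 0, 0], [0, 0, 0, 0, 0, 1, 0, 1]], [[0, 0, 0, 0, 1, 0, 0, 0], [0, 1, 0, 0, 0, 0, 0, 1], [0, 1, 1, 0, 0, 0, 0, 0], [0, 0, 0, 1, 0, 0, 0, 0], [0, 0, 0, 0, 0, 0, 1, 0], [0, 0, 1, 0, 0, 1, 0, 0], [1, 0, 0, 0, 0, 0, 0, 0], [0, 0, 0, 0, 0, 1, 0, 1]], [[0, 1, 1, 0, 0, 0, 0, 0], [0, 0, 0, 1, 0, 0, 0, 0], [0, 0, 0, 0, 1, 0, 0, 0], [1, 0, 1, 0, 0, 0, 0, 0], [0, 1, 0, 0, 0, 0, 1, 0], [0, 0, 0, 0, 0,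 1, 0, 0], [1, 0, 0, 0, 0, 0, 1, 0], [0, 0, 0, 0, 0, 0, 0, 1]]),
   (9, [[0, 0, 0, 0, 0, 1, 0, 0, 0], [0, 1, 0, 0, 0, 0, 0, 0, 1], [0, 0, 0, 0, 0, 0, 1, 0, 0], [1, 2, 1, 0, 0, 0, 0, 1, 1], [0, 1, 1, 1, 0, 0, 0, 1, 0], [1, 0, 0, 1, 0, 0, 1, 0, 0], [0, 0, 0, 0, 1, 0, 0, 0, 0], [2, 0, 0, 0, 0, 0, 0, 0, 0], [0, 0, 1, 0, 0, 0, 0, 0, 1]], [[0, 1, 1, 0, 0, 0, 0, 1, 0], [1, 0, 0, 0, 0, 0, 0, 0, 0], [0, 0, 0, 0, 0, 0, 1, 0, 0], [0, 0, 0, 0, 0, 1, 0, 0, 0], [0, 0, 0, 1, 0, 0, 0, 0, 0], [0, 0, 1, 0, 0, 0, 0, 0, 1], [0, 0, 0, 0, 1, 0, 0, 0, 0], [0, 1, 0, 0, 0, 0, 0, 0, 1]], [[0, 0, 0, 1, 0, 0, 0, 0], [0, 0, 0, 0, 0, 0, 0, 1], [0, 0, 1, 0, 0, 0, 0, 0], [1, 1, 0, 0, 0, 0, 0, 1], [1, 0, 0, 0, 1, 0,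 0, 0], [0, 1, 1, 0, 1, 0, 0, 0], [0, 0, 0, 0, 0, 0, 1, 0], [0, 2, 0, 0, 0, 0, 0, 0], [0, 0, 0, 0, 0, 1, 0, 0]]),
   (9, [[0, 2, 0, 0, 0, 0, 0, 1, 1], [0, 1, 0, 1, 0, 0, 0, 0, 0], [0, 0, 0, 0, 0, 1, 0, 0, 0], [0, 0, 1, 1, 0, 0, 0, 0, 0], [1, 0, 0, 1, 0, 0, 0, 1, 0], [0, 0, 0, 0, 0, 0, 1, 0, 0], [1, 1, 1, 1, 0, 0, 0, 0, 1], [0, 0, 1, 0, 1, 0, 0, 0, 0], [0, 0, 0, 0, 0, 0, 0, 2, 0]], [[0, 0, 0, 0, 0, 0, 0, 1, 0], [0, 1, 0, 0, 0, 0, 0, 0, 0], [0, 0, 1, 0, 0, 0, 0, 0, 0], [1, 0, 0, 1, 0, 0, 0, 0, 0], [0, 0, 0, 0, 0, 0, 1, 0, 0], [0, 0, 1, 0, 1, 0, 0, 0, 0], [0, 0, 0, 0, 0, 1, 0, 0, 0], [0, 0, 0, 0, 0, 0, 0, 0, 1], [0, 0, 0, 1, 0, 0, 0, 0, 0]], [[1, 2, 0, 0, 0, 0, 0, 1, 0], [0, 1, 0, 0, 0,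 0, 0, 0, 1], [0, 0, 0, 0, 0, 0, 1, 0, 0], [0, 0, 1, 0, 0, 0, 0, 0, 1], [1, 0, 0, 1, 0, 0, 0, 0, 0], [0, 0, 0, 0, 1, 0, 0, 0, 0], [0, 1, 1, 1, 0, 0, 0, 1, 0], [0, 0, 0, 0, 0, 1, 0, 0, 0], [2, 0, 0, 0, 0, 0, 0, 0, 0]]),
   (9, [[0, 1, 1, 0, 0, 0, 1, 1, 0], [0, 0, 0, 0, 0, 1, 0, 0, 0], [1, 0, 0, 0, 0, 0, 0, 0, 0], [0, 0, 0, 0, 0, 1, 1, 0, 1], [0, 1, 0, 0, 1, 0, 0, 0, 0], [0, 0, 0, 0, 0, 1, 0, 1, 0], [0, 0, 1, 0, 1, 0, 0, 0, 1], [0, 0, 0, 1, 0, 0, 0, 0, 0], [0, 1, 2, 0, 1, 0, 0, 0, 0]], [[0, 0, 1, 0, 1, 0, 0, 0, 1], [0, 1, 0, 0, 1, 0, 0, 0, 0], [0, 0, 0, 0, 0, 0, 0, 1, 0], [0, 0, 0, 0, 0, 1, 0, 0, 0], [0, 1, 1, 0, 0, 0, 1, 0, 0], [0, 0, 0, 1, 0, 0, 0, 0, 0], [0, 0, 0, 0, 0, 1, 1, 0, 1],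 [1, 0, 0, 0, 0, 0, 0, 0, 0], [0, 0, 2, 0, 0, 0, 0, 0, 0]], [[0, 0, 1, 0, 1, 0, 0, 0, 0], [0, 0, 0, 1, 0, 0, 0, 0, 0], [0, 0, 0, 0, 0, 0, 0, 1, 0], [0, 0, 0, 0, 0, 0, 1, 0, 0], [0, 1, 0, 0, 0, 0, 0, 0, 0], [0, 0, 1, 1, 0, 0, 0, 0, 0], [1, 0, 0, 0, 0, 0, 0, 0, 0], [0, 0, 0, 0, 0, 1, 0, 0, 0], [0, 1, 0, 0, 0, 0, 0, 0, 1]]),
   (9, [[1, 0, 0, 1, 0, 0, 0, 0, 0], [1, 0, 0, 0, 1, 0, 2, 0, 1], [0, 0, 0, 0, 0, 0, 1, 1, 0], [0, 0, 0, 0, 1, 0, 0, 0, 0], [0, 0, 0, 0, 1, 1, 0, 0, 0], [0, 1, 0, 0, 0, 0, 0, 0, 0], [0, 0, 1, 0, 0, 0, 0, 0, 0], [0, 0, 0, 1, 0, 1, 0, 0, 1], [2, 0, 1, 0, 0, 0, 2, 0, 0]], [[0, 0, 0, 0, 0, 0, 1, 1, 0], [0, 0, 0, 1, 0, 0, 0, 0, 0], [0, 0, 1, 0, 0, 0, 0, 0, 0], [0, 1, 0,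 0, 0, 0, 0, 0, 0], [1, 0, 0, 0, 0, 0, 0, 0, 0], [0, 0, 0, 0, 1, 0, 0, 0, 0], [0, 0, 0, 0, 0, 0, 0, 0, 1], [0, 0, 0, 0, 0, 1, 0, 0, 0], [1, 0, 0, 0, 0, 0, 2, 0, 0]], [[0, 1, 0, 0, 1, 0, 0, 0, 0], [0, 0, 0, 0, 0, 1, 1, 0, 1], [1, 0, 0, 0, 0, 0, 0, 0, 0], [0, 0, 0, 0, 0, 1, 0, 0, 0], [0, 0, 0, 0, 0, 1, 0, 1, 0], [0, 0, 0, 1, 0, 0, 0, 0, 0], [0, 0, 1, 0, 0, 0, 0, 0, 0], [0, 1, 0, 0, 0, 0, 1, 1, 0], [0, 0, 1, 0, 1, 0, 0, 0, 1]]),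
   (9, [[0, 0, 0, 0, 0, 0, 0, 0, 1], [0, 0, 1, 0, 0, 0, 1, 1, 0], [1, 0, 0, 0, 0, 1, 0, 0, 0], [0, 1, 0, 1, 0, 0, 0, 0, 0], [1, 1, 2, 0, 0, 0, 0, 1, 0], [0, 0, 0, 0, 0, 1, 0, 1, 0], [2, 0, 2, 0, 0, 0, 0, 0, 0], [0, 0, 0, 1, 0, 0, 0, 0, 0], [1, 0, 0, 0, 1, 0, 0, 0, 0]], [[0, 0, 0, 0, 0, 1, 0, 0, 0], [0, 0, 1, 0, 0, 0, 1, 1, 0], [0, 0, 0, 0, 0, 0, 0, 0, 1], [0, 0, 0, 0, 0, 0, 0, 1, 0], [0, 0, 0, 1, 0, 0, 0, 0, 0], [0, 1, 0, 0, 0, 0, 0, 0, 0], [1, 0, 0, 0, 0, 0, 0, 0, 0], [0, 0, 0, 0, 1, 0, 0, 0, 0], [1, 0, 2, 0, 0, 0, 0, 0, 0]], [[0, 0, 1, 0, 0, 0, 0, 0, 0], [0, 1, 0, 0, 0, 0, 0, 0, 0], [1, 0, 0, 0, 0, 0, 1, 0, 0], [0, 0, 0, 0, 1, 1, 0, 0, 0], [0, 0, 0, 1, 0, 1, 0, 0, 1], [1, 0, 0, 1,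 0, 0, 0, 0, 0], [0, 0, 0, 0, 0, 0, 1, 0, 1], [0, 0, 0, 0, 1, 0, 0, 0, 0], [0, 0, 0, 0, 0, 0, 1, 1, 0]]),
   (9, [[0, 1, 0, 1, 0, 0, 0, 0, 0], [0, 0, 0, 0, 0, 0, 0, 1, 0], [0, 0, 0, 0, 1, 1, 0, 0, 0], [0, 1, 0, 0, 0, 0, 1, 0, 0], [2, 0, 0, 0, 0, 0, 0, 0, 0], [0, 0, 0, 1, 0, 0, 0, 0, 1], [0, 0, 0, 0, 0, 0, 1, 0, 1], [1, 1, 1, 0, 0, 1, 0, 0, 0], [0, 0, 1, 0, 0, 0, 0, 0, 1]], [[0, 1, 0, 0, 0, 0, 0, 0, 0], [0, 0, 0, 0, 1, 1, 0, 0, 0], [0, 0, 0, 1, 0, 0, 0, 0, 0], [0, 0, 1, 0, 0, 0, 0, 0, 1], [1, 0, 1, 0, 0, 1, 0, 0, 0], [0, 0, 0, 0, 0, 0, 1, 0, 0], [2, 0, 0, 0, 0, 0, 0, 0, 0], [0, 0, 0, 0, 0, 0, 0, 0, 1], [0, 0, 0, 0, 0, 0, 0, 1, 0]], [[1, 0, 1, 0, 0, 0, 0, 0, 0], [0, 0, 0, 0, 0, 0, 0,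 0, 1], [0, 1, 0, 0, 0, 0, 0, 0, 0], [1, 0, 0, 0, 0, 1, 0, 0, 0], [0, 0, 0, 0, 0, 0, 1, 0, 0], [0, 0, 1, 0, 0, 0, 0, 1, 0], [0, 0, 0, 0, 0, 1, 0, 1, 0], [1, 0, 0, 0, 1, 0, 0, 0, 0], [0, 0, 0, 1, 0, 0, 0, 0, 0]]),
   (10, [[0, 0, 0, 0, 1, 1, 0, 0, 0, 0], [2, 0, 0, 0, 0, 0, 1, 0, 0, 0], [0, 0, 1, 0, 0, 0, 0, 0, 1, 0], [0, 1, 0, 0, 0, 0, 0, 0, 0, 0], [0, 0, 0, 0, 0, 0, 0, 0, 0, 1], [0, 0, 1, 0, 1, 0, 0, 0, 0, 0], [0, 0, 1, 1, 1, 0, 0, 0, 1, 0], [0, 0, 0, 0, 0, 0, 1, 0, 0, 1], [0, 0, 0, 1, 0, 0, 0, 0, 1, 0], [1, 0, 0, 1, 0, 0, 0, 1, 0, 0]], [[0, 0, 0, 0, 1, 1, 0, 0, 0, 0], [0, 0, 0, 0, 0, 0, 0, 0, 0, 1], [0, 1, 0, 0, 0, 0, 0, 0, 0, 0], [0, 0, 1, 0, 1, 0, 0, 0, 0, 0], [2, 0, 0, 0, 0, 0,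 0, 0, 0, 0], [0, 0, 0, 0, 0, 0, 1, 0, 0, 0], [0, 0, 1, 0, 0, 0, 0, 0, 1, 0], [1, 0, 0, 1, 0, 0, 0, 1, 0, 0], [0, 0, 0, 1, 0, 0, 0, 0, 1, 0]], [[1, 0, 0, 0, 0, 0, 0, 0, 0], [0, 0, 0, 0, 1, 1, 0, 0, 0], [0, 0, 0, 0, 0, 0, 1, 0, 0], [0, 0, 1, 0, 0, 0, 0, 0, 0], [0, 1, 0, 0, 0, 0, 0, 0, 0], [0, 0, 0, 1, 0, 0, 0, 0, 0], [0, 0, 0, 1, 0, 0, 0, 0, 1], [0, 1, 0, 0, 0, 1, 0, 0, 0], [0, 0, 0, 0, 0, 0, 0, 0, 1], [0, 0, 0, 0, 0, 0, 0, 1, 0]]),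
   (10, [[0, 0, 1, 0, 0, 0, 0, 0, 1, 0], [0, 0, 0, 0, 0, 1, 0, 0, 0, 0], [0, 2, 0, 0, 1, 0, 0, 0, 0, 0], [0, 0, 0, 0, 0, 0, 0, 1, 1, 0], [1, 0, 0, 0, 0, 0, 0, 1, 0, 0], [0, 0, 0, 1, 0, 0, 0, 0, 1, 0], [0, 0, 1, 0, 1, 0, 0, 0, 1, 0], [0, 0, 0, 0, 0, 0, 0, 1, 0, 1], [0, 1, 0, 0, 0, 0, 1, 0, 0, 0], [0, 0, 1, 0, 0, 0, 0, 0, 0, 1]], [[0, 0, 0, 0, 0, 1, 0, 0, 0, 0], [0, 2, 0, 0, 1, 0, 0, 0, 0, 0], [0, 0, 0, 0, 0, 0, 0, 1, 0, 0], [0, 0, 1, 0, 0, 0, 0, 0, 0, 0], [0, 0, 0, 0, 0, 0, 0, 0, 1, 0], [0, 0, 0, 1, 0, 0, 0, 0, 0, 0], [1, 0, 0, 0, 0, 0, 0, 1, 0, 0], [0, 0, 0, 0, 1, 0, 0, 0, 1, 0], [0, 0, 0, 0, 0, 0, 0, 0, 0, 1], [0, 1, 0, 0, 0, 0, 1, 0, 0, 0]], [[0, 0, 0, 1, 1, 0, 0, 0, 0, 0], [1, 0,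 0, 0, 0, 0, 0, 0, 0, 0], [0, 1, 0, 0, 0, 0, 0, 0, 0, 0], [0, 0, 1, 0, 1, 0, 0, 0, 0, 0], [0, 0, 0, 0, 0, 0, 1, 0, 0, 0], [0, 0, 0, 0, 1, 1, 0, 0, 0, 0], [0, 0, 0, 1, 0, 0, 0, 1, 0, 0], [0, 0, 1, 0, 0, 0, 0, 0, 1, 0], [0, 0, 0, 0, 0, 0, 0, 0, 0, 1], [0, 0, 0, 1, 0, 0, 0, 0, 1, 0]]),
   (10, [[0, 1, 0, 0, 1, 0, 0, 0, 0, 1], [0, 0, 1, 0, 0, 0, 0, 0, 0, 0], [1, 0, 0, 0, 0, 1, 0, 0, 0, 0], [0, 0, 0, 1, 0, 0, 0, 1, 0, 0], [1, 0, 0, 0, 0, 0, 0, 1, 0, 0], [1, 0, 0, 0, 0, 0, 0, 0, 1, 0], [0, 0, 0, 0, 1, 0, 0, 0, 1, 0], [0, 2, 0, 0, 0, 0, 1, 0, 0, 0], [0, 0, 0, 1, 0, 0, 0, 0, 1, 0], [0, 0, 0, 0, 0, 0, 1, 0, 0, 0]], [[0, 0, 0, 0, 1, 0, 0, 0, 0, 0], [0, 1, 0, 0, 0, 0, 0, 0, 0, 0], [0, 0, 0, 0,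 0, 0, 0, 1, 0, 0], [0, 0, 0, 0, 0, 1, 0, 0, 0, 0], [0, 0, 0, 0, 0, 0, 1, 0, 0, 0], [0, 0, 1, 0, 0, 0, 0, 0, 0, 0], [0, 0, 0, 0, 1, 0, 0, 0, 0, 1], [0, 0, 0, 0, 0, 0, 0, 0, 1, 0], [1, 0, 0, 0, 0, 0, 0, 0, 0, 0], [0, 0, 0, 1, 0, 0, 0, 0, 0, 0]], [[0, 1, 0, 0, 0, 0, 1, 0, 0, 0], [0, 0, 0, 0, 0, 1, 0, 0, 0, 0], [0, 0, 0, 1, 0, 0, 0, 0, 1, 0], [0, 0, 1, 0, 0, 0, 0, 0, 0, 1], [0, 0, 1, 0, 0, 0, 0, 0, 1, 0], [0, 0, 0, 0, 0, 0, 0, 1, 1, 0], [1, 0, 0, 0, 0, 0, 0, 1, 0, 0], [0, 2, 0, 0, 1, 0, 0, 0, 0, 0], [0, 0, 0, 0, 0, 0, 0, 1, 0, 1], [0, 0, 0, 0, 1, 0, 0, 0, 0, 0]]),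
   (10, [[0, 1, 1, 0, 1, 0, 1, 0, 0, 0], [0, 0, 0, 0, 0, 1, 0, 0, 1, 0], [0, 0, 0, 0, 1, 0, 0, 0, 0, 1], [0, 0, 0, 1, 0, 0, 0, 0, 0, 1], [0, 1, 1, 0, 0, 0, 0, 0, 0, 0], [1, 0, 0, 0, 0, 0, 0, 0, 0, 0], [0, 0, 0, 1, 0, 0, 1, 0, 0, 0], [0, 0, 0, 0, 0, 2, 0, 0, 0, 0], [0, 0, 1, 0, 0, 0, 1, 0, 0, 0], [0, 0, 0, 0, 0, 0, 0, 1, 1, 0]], [[0, 1, 1, 0, 0, 0, 0, 0, 0, 0], [0, 0, 0, 0, 0, 1, 0, 0, 0, 0], [1, 0, 0, 0, 0, 0, 0, 0, 0, 0], [0, 0, 0, 1, 0, 0, 0, 0, 0, 1], [0, 0, 0, 0, 1, 0, 0, 0, 0, 1], [0, 0, 0, 0, 1, 0, 1, 0, 0, 0], [0, 0, 1, 0, 0, 0, 1, 0, 0, 0], [0, 0, 0, 0, 0, 0, 0, 1, 1, 0], [0, 0, 0, 1, 0, 0, 1, 0, 0, 0], [0, 0, 0, 0, 0, 0, 0, 0, 1, 0]], [[1, 0, 0, 0, 0, 1, 0, 0, 0, 0], [0, 1,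 0, 0, 0, 0, 0, 0, 0, 1], [0, 0, 0, 0, 1, 0, 0, 0, 0, 0], [0, 0, 0, 1, 0, 0, 0, 0, 0, 0], [1, 0, 0, 0, 0, 0, 0, 0, 0, 0], [0, 0, 1, 0, 0, 0, 0, 0, 0, 0], [0, 0, 0, 0, 0, 0, 0, 0, 1, 0], [0, 2, 0, 0, 0, 0, 0, 0, 0, 0], [0, 0, 0, 0, 0, 0, 1, 0, 0, 0], [0, 0, 0, 0, 0, 0, 0, 1, 0, 0]]),
   (10, [[0, 0, 1, 0, 0, 1, 0, 0, 0, 0], [0, 0, 0, 0, 1, 0, 0, 0, 1, 0], [0, 0, 0, 0, 0, 1, 0, 0, 1, 0], [0, 0, 0, 1, 0, 0, 1, 0, 0, 0], [0, 0, 0, 1, 1, 0, 0, 0, 0, 0], [0, 1, 0, 0, 0, 0, 0, 0, 0, 1], [0, 1, 0, 0, 0, 0, 0, 1, 0, 0], [0, 0, 0, 0, 0, 0, 0, 0, 0, 2], [0, 0, 1, 0, 0, 0, 1, 0, 0, 0], [1, 1, 0, 0, 0, 0, 0, 0, 0, 0]], [[1, 1, 0, 0, 0, 0, 0, 0, 0, 0], [0, 0, 0, 0, 0, 1, 0, 0, 0, 0], [0, 0, 0, 0,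 0, 0, 0, 0, 1, 0], [0, 0, 0, 1, 0, 0, 0, 0, 0, 0], [0, 0, 1, 0, 0, 0, 0, 0, 0, 0], [0, 0, 0, 0, 0, 0, 0, 0, 0, 1], [0, 0, 0, 0, 1, 0, 0, 0, 0, 0], [0, 0, 0, 0, 0, 0, 0, 1, 0, 0], [0, 1, 0, 0, 0, 0, 0, 0, 0, 0], [0, 0, 0, 0, 0, 0, 1, 0, 0, 0]], [[0, 1, 0, 0, 1, 0, 0, 0, 0, 0], [0, 0, 1, 0, 0, 0, 1, 0, 0, 0], [0, 1, 1, 0, 0, 0, 0, 0, 0, 0], [0, 0, 0, 1, 0, 0, 0, 0, 0, 1], [0, 0, 0, 1, 0, 0, 1, 0, 0, 0], [0, 0, 0, 0, 0, 1, 0, 0, 1, 0], [0, 0, 0, 0, 0, 0, 0, 1, 1, 0], [0, 0, 0, 0, 0, 2, 0, 0, 0, 0], [0, 0, 0, 0, 1, 0, 0, 0, 0, 1], [1, 0, 0, 0, 0, 0, 0, 0, 0, 0]]),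
   (10, [[0, 0, 1, 0, 0, 1, 0, 0, 0, 0], [0, 1, 0, 0, 0, 0, 0, 1, 0, 1], [0, 0, 0, 0, 1, 0, 0, 1, 0, 1], [0, 0, 0, 0, 0, 0, 1, 0, 0, 0], [0, 0, 1, 0, 0, 0, 0, 1, 1, 0], [0, 1, 0, 0, 0, 1, 0, 0, 0, 0], [0, 0, 0, 0, 1, 0, 0, 1, 1, 0], [1, 0, 0, 0, 0, 0, 0, 0, 0, 0], [0, 0, 0, 1, 0, 0, 0, 1, 0, 0], [0, 0, 0, 0, 0, 0, 0, 0, 2, 0]], [[0, 0, 0, 0, 0, 0, 1, 0, 0, 0], [1, 0, 0, 0, 0, 0, 0, 0, 0, 0], [0, 0, 0, 0, 1, 0, 0, 0, 0, 0], [0, 1, 0, 0, 0, 0, 0, 0, 0, 0], [0, 0, 0, 0, 0, 1, 0, 0, 0, 0], [0, 0, 0, 0, 0, 0, 0, 1, 1, 0], [0, 0, 0, 0, 0, 0, 0, 1, 0, 1], [0, 0, 0, 0, 0, 0, 0, 0, 2, 0], [0, 0, 1, 0, 0, 0, 0, 0, 0, 0], [0, 0, 0, 1, 0, 0, 0, 1, 0, 0]], [[0, 0, 0, 0, 1, 0, 0, 0, 1, 0], [0, 0,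 0, 1, 0, 0, 1, 0, 0, 0], [0, 0, 1, 0, 0, 0, 1, 0, 0, 0], [1, 0, 0, 0, 0, 0, 0, 0, 0, 0], [0, 0, 0, 0, 0, 1, 0, 0, 1, 0], [0, 0, 0, 1, 1, 0, 0, 0, 0, 0], [0, 0, 1, 0, 0, 1, 0, 0, 0, 0], [0, 1, 0, 0, 0, 0, 0, 0, 0, 0], [0, 0, 0, 0, 0, 0, 0, 0, 0, 1], [0, 0, 0, 0, 0, 0, 0, 1, 0, 0]]),
   (10, [[0, 0, 0, 1, 0, 0, 0, 0, 0, 1], [0, 0, 0, 0, 0, 0, 2, 0, 0, 0], [1, 0, 0, 0, 0, 0, 1, 0, 1, 1], [0, 0, 0, 1, 0, 0, 0, 1, 0, 0], [1, 0, 0, 0, 0, 1, 0, 0, 0, 0], [0, 0, 1, 0, 0, 0, 1, 0, 0, 0], [0, 0, 0, 0, 1, 0, 0, 0, 0, 0], [0, 1, 0, 0, 0, 0, 0, 1, 1, 0], [1, 0, 0, 0, 0, 0, 0, 0, 0, 0], [0, 1, 1, 0, 0, 0, 0, 0, 0, 0]], [[0, 0, 0, 1, 0, 0, 0, 0, 0, 1], [0, 1, 0, 0, 0, 0, 0, 1, 1, 0], [0, 1, 1, 0,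 0, 0, 0, 0, 0, 0], [0, 0, 0, 0, 0, 1, 0, 0, 0, 0], [0, 0, 0, 0, 0, 0, 1, 0, 1, 1], [0, 0, 0, 1, 0, 0, 0, 1, 0, 0], [0, 0, 1, 0, 0, 0, 1, 0, 0, 0], [1, 0, 0, 0, 0, 0, 0, 0, 0, 0], [0, 0, 0, 0, 1, 0, 0, 0, 0, 0], [0, 0, 0, 0, 0, 0, 2, 0, 0, 0]], [[1, 0, 0, 0, 0, 0, 0, 0, 0, 0], [0, 0, 0, 0, 0, 0, 0, 0, 0, 1], [0, 0, 0, 0, 1, 0, 0, 1, 0, 0], [0, 0, 0, 0, 0, 1, 0, 0, 0, 0], [0, 0, 0, 1, 0, 0, 0, 1, 0, 0], [0, 0, 0, 0, 0, 0, 1, 0, 0, 0], [0, 0, 0, 0, 0, 0, 0, 0, 1, 0], [0, 1, 0, 0, 0, 0, 0, 0, 0, 0], [0, 0, 0, 0, 0, 0, 0, 1, 0, 0], [0, 0, 1, 0, 0, 0, 0, 0, 0, 0]]),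
   (10, [[0, 0, 0, 1, 0, 0, 0, 0, 0, 0], [0, 0, 1, 1, 1, 1, 0, 1, 0, 0], [2, 0, 0, 0, 0, 0, 0, 0, 0, 0], [0, 0, 0, 0, 1, 0, 1, 0, 0, 0], [0, 0, 0, 0, 0, 0, 0, 1, 0, 0], [0, 1, 0, 0, 0, 0, 0, 0, 0, 0], [1, 0, 0, 0, 0, 1, 0, 0, 0, 0], [0, 0, 1, 0, 0, 1, 0, 0, 0, 1], [0, 0, 1, 0, 1, 0, 0, 0, 1, 0], [0, 0, 1, 0, 0, 0, 0, 0, 1, 1]], [[0, 0, 0, 0, 0, 0, 0, 1, 0, 0], [2, 0, 0, 0, 0, 0, 0, 0, 0, 0], [0, 1, 0, 0, 0, 0, 0, 0, 0, 0], [0, 0, 0, 0, 0, 0, 0, 0, 0, 1], [0, 0, 0, 0, 1, 0, 1, 0, 0, 0], [1, 0, 0, 0, 0, 1, 0, 0, 0, 0], [0, 0, 0, 1, 0, 0, 0, 0, 0, 0], [0, 0, 1, 0, 0, 0, 0, 0, 1, 0], [0, 0, 0, 0, 1, 0, 0, 0, 0, 0], [0, 0, 1, 0, 0, 1, 0, 0, 0, 0]], [[0, 0, 0, 0, 0, 0, 1, 0, 0, 0], [1, 0,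 0, 0, 0, 0, 1, 0, 1, 1], [0, 1, 0, 0, 0, 0, 0, 0, 0, 0], [0, 0, 0, 0, 1, 0, 0, 0, 0, 0], [1, 0, 0, 0, 0, 0, 0, 0, 0, 0], [0, 0, 1, 0, 0, 0, 0, 0, 0, 0], [0, 0, 0, 0, 0, 1, 0, 0, 0, 0], [0, 0, 0, 1, 0, 0, 0, 0, 0, 1], [0, 0, 0, 0, 0, 0, 0, 1, 1, 0], [0, 0, 0, 1, 0, 0, 0, 1, 0, 0]]),
   (9, [[0, 0, 0, 0, 0, 0, 1, 0, 0], [0, 0, 0, 1, 0, 0, 0, 0, 0], [2, 0, 1, 0, 0, 0, 0, 0, 1], [0, 1, 0, 0, 0, 1, 1, 1, 0], [1, 1, 0, 0, 0, 1, 0, 0, 0], [0, 1, 1, 0, 0, 0, 0, 0, 0], [0, 0, 0, 0, 1, 0, 0, 0, 0], [2, 0, 0, 0, 0, 1, 0, 0, 0], [0, 0, 0, 0, 0, 0, 0, 1, 1]], [[0, 0, 0, 0, 0, 0, 1, 0, 0], [0, 1, 0, 0, 0, 1, 1, 1, 0], [2, 0, 0, 0, 0, 0, 0, 0, 0], [0, 0, 0, 0, 1, 0, 0, 0, 0], [0, 0, 0, 0, 0, 1, 0,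 0, 0], [0, 0, 0, 1, 0, 0, 0, 0, 0], [1, 1, 0, 0, 0, 0, 0, 0, 0], [0, 1, 1, 0, 0, 0, 0, 0, 0], [0, 0, 0, 0, 0, 0, 0, 1, 1], [0, 0, 1, 0, 0, 0, 0, 0, 1]], [[1, 0, 0, 0, 0, 0, 0, 0, 0, 0], [0, 0, 0, 0, 0, 1, 0, 0, 0, 0], [0, 0, 1, 0, 0, 0, 0, 0, 0, 1], [0, 1, 0, 0, 0, 0, 0, 0, 0, 0], [0, 0, 0, 0, 1, 0, 1, 0, 0, 0], [0, 0, 0, 0, 0, 0, 0, 1, 0, 0], [0, 0, 0, 1, 0, 0, 0, 0, 0, 0], [0, 0, 1, 0, 1, 0, 0, 0, 0, 0], [0, 0, 0, 0, 0, 0, 0, 0, 1, 0]]),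
   (10, [[0, 0, 0, 0, 1, 0, 0, 0, 0, 0], [0, 0, 0, 0, 0, 0, 0, 0, 1, 0], [1, 1, 0, 0, 0, 0, 1, 0, 0, 0], [0, 0, 0, 0, 0, 0, 1, 0, 0, 0], [0, 0, 0, 0, 1, 1, 2, 0, 0, 0], [0, 0, 1, 1, 0, 1, 0, 0, 0, 0], [0, 0, 0, 0, 0, 0, 0, 0, 0, 1], [1, 1, 1, 1, 0, 0, 0, 0, 0, 0], [0, 1, 0, 0, 0, 0, 1, 1, 0, 0], [0, 1, 1, 0, 0, 0, 0, 0, 0, 0]], [[0, 0, 0, 0, 0, 0, 1, 0, 0, 0], [0, 0, 0, 0, 0, 0, 0, 0, 1, 0], [0, 0, 0, 0, 1, 0, 0, 0, 0, 0], [0, 1, 0, 0, 0, 0, 1, 1, 0, 0], [0, 1, 1, 0, 0, 0, 0, 0, 0, 0], [1, 1, 0, 0, 0, 0, 0, 0, 0, 0], [0, 0, 0, 0, 0, 0, 0, 0, 0, 1], [0, 0, 1, 1, 0, 0, 0, 0, 0, 0], [0, 0, 0, 0, 0, 1, 0, 0, 0, 0]], [[0, 0, 1, 0, 0, 0, 0, 0, 0], [0, 1, 0, 0, 0, 0, 0, 0, 0], [1, 0, 0, 0,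 0, 1, 0, 0, 0], [1, 0, 0, 0, 0, 0, 0, 0, 0], [2, 0, 1, 0, 0, 0, 0, 0, 1], [0, 0, 0, 0, 0, 0, 0, 1, 1], [0, 0, 0, 0, 0, 0, 1, 0, 0], [0, 0, 0, 0, 0, 1, 0, 1, 0], [0, 0, 0, 1, 0, 0, 0, 0, 0], [0, 0, 0, 0, 1, 0, 0, 0, 0]]),
   (10, [[0, 0, 0, 0, 0, 0, 0, 1, 0, 0], [1, 1, 0, 0, 0, 0, 0, 0, 1, 0], [2, 0, 1, 0, 0, 1, 0, 0, 0, 0], [0, 0, 0, 0, 1, 0, 1, 0, 0, 1], [0, 0, 0, 0, 0, 0, 1, 0, 1, 0], [0, 1, 0, 0, 0, 0, 0, 0, 0, 0], [1, 0, 0, 1, 0, 0, 0, 0, 0, 0], [0, 0, 0, 0, 1, 0, 0, 0, 0, 0], [0, 0, 1, 0, 0, 0, 1, 1, 0, 0], [1, 0, 1, 0, 0, 0, 0, 0, 0, 0]], [[0, 0, 1, 0, 0, 0, 0, 0, 0, 0], [0, 0, 0, 0, 0, 0, 1, 0, 0, 0], [0, 0, 0, 0, 0, 0, 0, 0, 1, 0], [1, 0, 0, 0, 0, 0, 0, 0, 0, 0], [2, 0, 1,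 0, 0, 1, 0, 0, 0, 0], [0, 1, 0, 0, 0, 0, 0, 0, 0, 0], [0, 0, 0, 0, 0, 0, 0, 1, 0, 0], [0, 0, 0, 0, 1, 0, 0, 0, 0, 1], [1, 0, 0, 1, 0, 0, 0, 0, 0, 0], [0, 0, 0, 0, 1, 0, 0, 0, 0, 0]], [[0, 0, 0, 0, 0, 0, 1, 0, 0, 0], [0, 0, 1, 1, 0, 1, 0, 0, 0, 0], [0, 0, 0, 0, 1, 0, 0, 0, 0, 0], [0, 1, 0, 0, 0, 0, 0, 1, 0, 0], [0, 1, 1, 0, 0, 0, 0, 0, 0, 0], [0, 0, 0, 0, 0, 1, 0, 0, 0, 0], [0, 0, 0, 0, 0, 0, 0, 0, 1, 0], [0, 0, 0, 0, 0, 0, 0, 0, 0, 1], [1, 1, 0, 0, 0, 0, 1, 0, 0, 0], [1, 0, 0, 1, 0, 0, 0, 0, 0, 0]]),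
   (10, [[0, 1, 0, 0, 0, 0, 0, 0, 0, 1], [1, 0, 1, 0, 0, 0, 0, 1, 0, 0], [0, 0, 0, 0, 0, 1, 0, 0, 0, 0], [0, 0, 0, 1, 0, 0, 1, 0, 0, 0], [0, 1, 1, 0, 0, 0, 0, 0, 1, 1], [0, 1, 0, 0, 1, 0, 0, 0, 0, 0], [0, 0, 0, 0, 1, 0, 0, 1, 0, 0], [0, 0, 1, 0, 0, 0, 0, 0, 0, 0], [0, 0, 0, 1, 0, 0, 0, 1, 0, 0], [0, 0, 0, 0, 0, 0, 0, 1, 1, 1]], [[0, 0, 0, 0, 0, 0, 0, 1, 0, 0], [0, 0, 0, 1, 0, 0, 1, 0, 0, 0], [0, 0, 0, 0, 0, 0, 0, 0, 1, 1], [1, 0, 1, 0, 0, 0, 0, 0, 0, 0], [0, 0, 0, 0, 0, 1, 0, 0, 0, 0], [0, 0, 0, 1, 0, 0, 0, 0, 0, 0], [0, 1, 0, 0, 0, 0, 0, 0, 0, 0], [0, 0, 1, 0, 0, 0, 0, 0, 0, 0], [0, 0, 0, 0, 1, 0, 0, 0, 0, 0], [0, 0, 0, 0, 0, 0, 0, 0, 0, 1]], [[0, 0, 0, 0, 0, 0, 1, 0, 0, 1], [1, 0,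 0, 1, 0, 0, 0, 0, 0, 0], [0, 0, 0, 0, 1, 0, 0, 0, 0, 0], [0, 1, 0, 0, 0, 0, 0, 0, 0, 0], [0, 0, 1, 0, 0, 0, 1, 1, 0, 0], [0, 0, 0, 0, 0, 0, 1, 0, 1, 0], [1, 0, 0, 0, 0, 0, 0, 0, 1, 0], [0, 0, 0, 0, 0, 0, 0, 1, 0, 0], [1, 0, 0, 0, 0, 1, 0, 0, 0, 0], [1, 0, 1, 0, 0, 0, 0, 0, 0, 0]]),
   (10, [[1, 1, 0, 0, 0, 0, 0, 0, 0, 0], [0, 0, 0, 0, 0, 1, 0, 0, 1, 1], [1, 0, 0, 0, 0, 0, 0, 0, 0, 1], [0, 0, 0, 0, 1, 1, 0, 0, 0, 1], [0, 0, 0, 0, 0, 0, 1, 0, 0, 0], [0, 0, 0, 1, 0, 0, 0, 1, 0, 0], [0, 0, 0, 1, 0, 1, 0, 0, 1, 0], [0, 0, 1, 0, 0, 0, 0, 1, 0, 1], [0, 0, 1, 0, 1, 0, 0, 0, 0, 0], [0, 0, 0, 0, 1, 0, 0, 0, 0, 0]], [[0, 0, 0, 0, 0, 1, 0, 0, 0, 0], [0, 0, 0, 1, 0, 0, 0, 0, 0, 0], [0, 0, 0, 0,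 1, 0, 0, 0, 0, 0], [1, 0, 0, 0, 0, 0, 0, 0, 0, 0], [0, 0, 0, 0, 0, 1, 0, 0, 1, 0], [0, 0, 0, 0, 0, 0, 1, 0, 0, 0], [0, 1, 0, 0, 0, 0, 0, 0, 0, 0], [0, 0, 0, 0, 0, 0, 0, 0, 0, 1], [0, 0, 1, 0, 0, 0, 0, 0, 0, 0], [0, 0, 0, 0, 0, 0, 0, 1, 0, 0]], [[0, 0, 0, 1, 0, 0, 1, 0, 0, 0], [0, 0, 0, 0, 1, 0, 0, 1, 0, 0], [0, 0, 0, 1, 0, 0, 0, 1, 0, 0], [1, 0, 1, 0, 0, 0, 0, 1, 0, 0], [0, 0, 0, 0, 0, 1, 0, 0, 0, 0], [0, 1, 0, 0, 0, 0, 0, 0, 0, 1], [0, 1, 0, 0, 1, 0, 0, 0, 0, 0], [0, 0, 0, 0, 0, 0, 0, 1, 1, 1], [0, 0, 1, 0, 0, 0, 0, 0, 1, 0], [0, 0, 1, 0, 0, 0, 0, 0, 0, 0]]),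
   (10, [[0, 0, 1, 0, 0, 0, 0, 0, 0, 1], [0, 0, 0, 1, 0, 0, 0, 0, 1, 0], [0, 0, 0, 1, 0, 1, 0, 0, 0, 0], [1, 0, 0, 0, 0, 0, 0, 0, 0, 0], [0, 0, 0, 1, 0, 0, 0, 1, 0, 0], [0, 0, 0, 0, 1, 0, 0, 0, 0, 0], [0, 0, 0, 1, 1, 0, 1, 0, 0, 0], [0, 1, 1, 0, 0, 0, 0, 1, 0, 0], [0, 1, 0, 1, 0, 0, 1, 0, 0, 0], [0, 1, 0, 1, 0, 0, 0, 0, 1, 0]], [[0, 0, 0, 0, 0, 0, 0, 1, 0, 0], [0, 1, 1, 0, 0, 0, 0, 0, 0, 0], [0, 0, 0, 0, 1, 0, 0, 0, 0, 0], [0, 1, 0, 1, 0, 0, 0, 0, 0, 0], [1, 0, 0, 0, 0, 0, 0, 0, 0, 0], [0, 0, 0, 0, 0, 0, 0, 0, 1, 0], [0, 0, 1, 0, 0, 0, 0, 0, 0, 1], [0, 0, 0, 0, 0, 0, 1, 0, 0, 0], [0, 0, 0, 1, 0, 1, 0, 0, 0, 0], [0, 0, 0, 1, 0, 0, 0, 0, 0, 0]], [[0, 0, 0, 0, 0, 0, 1, 0, 0, 0], [0, 0,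 0, 0, 0, 1, 0, 0, 0, 1], [0, 0, 0, 0, 0, 0, 0, 0, 1, 0], [0, 0, 0, 0, 1, 0, 0, 0, 0, 0], [1, 0, 0, 0, 0, 0, 0, 0, 0, 1], [0, 0, 1, 0, 0, 0, 0, 0, 0, 0], [0, 0, 1, 0, 0, 0, 0, 1, 0, 1], [1, 1, 0, 0, 0, 0, 0, 0, 0, 0], [0, 0, 0, 1, 0, 0, 0, 1, 0, 0], [0, 0, 0, 1, 0, 1, 0, 0, 0, 0]]),
   (9, [[0, 1, 1, 0, 0, 1, 0, 0, 0], [0, 0, 0, 0, 0, 1, 0, 0, 0], [0, 0, 0, 0, 1, 0, 0, 1, 0], [0, 0, 0, 0, 1, 0, 0, 0, 1], [1, 0, 0, 0, 0, 0, 0, 0, 0], [0, 1, 0, 0, 1, 0, 1, 0, 0], [0, 0, 0, 0, 1, 0, 1, 1, 0], [0, 0, 0, 1, 0, 0, 0, 0, 0], [0, 0, 1, 0, 0, 1, 0, 0, 1]], [[1, 0, 0, 0, 0, 0, 0, 0, 0], [0, 0, 0, 0, 0, 1, 0, 0, 0], [0, 0, 1, 0, 0, 0, 0, 0, 0], [0, 0, 0, 0, 1, 0, 0, 0, 0], [0, 0, 0, 1, 0, 0, 0,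 0, 0], [0, 0, 0, 0, 0, 0, 0, 1, 0], [0, 0, 0, 0, 0, 0, 1, 1, 0], [0, 0, 0, 0, 0, 0, 0, 0, 1], [0, 1, 0, 0, 0, 0, 1, 0, 0], [0, 1, 0, 0, 0, 1, 0, 0, 0]], [[0, 0, 1, 0, 0, 0, 0, 0, 0, 1], [0, 1, 0, 0, 0, 0, 0, 0, 0, 0], [0, 0, 0, 1, 0, 1, 0, 0, 0, 0], [0, 0, 0, 1, 0, 0, 0, 1, 0, 0], [1, 0, 0, 0, 0, 0, 0, 0, 0, 0], [0, 0, 0, 1, 0, 0, 0, 0, 1, 0], [0, 0, 0, 1, 0, 0, 1, 0, 0, 0], [0, 0, 0, 0, 1, 0, 0, 0, 0, 0], [0, 1, 1, 0, 0, 0, 0, 1, 0, 0]]),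
   (9, [[1, 0, 0, 0, 0, 0, 0, 1, 0], [0, 0, 1, 0, 0, 0, 0, 0, 0], [1, 1, 0, 0, 0, 0, 1, 0, 0], [0, 0, 0, 0, 1, 0, 1, 0, 0], [0, 0, 1, 0, 1, 1, 0, 0, 0], [0, 0, 0, 0, 0, 0, 0, 1, 0], [0, 0, 0, 0, 0, 0, 0, 0, 1], [0, 0, 0, 1, 0, 0, 0, 0, 1], [0, 1, 1, 0, 0, 1, 0, 0, 0]], [[0, 1, 1, 0, 0, 1, 0, 0, 0], [0, 0, 1, 0, 0, 0, 0, 0, 0], [0, 0, 0, 0, 0, 0, 0, 1, 0], [0, 0, 0, 0, 1, 0, 1, 0, 0], [0, 0, 0, 0, 0, 0, 0, 0, 1], [1, 1, 0, 0, 0, 0, 1, 0, 0], [1, 0, 0, 0, 0, 0, 0, 1, 0], [0, 0, 0, 1, 0, 0, 0, 0, 0], [0, 0, 1, 0, 1, 1, 0, 0, 0]], [[0, 0, 0, 0, 0, 0, 1, 0, 0], [0, 1, 0, 0, 0, 0, 0, 0, 0], [0, 0, 0, 0, 0, 1, 0, 0, 0], [0, 0, 0, 1, 0, 0, 0, 0, 0], [0, 0, 0, 0, 0, 0, 0, 0, 1], [0, 0, 1, 0,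 0, 0, 0, 0, 0], [0, 0, 0, 0, 1, 0, 0, 0, 0], [0, 0, 0, 0, 1, 0, 0, 1, 0], [1, 0, 0, 0, 0, 0, 0, 0, 0]]),
   (9, [[1, 1, 0, 0, 0, 0, 0, 0, 0], [0, 0, 0, 0, 0, 1, 0, 0, 1], [0, 0, 0, 0, 1, 0, 0, 0, 0], [0, 1, 0, 0, 0, 0, 0, 0, 0], [1, 0, 1, 0, 0, 0, 1, 0, 0], [0, 0, 1, 0, 0, 0, 1, 1, 0], [0, 0, 0, 0, 0, 0, 0, 0, 1], [0, 0, 1, 1, 0, 0, 0, 1, 0], [0, 0, 1, 1, 1, 0, 0, 0, 0]], [[1, 0, 0, 0, 0, 0, 0, 0, 0], [0, 0, 1, 0, 0, 0, 0, 0, 0], [0, 0, 0, 0, 1, 0, 0, 0, 0], [0, 0, 0, 0, 0, 1, 0, 0, 0], [0, 0, 1, 0, 0, 0, 0, 1, 0], [0, 0, 0, 1, 0, 0, 0, 0, 0], [0, 0, 0, 0, 0, 0, 1, 0, 0], [0, 1, 0, 0, 0, 0, 0, 0, 0], [0, 0, 0, 0, 0, 0, 0, 0, 1]], [[1, 0, 0, 0, 0, 0, 0, 1, 0], [0, 0, 0, 1, 0, 0, 0,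 0, 1], [0, 0, 1, 0, 0, 0, 0, 0, 0], [0, 0, 0, 0, 0, 0, 0, 1, 0], [1, 1, 0, 0, 0, 0, 1, 0, 0], [0, 0, 0, 0, 1, 0, 1, 0, 0], [0, 0, 0, 0, 0, 0, 0, 0, 1], [0, 0, 0, 0, 1, 1, 0, 0, 0], [0, 1, 1, 0, 0, 1, 0, 0, 0]]),
   (8, [[0, 0, 1, 1, 0, 0, 1, 1], [1, 0, 0, 0, 0, 0, 0, 0], [0, 1, 0, 1, 0, 0, 0, 0], [0, 0, 0, 0, 0, 1, 0, 1], [0, 0, 1, 1, 0, 0, 0, 0], [0, 1, 0, 0, 0, 1, 0, 0], [0, 0, 1, 0, 0, 0, 1, 0], [0, 0, 0, 1, 1, 0, 0, 0]], [[0, 1, 0, 0, 0, 1, 0, 0], [1, 0, 0, 0, 0, 0, 0, 0], [0, 0, 0, 1, 0, 0, 0, 0], [0, 1, 0, 0, 0, 0, 0, 0], [0, 0, 0, 0, 0, 1, 0, 1], [0, 0, 0, 0, 0, 0, 1, 1], [0, 0, 0, 0, 1, 0, 0, 0], [0, 0, 1, 0, 0, 0, 1, 0], [0, 0, 1, 1, 0, 0, 0, 0]], [[0, 0, 0, 0, 0, 1, 0, 0,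 1], [0, 1, 0, 0, 0, 0, 0, 0, 0], [0, 0, 1, 1, 0, 0, 0, 0, 0], [0, 0, 0, 0, 1, 0, 0, 0, 0], [0, 0, 0, 0, 0, 0, 0, 0, 1], [1, 0, 0, 0, 0, 0, 0, 0, 0], [0, 0, 0, 0, 0, 0, 0, 1, 0], [0, 0, 1, 0, 0, 0, 1, 0, 0]]),
   (8, [[1, 0, 0, 1, 0, 0, 1, 0], [0, 0, 0, 1, 0, 1, 0, 0], [1, 1, 0, 1, 0, 0, 0, 0], [0, 1, 0, 0, 1, 0, 0, 0], [0, 0, 0, 0, 1, 0, 1, 0], [0, 0, 0, 1, 0, 0, 0, 1], [0, 0, 1, 0, 0, 0, 0, 0], [0, 0, 0, 1, 0, 0, 1, 0]], [[1, 1, 0, 1, 0, 0, 0, 0], [0, 0, 1, 0, 0, 0, 0, 0], [0, 0, 0, 1, 0, 0, 1, 0], [0, 1, 0, 0, 1, 0, 0, 0], [0, 0, 0, 1, 0, 0, 0, 1], [0, 0, 0, 0, 1, 0, 1, 0], [1, 0, 0, 0, 0, 0, 0, 0], [0, 0, 0, 1, 0, 1, 0, 0]], [[0, 0, 1, 0, 0, 0, 1, 0], [0, 0, 0, 0, 0, 0, 0, 1], [1,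 0, 0, 0, 0, 0, 0, 0], [0, 0, 0, 1, 0, 0, 0, 0], [0, 0, 0, 0, 0, 1, 0, 0], [0, 0, 0, 0, 1, 0, 0, 0], [0, 1, 0, 0, 0, 0, 0, 0], [0, 0, 1, 0, 0, 0, 0, 0]]),
   (8, [[0, 0, 1, 0, 0, 0, 0, 1], [0, 0, 0, 1, 0, 0, 0, 1], [0, 0, 1, 0, 0, 1, 0, 0], [0, 0, 1, 1, 0, 1, 0, 1], [1, 0, 0, 0, 0, 1, 0, 0], [0, 1, 0, 0, 0, 0, 0, 0], [1, 0, 0, 0, 1, 0, 0, 0], [1, 0, 0, 0, 0, 0, 1, 0]], [[0, 0, 0, 1, 0, 1, 0, 0], [1, 0, 0, 0, 0, 0, 1, 0], [0, 0, 0, 1, 0, 0, 0, 1], [0, 0, 1, 0, 0, 0, 0, 1], [0, 0, 1, 0, 0, 1, 0, 0], [1, 0, 0, 0, 1, 0, 0, 0], [0, 1, 0, 0, 0, 0, 0, 0], [1, 0, 0, 0, 0, 1, 0, 0]], [[0, 0, 0, 1, 0, 0, 0, 0], [0, 0, 1, 0, 0, 0, 0, 0], [0, 0, 0, 0, 1, 0, 0, 0], [1, 0, 0, 1, 0, 0, 0, 0], [0,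 0, 0, 0, 0, 0, 0, 1], [0, 0, 0, 0, 0, 0, 1, 0], [0, 0, 0, 0, 0, 1, 0, 0], [0, 1, 0, 0, 0, 0, 0, 0]]),
   (7, [[0, 0, 1, 0, 0, 1, 0], [0, 1, 0, 0, 0, 1, 0], [0, 1, 0, 1, 0, 0, 0], [0, 0, 1, 0, 1, 0, 0], [1, 0, 1, 0, 0, 0, 0], [0, 0, 0, 0, 0, 0, 1], [0, 1, 0, 1, 0, 0, 1]], [[0, 0, 1, 0, 0, 0, 0], [0, 0, 0, 0, 0, 0, 1], [0, 1, 0, 0, 0, 0, 0], [0, 1, 0, 0, 0, 0, 1], [1, 0, 0, 0, 0, 0, 0], [0, 0, 0, 0, 0, 1, 0], [0, 0, 0, 0, 1, 0, 0], [0, 0, 0, 1, 0, 0, 0]], [[1, 0, 0, 0, 0, 1, 0, 0], [0, 0, 1, 0, 0, 1, 0, 0], [0, 0, 1, 0, 0, 0, 0, 1], [1, 0, 0, 0, 0, 0, 1, 0], [1, 0, 0, 0, 1, 0, 0, 0], [0, 1, 0, 0, 0, 0, 0, 0], [0, 0, 0, 1, 0, 0, 0, 1]]),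
   (6, [[1, 0, 1, 0, 0, 0], [1, 0, 1, 0, 0, 0], [0, 0, 0, 0, 1, 1], [0, 1, 1, 0, 0, 0], [0, 0, 1, 1, 0, 0], [1, 0, 0, 0, 0, 1]], [[0, 1, 0, 0, 0, 0], [0, 0, 0, 0, 0, 1], [0, 0, 1, 0, 0, 0], [0, 0, 0, 0, 1, 0], [0, 0, 0, 1, 0, 0], [1, 0, 0, 0, 0, 0], [1, 0, 1, 0, 0, 0]], [[0, 0, 0, 0, 0, 0, 1], [0, 0, 1, 0, 0, 1, 0], [0, 1, 0, 1, 0, 0, 0], [1, 0, 1, 0, 0, 0, 0], [0, 0, 1, 0, 1, 0, 0], [0, 1, 0, 0, 0, 1, 0]]),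
   (5, [[1, 1, 0, 0, 0], [0, 0, 1, 0, 1], [1, 0, 1, 0, 0], [1, 1, 0, 0, 0], [0, 1, 0, 1, 0]], [[1, 0, 0, 0, 0], [1, 0, 0, 0, 0], [0, 1, 0, 0, 0], [0, 0, 0, 1, 0], [0, 0, 0, 0, 1], [0, 0, 1, 0, 0]], [[1, 0, 1, 0, 0, 0], [0, 0, 0, 0, 1, 1], [1, 0, 0, 0, 0, 1], [0, 1, 1, 0, 0, 0], [0, 0, 1, 1, 0, 0]]),
   (4, [[0, 1, 1, 0], [0, 1, 0, 1], [1, 0, 0, 1], [1, 0, 0, 1]], [[0, 0, 0, 1], [1, 0, 0, 0], [0, 1, 0, 0], [0, 0, 0, 1], [0, 0, 1, 0]], [[0, 0, 1, 0, 1], [1, 0, 1, 0, 0], [0, 1, 0, 1, 0], [1, 1, 0, 0, 0]]),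
   (3, [[1, 0, 1], [1, 0, 1], [0, 1, 1]], [[0, 1, 0], [1, 0, 0], [0, 0, 1], [0, 0, 1]], [[0, 1, 0, 1], [0, 1, 1, 0], [1, 0, 0, 1]]),
   (2, [[1, 1], [1, 1]], [[1, 0], [1, 0], [0, 1]], [[1, 0, 1], [0, 1, 1]]),
   (1, [[2]], [[1], [1]], [[1, 1]])]

theorem ok16 : chainOK 8 rep16 ch16 = true := by decide +kernel

/-- Representative 17. -/
def rep17 : List (List ℕ) := [[0, 1, 0, 0, 0, 1, 0, 0], [1, 0, 0, 0, 1, 0, 0, 0], [1, 0, 0, 0, 1, 0, 0, 0], [0, 0, 1, 0, 0, 0, 0, 1], [0, 0, 0, 1, 0, 0, 1, 0], [0, 0, 0, 0, 0, 1, 1, 0], [0, 0, 1, 1, 0, 0, 0, 0], [0, 1, 0, 0, 0, 0, 0, 1]]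

/-- Chain from representative 17 to `[2]`. -/
def ch17 : List (ℕ × List (List ℕ) × List (List ℕ) × List (List ℕ)) :=
  [(7, [[1, 0, 1, 0, 0, 0, 0], [0, 0, 1, 0, 0, 0, 1], [0, 0, 0, 1, 0, 0, 1], [0, 1, 0, 0, 0, 1, 0], [0, 0, 0, 1, 1, 0, 0], [1, 0, 0, 1, 0, 0, 0], [0, 0, 0, 1, 1, 0, 0]], [[0, 0, 0, 0, 0, 1, 0], [0, 0, 0, 1, 0, 0, 0], [0, 0, 0, 1, 0, 0, 0], [0, 0, 0, 0, 0, 0, 1], [0, 1, 0, 0, 0, 0, 0], [1, 0, 0, 0, 0, 0, 0], [0, 0, 1, 0, 0, 0, 0], [0, 0, 0, 0, 1, 0, 0]], [[0, 0, 0, 0, 0, 1, 1, 0], [0, 0, 0, 1, 0, 0, 1, 0], [0, 0, 1, 1, 0, 0, 0, 0], [1, 0, 0, 0, 1, 0, 0, 0], [0, 1, 0, 0, 0, 0, 0, 1], [0, 1, 0, 0, 0, 1, 0, 0], [0, 0, 1, 0, 0, 0, 0, 1]]),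
   (6, [[1, 1, 0, 0, 0, 0], [0, 0, 1, 1, 1, 1], [0, 0, 0, 1, 0, 1], [1, 0, 0, 0, 0, 0], [0, 0, 1, 0, 1, 0], [0, 1, 0, 0, 0, 0]], [[0, 0, 1, 0, 1, 0], [0, 0, 1, 1, 0, 0], [0, 0, 0, 1, 0, 1], [0, 1, 0, 0, 0, 0], [1, 0, 0, 0, 0, 0], [0, 0, 0, 0, 1, 1], [1, 0, 0, 0, 0, 0]], [[0, 0, 0, 1, 1, 0, 0], [0, 1, 0, 0, 0, 1, 0], [0, 0, 1, 0, 0, 0, 0], [0, 0, 0, 0, 0, 0, 1], [1, 0, 0, 0, 0, 0, 0], [0, 0, 0, 1, 0, 0, 0]]),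
   (4, [[0, 0, 1, 1], [1, 1, 0, 0], [1, 1, 0, 0], [0, 0, 1, 1]], [[0, 0, 1, 1], [1, 1, 0, 0], [1, 0, 0, 0], [0, 0, 0, 1], [0, 1, 0, 0], [0, 0, 1, 0]], [[0, 0, 0, 1, 0, 1], [0, 0, 1, 0, 1, 0], [0, 1, 0, 0, 0, 0], [1, 0, 0, 0, 0, 0]]),
   (2, [[1, 1], [1, 1]], [[1, 0], [0, 1], [0, 1], [1, 0]], [[0, 0, 1, 1], [1, 1, 0, 0]]),
   (1, [[2]], [[1], [1]], [[1, 1]])]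

theorem ok17 : chainOK 8 rep17 ch17 = true := by decide +kernel

/-- Representative 18. -/
def rep18 : List (List ℕ) := [[0, 1, 0, 0, 1, 0, 0, 0], [1, 0, 0, 0, 0, 0, 0, 1], [0, 0, 1, 0, 0, 1, 0, 0], [0, 0, 0, 1, 1, 0, 0, 0], [0, 0, 1, 0, 0, 0, 1, 0], [1, 0, 0, 0, 0, 0, 0, 1], [0, 1, 0, 0, 0, 1, 0, 0], [0, 0, 0, 1, 0, 0, 1, 0]]

/-- Chain from representative 18 to `[2]`. -/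
def ch18 : List (ℕ × List (List ℕ) × List (List ℕ) × List (List ℕ)) :=
  [(7, [[0, 1, 0, 0, 1, 0, 0], [0, 0, 0, 2, 0, 0, 0], [1, 0, 1, 0, 0, 0, 0], [0, 0, 0, 0, 0, 1, 1], [0, 0, 0, 1, 1, 0, 0], [1, 0, 0, 1, 0, 0, 0], [0, 1, 1, 0, 0, 0, 0]], [[0, 0, 0, 0, 0, 1, 0], [0, 0, 0, 1, 0, 0, 0], [0, 0, 0, 0, 1, 0, 0], [0, 0, 1, 0, 0, 0, 0], [1, 0, 0, 0, 0, 0, 0], [0, 0, 0, 1, 0, 0, 0], [0, 1, 0, 0, 0, 0, 0], [0, 0, 0, 0, 0, 0, 1]], [[0, 0, 1, 0, 0, 0, 1, 0], [0, 1, 0, 0, 0, 1, 0, 0], [0, 0, 0, 1, 1, 0, 0, 0], [1, 0, 0, 0, 0, 0, 0, 1], [0, 0, 1, 0, 0, 1, 0, 0], [0, 1, 0, 0, 1, 0, 0, 0], [0, 0, 0, 1, 0, 0, 1, 0]]),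
   (6, [[0, 0, 0, 0, 0, 2], [1, 0, 0, 0, 1, 0], [1, 1, 0, 1, 0, 1], [0, 1, 0, 1, 0, 0], [0, 0, 0, 0, 1, 1], [0, 0, 1, 0, 0, 0]], [[1, 0, 0, 0, 1, 0], [0, 0, 0, 0, 0, 2], [0, 1, 0, 1, 0, 0], [0, 0, 1, 0, 0, 0], [0, 0, 0, 0, 1, 1], [0, 1, 0, 0, 0, 1], [1, 0, 0, 1, 0, 0]], [[0, 1, 0, 0, 0, 0, 0], [1, 0, 0, 0, 0, 0, 0], [0, 0, 0, 0, 0, 1, 1], [0, 0, 1, 0, 0, 0, 0], [0, 0, 0, 0, 1, 0, 0], [0, 0, 0, 1, 0, 0, 0]]),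
   (5, [[0, 0, 1, 0, 0], [0, 1, 0, 1, 1], [1, 1, 0, 0, 1], [1, 0, 0, 1, 0], [2, 0, 0, 0, 0]], [[2, 0, 0, 0, 0], [0, 0, 0, 1, 1], [1, 1, 0, 0, 1], [0, 1, 0, 0, 0], [1, 0, 0, 1, 0], [0, 0, 1, 0, 0]], [[0, 0, 0, 0, 0, 1], [0, 1, 0, 1, 0, 0], [0, 0, 1, 0, 0, 0], [0, 0, 0, 0, 1, 0], [1, 0, 0, 0, 0, 0]]),
   (4, [[0, 0, 0, 1], [2, 1, 1, 0], [1, 0, 1, 0], [1, 1, 0, 0]], [[0, 0, 0, 1], [0, 1, 1, 0], [1, 1, 0, 0], [1, 0, 1, 0], [2, 0, 0, 0]], [[1, 0, 0, 0, 0], [0, 1, 0, 0, 1], [0, 0, 0, 1, 0], [0, 0, 1, 0, 0]]),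
   (3, [[1, 1, 1], [1, 0, 0], [0, 1, 1]], [[0, 1, 0], [1, 0, 1], [0, 0, 1], [1, 0, 0]], [[1, 1, 0, 0], [0, 0, 0, 1], [1, 0, 1, 0]]),
   (2, [[1, 1], [1, 1]], [[1, 1], [0, 1], [1, 0]], [[0, 1, 1], [1, 0, 0]]),
   (1, [[2]], [[1], [1]], [[1, 1]])]

theorem ok18 : chainOK 8 rep18 ch18 = true := by decide +kernel

/-- Representative 19. -/
def rep19 : List (List ℕ) := [[0, 1, 0, 0, 0, 1, 0, 0], [1, 0, 0, 0, 0, 0, 1, 0], [0, 0, 1, 0, 1, 0, 0, 0], [0, 0, 0, 1, 0, 0, 0, 1], [1, 0, 0, 1, 0, 0, 0, 0], [0, 0, 1, 0, 0, 0, 1, 0], [0, 0, 0, 0, 1, 0, 0, 1], [0, 1, 0, 0, 0, 1, 0, 0]]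

/-- Chain from representative 19 to `[2]`. -/
def ch19 : List (ℕ × List (List ℕ) × List (List ℕ) × List (List ℕ)) :=
  [(7, [[0, 0, 1, 0, 0, 1, 0], [1, 0, 0, 0, 0, 0, 1], [0, 0, 1, 0, 0, 0, 1], [0, 2, 0, 0, 1, 1, 0], [1, 0, 0, 0, 1, 0, 0], [0, 0, 0, 1, 0, 0, 0], [0, 0, 0, 1, 0, 0, 0]], [[0, 0, 0, 1, 0, 0, 0], [0, 1, 0, 0, 0, 1, 0], [1, 0, 0, 0, 1, 0, 0], [0, 0, 1, 0, 0, 0, 1], [0, 0, 1, 0, 0, 1, 0], [0, 1, 0, 0, 1, 0, 0], [1, 0, 0, 0, 0, 0, 1], [0, 0, 0, 1, 0, 0, 0]], [[0, 0, 0, 0, 1, 0, 0, 0], [0, 0, 0, 0, 0, 0, 1, 0], [0, 0, 0, 1, 0, 0, 0, 0], [0, 1, 0, 0, 0, 1, 0, 0], [0, 0, 1, 0, 0, 0, 0, 0], [1, 0, 0, 0, 0, 0, 0, 0], [0, 0, 0, 0, 0, 0, 0, 1]]),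
   (6, [[0, 1, 1, 0, 0, 0], [0, 0, 1, 1, 0, 0], [0, 0, 0, 0, 0, 1], [0, 0, 1, 1, 0, 0], [0, 1, 0, 0, 1, 0], [2, 0, 1, 0, 1, 0]], [[0, 1, 0, 0, 0, 0], [1, 0, 0, 0, 0, 0], [0, 0, 0, 1, 0, 0], [0, 0, 0, 0, 0, 1], [0, 0, 0, 0, 1, 0], [0, 0, 1, 0, 0, 0], [0, 0, 1, 0, 0, 0]], [[1, 0, 0, 0, 0, 0, 1], [0, 0, 1, 0, 0, 1, 0], [0, 0, 0, 1, 0, 0, 0], [0, 0, 1, 0, 0, 0, 1], [1, 0, 0, 0, 1, 0, 0], [0, 2, 0, 0, 1, 1, 0]]),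
   (5, [[0, 0, 1, 1, 2], [0, 1, 1, 0, 0], [1, 0, 0, 0, 0], [0, 1, 0, 1, 0], [0, 1, 1, 0, 0]], [[0, 0, 0, 0, 1], [0, 1, 0, 0, 0], [0, 0, 1, 0, 0], [0, 1, 0, 0, 0], [0, 0, 0, 1, 0], [1, 0, 0, 0, 0]], [[2, 0, 1, 0, 1, 0], [0, 0, 1, 1, 0, 0], [0, 0, 0, 0, 0, 1], [0, 1, 0, 0, 1, 0], [0, 1, 1, 0, 0, 0]]),
   (4, [[0, 2, 1, 1], [0, 1, 0, 1], [0, 1, 1, 0], [1, 0, 0, 0]], [[1, 0, 0, 0], [0, 1, 0, 0], [0, 0, 0, 1], [0, 0, 1, 0], [0, 1, 0, 0]], [[0, 0, 1, 1, 2], [0, 1, 1, 0, 0], [0, 1, 0, 1, 0], [1, 0, 0, 0, 0]]),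
   (3, [[1, 1, 0], [1, 0, 1], [1, 0, 1]], [[1, 0, 1], [1, 0, 0], [0, 0, 1], [0, 1, 0]], [[0, 1, 0, 1], [1, 0, 0, 0], [0, 1, 1, 0]]),
   (2, [[1, 1], [1, 1]], [[0, 1], [1, 0], [1, 0]], [[1, 0, 1], [1, 1, 0]]),
   (1, [[2]], [[1], [1]], [[1, 1]])]

theorem ok19 : chainOK 8 rep19 ch19 = true := by decide +kernel

/-- Representative 20. -/
def rep20 : List (List ℕ) := [[0, 1, 1, 0, 0, 0, 0, 0], [0, 0, 0, 0, 1, 0, 0, 1], [0, 0, 0, 0, 0, 1, 1, 0], [1, 0, 0, 1, 0, 0, 0, 0], [0, 0, 1, 0, 1, 0, 0, 0], [1, 0, 0, 0, 0, 0, 0, 1], [0, 1, 0, 1, 0, 0, 0, 0], [0, 0, 0, 0, 0, 1, 1, 0]]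

/-- Chain from representative 20 to `[2]`. -/
def ch20 : List (ℕ × List (List ℕ) × List (List ℕ) × List (List ℕ)) :=
  [(7, [[1, 1, 0, 0, 0, 0, 0], [0, 0, 0, 1, 0, 1, 0], [0, 1, 0, 1, 0, 0, 0], [0, 0, 1, 0, 0, 0, 1], [0, 0, 0, 1, 1, 0, 0], [0, 0, 0, 1, 1, 0, 0], [1, 0, 0, 0, 0, 1, 0]], [[0, 1, 0, 0, 0, 0, 0], [0, 0, 0, 0, 0, 1, 0], [0, 0, 0, 1, 0, 0, 0], [1, 0, 0, 0, 0, 0, 0], [0, 0, 0, 0, 1, 0, 0], [0, 0, 1, 0, 0, 0, 0], [0, 0, 0, 0, 0, 0, 1], [0, 0, 0, 1, 0, 0, 0]], [[1, 0, 0, 1, 0, 0, 0, 0], [0, 1, 1, 0, 0, 0, 0, 0], [1, 0, 0, 0, 0, 0, 0, 1], [0, 0, 0, 0, 0, 1, 1, 0], [0, 0, 1, 0, 1, 0, 0, 0], [0, 0, 0, 0, 1, 0, 0, 1], [0, 1, 0, 1, 0, 0, 0, 0]]),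
   (6, [[1, 1, 0, 0, 0, 0], [0, 0, 1, 1, 1, 1], [0, 0, 0, 1, 0, 1], [1, 0, 0, 0, 0, 0], [0, 0, 1, 0, 1, 0], [0, 1, 0, 0, 0, 0]], [[0, 0, 1, 0, 1, 0], [0, 0, 0, 1, 0, 1], [0, 0, 1, 0, 0, 1], [0, 1, 0, 0, 0, 0], [1, 0, 0, 0, 0, 0], [1, 0, 0, 0, 0, 0], [0, 0, 0, 1, 1, 0]], [[0, 0, 0, 1, 1, 0, 0], [0, 0, 1, 0, 0, 0, 1], [0, 1, 0, 0, 0, 0, 0], [0, 0, 0, 0, 0, 1, 0], [1, 0, 0, 0, 0, 0, 0], [0, 0, 0, 1, 0, 0, 0]]),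
   (4, [[0, 0, 1, 1], [1, 1, 0, 0], [1, 1, 0, 0], [0, 0, 1, 1]], [[0, 0, 1, 1], [1, 1, 0, 0], [1, 0, 0, 0], [0, 0, 0, 1], [0, 1, 0, 0], [0, 0, 1, 0]], [[0, 0, 0, 1, 0, 1], [0, 0, 1, 0, 1, 0], [0, 1, 0, 0, 0, 0], [1, 0, 0, 0, 0, 0]]),
   (2, [[1, 1], [1, 1]], [[1, 0], [0, 1], [0, 1], [1, 0]], [[0, 0, 1, 1], [1, 1, 0, 0]]),
   (1, [[2]], [[1], [1]], [[1, 1]])]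

theorem ok20 : chainOK 8 rep20 ch20 = true := by decide +kernel

/-- Representative 21. -/
def rep21 : List (List ℕ) := [[1, 0, 0, 0, 0, 1, 0, 0], [0, 0, 1, 0, 0, 0, 0, 1], [0, 0, 0, 1, 1, 0, 0, 0], [0, 1, 0, 0, 0, 0, 1, 0], [0, 0, 0, 1, 1, 0, 0, 0], [0, 0, 1, 0, 0, 0, 0, 1], [1, 0, 0, 0, 0, 1, 0, 0], [0, 1, 0, 0, 0, 0, 1, 0]]

/-- Chain from representative 21 to `[2]`. -/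
def ch21 : List (ℕ × List (List ℕ) × List (List ℕ) × List (List ℕ)) :=
  [(4, [[0, 0, 1, 1], [1, 1, 0, 0], [1, 1, 0, 0], [0, 0, 1, 1]], [[0, 1, 0, 0], [1, 0, 0, 0], [0, 0, 0, 1], [0, 0, 1, 0], [0, 0, 0, 1], [1, 0, 0, 0], [0, 1, 0, 0], [0, 0, 1, 0]], [[0, 0, 1, 0, 0, 0, 0, 1], [1, 0, 0, 0, 0, 1, 0, 0], [0, 1, 0, 0, 0, 0, 1, 0], [0, 0, 0, 1, 1, 0, 0, 0]]),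
   (2, [[1, 1], [1, 1]], [[1, 0], [0, 1], [0, 1], [1, 0]], [[0, 0, 1, 1], [1, 1, 0, 0]]),
   (1, [[2]], [[1], [1]], [[1, 1]])]

theorem ok21 : chainOK 8 rep21 ch21 = true := by decide +kernel

/-- Representative 22. -/
def rep22 : List (List ℕ) := [[2]]

/-- Chain from representative 22 to `[2]`. -/
def ch22 : List (ℕ × List (List ℕ) × List (List ℕ) × List (List ℕ)) :=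
  []

theorem ok22 : chainOK 1 rep22 ch22 = true := by decide +kernel

/-- Representative 23. -/
def rep23 : List (List ℕ) := [[1, 1], [1, 1]]

/-- Chain from representative 23 to `[2]`. -/
def ch23 : List (ℕ × List (List ℕ) × List (List ℕ) × List (List ℕ)) :=
  [(1, [[2]], [[1], [1]], [[1, 1]])]

theorem ok23 : chainOK 2 rep23 ch23 = true := by decide +kernel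

/-- Representative 24. -/
def rep24 : List (List ℕ) := [[1, 1, 0, 0], [0, 0, 1, 1], [1, 1, 0, 0], [0, 0, 1, 1]]

/-- Chain from representative 24 to `[2]`. -/
def ch24 : List (ℕ × List (List ℕ) × List (List ℕ) × List (List ℕ)) :=
  [(2, [[1, 1], [1, 1]], [[1, 0], [0, 1], [1, 0], [0, 1]], [[1, 1, 0, 0], [0, 0, 1, 1]]),
   (1, [[2]], [[1], [1]], [[1, 1]])]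

theorem ok24 : chainOK 4 rep24 ch24 = true := by decide +kernel

end Pool.Agent.H73AM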