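import Pool.Agent.H73AM.Stm

/-!
# Kernel-checkable certificates for strong shift equivalence to `[2]`
-/

set_option autoImplicit false

namespace Pool.Agent.H73AM

open Matrix

/-- Entry of a matrix given as a list of rows. -/
def ent (M : List (List ℕ)) (i j : ℕ) : ℕ := (M.getD i []).getD j 0

/-- The matrix with given rows. -/
def toM (n m : ℕ) (M : List (List ℕ)) : Matrix (Fin n) (Fin m) ℕ := Matrix.of fun i j => ent M i j

/-- `∑_{k < m} R_ik S_kj`. -/
def dot (R S : List (List ℕ)) (i j : ℕ) : ℕ → ℕ
  | 0 => 0
  | m + 1 => dot R S i j m + ent R i m * ent S m j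

/-- `p` holds below `n`. -/
def allB (p : ℕ → Bool) : ℕ → Bool
  | 0 => true
  | n + 1 => allB p n && p n

theorem allB_spec {p : ℕ → Bool} {n : ℕ} (h : allB p n = true) : ∀ i < n, p i = true := by
  induction n with
  | zero => intro i hi; omega
  | succ n ih =>
    simp only [allB, Bool.and_eq_true] at h
    intro i hi
    rcases Nat.lt_succ_iff_lt_or_eq.1 hi with h1 | h1
    · exact ih h.1 i h1
    · rw [h1]; exact h.2

/-- `X = R S` for `X` of size `n × p` and inner dimension `m`. -/
def mulOK (n m p : ℕ) (R S X : List (List ℕ)) : Bool :=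
  allB (fun i => allB (fun j => Nat.beq (dot R S i j m) (ent X i j)) p) n

theorem dot_eq (R S : List (List ℕ)) (i j m : ℕ) :
    dot R S i j m = ∑ k : Fin m, ent R i k * ent S k j := by
  induction m with
  | zero => simp [dot]
  | succ m ih => rw [dot, Fin.sum_univ_castSucc, ih]; simp

theorem mulOK_spec {n m p : ℕ} {R S X : List (List ℕ)} (h : mulOK n m p R S X = true) :
    toM n p X = toM n m R * toM m p S := by
  ext i j
  have h1 := allB_spec (allB_spec h i i.2) j j.2
  have h2 := Nat.eq_of_beq_eq_true h1
  simp only [toM, Matrix.mul_apply, Matrix.of_apply]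
  rw [← h2, dot_eq]

/-- A chain of elementary equivalences from `X` (of size `n`) to `[2]`; each entry lists the size,
the matrix and the factors `R`, `S`. -/
def chainOK : ℕ → List (List ℕ) →
    List (ℕ × List (List ℕ) × List (List ℕ) × List (List ℕ)) → Bool
  | n, X, [] => Nat.beq n 1 && Nat.beq (ent X 0 0) 2
  | n, X, (m, Y, R, S) :: c => mulOK n m n R S X && mulOK m n m S R Y && chainOK m Y c

theorem chainOK_sound (c : List (ℕ × List (List ℕ) × List (List ℕ) × List (List ℕ))) :
    ∀ (n : ℕ) (X : List (List ℕ)), chainOK n X c = true → SSE (toM n n X) two := by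
  induction c with
  | nil =>
    intro n X h
    simp only [chainOK, Bool.and_eq_true] at h
    have h1 : n = 1 := Nat.eq_of_beq_eq_true h.1
    have h2 := Nat.eq_of_beq_eq_true h.2
    subst h1
    have : toM 1 1 X = two := by
      ext i j
      fin_cases i; fin_cases j
      simpa [toM, two] using h2
    rw [this]
    exact SSE.refl _
  | cons a c ih =>
    intro n X h
    obtain ⟨m, Y, R, S⟩ := a
    simp only [chainOK, Bool.and_eq_true] at h
    exact (SSE.of_elem _ _ (mulOK_spec h.1.1) (mulOK_spec h.1.2)).trans (ih m Y h.2)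

end Pool.Agent.H73AM
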