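import Pool.Agent.H73AM.Ess

/-!
# The criterion for shift equivalence to `[k]`
-/

set_option autoImplicit false

namespace Pool.Agent.H73AM

open Matrix

variable {n : ℕ}

/-- `A` over `ℚ`. -/
def toR (A : Matrix (Fin n) (Fin n) ℕ) : Matrix (Fin n) (Fin n) ℚ := A.map (Nat.castRingHom ℚ)

theorem toR_pow (A : Matrix (Fin n) (Fin n) ℕ) (l : ℕ) : toR (A ^ l) = toR A ^ l :=
  Matrix.map_pow _ _ _

theorem sub_pow_gen (a U : Matrix (Fin n) (Fin n) ℚ) (k D : ℚ) (hD : D ≠ 0)
    (r1 : a * U = k • U) (r2 : U * U = D • U) (r3 : U * a = k • U) (l : ℕ) :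
    (a - (k / D) • U) ^ (l + 1) = a ^ (l + 1) - (k ^ (l + 1) / D) • U := by
  have r4 : ∀ l : ℕ, a ^ l * U = (k ^ l) • U := by
    intro l
    induction l with
    | zero => simp
    | succ l ih => rw [pow_succ, Matrix.mul_assoc, r1, Matrix.mul_smul, ih, smul_smul, pow_succ,
        mul_comm]
  induction l with
  | zero => simp
  | succ l ih =>
    rw [pow_succ, ih, Matrix.sub_mul, Matrix.mul_sub, Matrix.mul_sub, Matrix.mul_smul,
      Matrix.smul_mul, Matrix.smul_mul, Matrix.mul_smul, r4, r3, r2, ← pow_succ]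
    simp only [smul_smul]
    rw [sub_sub, sub_right_inj, ← sub_eq_zero, ← sub_smul, ← add_smul, ← sub_smul]
    rw [show (k / D * k ^ (l + 1) + (k ^ (l + 1) / D * k - k ^ (l + 1) / D * (k / D * D)) -
      k ^ (l + 1 + 1) / D) = 0 by field_simp; ring, zero_smul]

theorem crit_pow {A : Matrix (Fin n) (Fin n) ℕ} {k : ℕ} {u v : Fin n → ℕ}
    (hu : ∀ i, ∑ j, A i j * u j = k * u i) (hv : ∀ j, ∑ i, v i * A i j = k * v j)
    (h0 : ∑ i, v i * u i ≠ 0) (l : ℕ)
    (h : ∀ i j, (∑ i, v i * u i) * (A ^ (l + 1)) i j = k ^ (l + 1) * (u i * v j)) :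
    ∀ i j, (∑ i, v i * u i) * (A ^ n) i j = k ^ n * (u i * v j) := by
  set D := ∑ i, v i * u i with hD
  let U : Matrix (Fin n) (Fin n) ℚ := Matrix.of fun i j => (u i : ℚ) * (v j : ℚ)
  have hD0 : (D : ℚ) ≠ 0 := by exact_mod_cast h0
  have r1 : toR A * U = (k : ℚ) • U := by
    ext i j
    simp only [Matrix.mul_apply, toR, U, Matrix.of_apply, Matrix.map_apply,
      Matrix.smul_apply, smul_eq_mul, Nat.coe_castRingHom]
    have : (∑ x, (A i x : ℚ) * (u x : ℚ)) = (k : ℚ) * (u i : ℚ) := by exact_mod_cast hu i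
    rw [← mul_assoc, ← this, Finset.sum_mul]
    exact Finset.sum_congr rfl (fun x _ => by ring)
  have r3 : U * toR A = (k : ℚ) • U := by
    ext i j
    simp only [Matrix.mul_apply, toR, U, Matrix.of_apply, Matrix.map_apply,
      Matrix.smul_apply, smul_eq_mul, Nat.coe_castRingHom]
    have : (∑ x, (v x : ℚ) * (A x j : ℚ)) = (k : ℚ) * (v j : ℚ) := by exact_mod_cast hv j
    rw [mul_left_comm, ← this, Finset.mul_sum]
    exact Finset.sum_congr rfl (fun x _ => by ring)
  have r2 : U * U = (D : ℚ) • U := by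
    ext i j
    simp only [Matrix.mul_apply, U, Matrix.of_apply, Matrix.smul_apply, smul_eq_mul]
    rw [hD]
    push_cast
    rw [Finset.sum_mul]
    exact Finset.sum_congr rfl (fun x _ => by ring)
  have hpow : ∀ s : ℕ, (∀ i j, D * (A ^ s) i j = k ^ s * (u i * v j)) ↔
      toR A ^ s = ((k : ℚ) ^ s / D) • U := by
    intro s
    rw [← toR_pow]
    constructor
    · intro h
      ext i j
      simp only [toR, Matrix.map_apply, Matrix.smul_apply, U, Matrix.of_apply, smul_eq_mul,
        Nat.coe_castRingHom]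
      rw [div_mul_eq_mul_div, eq_div_iff hD0, mul_comm]
      exact_mod_cast h i j
    · intro h i j
      have := congrFun (congrFun h i) j
      simp only [toR, Matrix.map_apply, Matrix.smul_apply, U, Matrix.of_apply, smul_eq_mul,
        Nat.coe_castRingHom] at this
      rw [div_mul_eq_mul_div, eq_div_iff hD0, mul_comm] at this
      exact_mod_cast this
  have hnil : IsNilpotent (toR A - ((k : ℚ) / D) • U) := by
    refine ⟨l + 1, ?_⟩
    rw [sub_pow_gen (toR A) U k D hD0 r1 r2 r3 l, (hpow (l + 1)).1 h, sub_self]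
  have h2 := Matrix.isNilpotent_charpoly_sub_pow_of_isNilpotent hnil
  have h3 := h2.eq_zero
  rw [sub_eq_zero, Fintype.card_fin] at h3
  have h4 := Matrix.aeval_self_charpoly (toR A - ((k : ℚ) / D) • U)
  rw [h3, map_pow, Polynomial.aeval_X] at h4
  have hn : n ≠ 0 := by
    rintro rfl
    apply h0
    rw [hD]
    simp
  obtain ⟨m, hm⟩ : ∃ m, n = m + 1 := ⟨n - 1, by omega⟩
  rw [hpow n]
  have h5 := sub_pow_gen (toR A) U k D hD0 r1 r2 r3 m
  rw [← hm, h4] at h5
  exact (sub_eq_zero.1 h5.symm)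

/-- Shift equivalence to `[k]` gives the criterion. -/
theorem crit_of_se {A : Matrix (Fin n) (Fin n) ℕ} {k : ℕ} (hk : 1 ≤ k) {u v : Fin n → ℕ}
    (hu : ∀ i, ∑ j, A i j * u j = k * u i) (hv : ∀ j, ∑ i, v i * A i j = k * v j)
    (h0 : ∑ i, v i * u i ≠ 0) (h : SE A (full k)) :
    ∀ i j, (∑ i, v i * u i) * (A ^ n) i j = k ^ n * (u i * v j) := by
  obtain ⟨l, R, S, hl, h1, h2, -, -⟩ := h
  obtain ⟨l, rfl⟩ : ∃ l', l = l' + 1 := ⟨l - 1, by omega⟩
  apply crit_pow hu hv h0 l
  have hkp : 0 < k ^ (l + 1) := Nat.pow_pos (by omega)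
  have e : ∀ i j, (A ^ (l + 1)) i j = R i 0 * S 0 j := by
    intro i j
    rw [h1, Matrix.mul_apply]
    simp
  have hSR : ∑ j, S 0 j * R j 0 = k ^ (l + 1) := by
    have := congrFun (congrFun h2 0) 0
    rw [full_pow, Matrix.mul_apply] at this
    exact this.symm
  have hu' : ∀ i, k ^ (l + 1) * u i = R i 0 * ∑ j, S 0 j * u j := by
    intro i
    rw [← pow_eig hu (l + 1) i, Finset.mul_sum]
    exact Finset.sum_congr rfl (fun j _ => by rw [e]; ring)
  have hv' : ∀ j, k ^ (l + 1) * v j = (∑ i, v i * R i 0) * S 0 j := by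
    intro j
    have h3 := pow_eig (A := Aᵀ) (k := k) (u := v) (fun j => by
      rw [← hv j]
      exact Finset.sum_congr rfl (fun i _ => mul_comm _ _)) (l + 1) j
    rw [← h3, Finset.sum_mul]
    apply Finset.sum_congr rfl
    intro i _
    rw [← Matrix.transpose_pow, Matrix.transpose_apply, e]
    ring
  set a := ∑ j, S 0 j * u j
  set b := ∑ i, v i * R i 0
  have hD : k ^ (l + 1) * (∑ i, v i * u i) = a * b := by
    apply Nat.eq_of_mul_eq_mul_left hkp
    calc k ^ (l + 1) * (k ^ (l + 1) * ∑ i, v i * u i)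
        = ∑ i, (k ^ (l + 1) * v i) * (k ^ (l + 1) * u i) := by
          rw [Finset.mul_sum, Finset.mul_sum]
          exact Finset.sum_congr rfl (fun i _ => by ring)
      _ = ∑ i, (b * S 0 i) * (R i 0 * a) := by
          exact Finset.sum_congr rfl (fun i _ => by rw [hv', hu'])
      _ = (a * b) * ∑ i, S 0 i * R i 0 := by
          rw [Finset.mul_sum]
          exact Finset.sum_congr rfl (fun i _ => by ring)
      _ = k ^ (l + 1) * (a * b) := by rw [hSR]; ring
  intro i j
  apply Nat.eq_of_mul_eq_mul_left hkp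
  rw [e]
  calc k ^ (l + 1) * ((∑ i, v i * u i) * (R i 0 * S 0 j))
      = (k ^ (l + 1) * (∑ i, v i * u i)) * (R i 0 * S 0 j) := by ring
    _ = (R i 0 * a) * (b * S 0 j) := by rw [hD]; ring
    _ = (k ^ (l + 1) * u i) * (k ^ (l + 1) * v j) := by rw [hu', hv']
    _ = k ^ (l + 1) * (k ^ (l + 1) * (u i * v j)) := by ring

/-- The criterion gives shift equivalence to `[k]`. -/
theorem se_of_crit {A : Matrix (Fin n) (Fin n) ℕ} {k : ℕ} {u v : Fin n → ℕ}
    (hu : ∀ i, ∑ j, A i j * u j = k * u i) (hv : ∀ j, ∑ i, v i * A i j = k * v j)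
    (h0 : ∑ i, v i * u i ≠ 0)
    (h : ∀ i j, (∑ i, v i * u i) * (A ^ n) i j = k ^ n * (u i * v j)) : SE A (full k) := by
  have hn : 1 ≤ n := by
    by_contra hcon
    have : n = 0 := by omega
    subst this
    simp at h0
  obtain ⟨i0, hi0⟩ : ∃ i, v i * u i ≠ 0 := by
    by_contra hcon
    push Not at hcon
    exact h0 (Finset.sum_eq_zero (fun i _ => hcon i))
  have hui : u i0 ≠ 0 := fun h' => hi0 (by rw [h', mul_zero])
  have hvi : v i0 ≠ 0 := fun h' => hi0 (by rw [h', zero_mul])
  obtain ⟨u0, hu0, hg0⟩ := Finset.extract_gcd u ⟨i0, Finset.mem_univ i0⟩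
  obtain ⟨v0, hv0, hh0⟩ := Finset.extract_gcd v ⟨i0, Finset.mem_univ i0⟩
  set g := Finset.univ.gcd u
  set h' := Finset.univ.gcd v
  have hg : 0 < g := by
    rcases Nat.eq_zero_or_pos g with h1 | h1
    · have := hu0 i0 (Finset.mem_univ _)
      rw [h1, zero_mul] at this
      exact absurd this hui
    · exact h1
  have hh : 0 < h' := by
    rcases Nat.eq_zero_or_pos h' with h1 | h1
    · have := hv0 i0 (Finset.mem_univ _)
      rw [h1, zero_mul] at this
      exact absurd this hvi
    · exact h1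
  have hu0' : ∀ i, u i = g * u0 i := fun i => hu0 i (Finset.mem_univ _)
  have hv0' : ∀ i, v i = h' * v0 i := fun i => hv0 i (Finset.mem_univ _)
  set d := ∑ i, v0 i * u0 i with hd
  have hDd : ∑ i, v i * u i = g * h' * d := by
    rw [hd, Finset.mul_sum]
    exact Finset.sum_congr rfl (fun i _ => by rw [hu0', hv0']; ring)
  have hd0 : 0 < d := by
    rcases Nat.eq_zero_or_pos d with h1 | h1
    · rw [h1, mul_zero] at hDd
      exact absurd hDd h0
    · exact h1
  have h2 : ∀ i j, d * (A ^ n) i j = k ^ n * (u0 i * v0 j) := by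
    intro i j
    apply Nat.eq_of_mul_eq_mul_left (Nat.mul_pos hg hh)
    have := h i j
    rw [hDd, hu0', hv0'] at this
    calc g * h' * (d * (A ^ n) i j) = g * h' * d * (A ^ n) i j := by ring
      _ = k ^ n * (g * u0 i * (h' * v0 j)) := this
      _ = g * h' * (k ^ n * (u0 i * v0 j)) := by ring
  have hdvd : d ∣ k ^ n := by
    have h3 : ∀ i, d ∣ k ^ n * u0 i := by
      intro i
      have h4 : d ∣ Finset.univ.gcd (fun j => (k ^ n * u0 i) * v0 j) := by
        apply Finset.dvd_gcd
        intro j _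
        rw [mul_assoc, ← h2 i j]
        exact Dvd.intro _ rfl
      rw [Finset.gcd_mul_left, hh0] at h4
      simpa using h4
    have h5 : d ∣ Finset.univ.gcd (fun i => k ^ n * u0 i) :=
      Finset.dvd_gcd (fun i _ => h3 i)
    rw [Finset.gcd_mul_left, hg0] at h5
    simpa using h5
  obtain ⟨q, hq⟩ := hdvd
  have h6 : ∀ i j, (A ^ n) i j = q * u0 i * v0 j := by
    intro i j
    apply Nat.eq_of_mul_eq_mul_left hd0
    rw [h2, hq]
    ring
  refine ⟨n, Matrix.of fun i _ => q * u0 i, Matrix.of fun _ j => v0 j, hn, ?_, ?_, ?_, ?_⟩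
  · ext i j
    rw [h6, Matrix.mul_apply]
    simp
  · ext i j
    fin_cases i; fin_cases j
    have := full_pow k n
    simp only [Fin.zero_eta, Fin.isValue]
    rw [this, Matrix.mul_apply, hq, hd]
    simp only [Matrix.of_apply]
    rw [Finset.sum_mul]
    exact Finset.sum_congr rfl (fun i _ => by ring)
  · ext i j
    fin_cases j
    simp only [Matrix.mul_apply, Matrix.of_apply, Finset.univ_unique, Fin.default_eq_zero,
      Finset.sum_singleton, Fin.zero_eta, Fin.isValue]
    have h7 : full k 0 0 = k := rfl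
    rw [h7]
    have h8 : ∑ x, A i x * u0 x = k * u0 i := by
      apply Nat.eq_of_mul_eq_mul_left hg
      have := hu i
      simp only [hu0'] at this
      rw [Finset.mul_sum]
      calc ∑ x, g * (A i x * u0 x) = ∑ x, A i x * (g * u0 x) :=
            Finset.sum_congr rfl (fun x _ => by ring)
        _ = k * (g * u0 i) := this
        _ = g * (k * u0 i) := by ring
    calc ∑ x, A i x * (q * u0 x) = q * ∑ x, A i x * u0 x := by
          rw [Finset.mul_sum]; exact Finset.sum_congr rfl (fun x _ => by ring)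
      _ = q * u0 i * k := by rw [h8]; ring
  · ext i j
    fin_cases i
    simp only [Matrix.mul_apply, Matrix.of_apply, Finset.univ_unique, Fin.default_eq_zero,
      Finset.sum_singleton, Fin.zero_eta, Fin.isValue]
    have h7 : full k 0 0 = k := rfl
    rw [h7]
    apply Nat.eq_of_mul_eq_mul_left hh
    have := hv j
    simp only [hv0'] at this
    rw [Finset.mul_sum]
    calc ∑ x, h' * (v0 x * A x j) = ∑ x, h' * v0 x * A x j :=
          Finset.sum_congr rfl (fun x _ => by ring)
      _ = k * (h' * v0 j) := this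
      _ = h' * (k * v0 j) := by ring

end Pool.Agent.H73AM
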