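import Pool.Agent.H73AM.Check

/-!
# Verified enumeration of doubly 2-stochastic matrices with a single nonzero eigenvalue
-/

set_option autoImplicit false

namespace Pool.Agent.H73AM

open Matrix

/-- `[a = b]`. -/
noncomputable def del (a b : ℕ) : ℕ := Bool.rec 0 1 (Nat.beq a b)

theorem del_eq (a b : ℕ) : del a b = if a = b then 1 else 0 := by
  unfold del
  by_cases h : a = b
  · subst h; simp
  · have : Nat.beq a b = false := by
      rw [Bool.eq_false_iff]; intro h'; exact h (Nat.eq_of_beq_eq_true h')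
    simp [this, h]

/-- The two successors of the label `i`. -/
def sc (rows : List (ℕ × ℕ)) (i : ℕ) : ℕ × ℕ := rows.getD i (0, 0)

/-- `F` applied to the two successors of the label `i`. -/
noncomputable def nthC (rows : List (ℕ × ℕ)) (F : ℕ → ℕ → ℕ) : ℕ → ℕ :=
  List.rec (motive := fun _ => ℕ → ℕ) (fun _ => F 0 0)
    (fun p _ ih i => Nat.rec (Prod.rec F p) (fun i' _ => ih i') i) rows

theorem nthC_eq (rows : List (ℕ × ℕ)) (F : ℕ → ℕ → ℕ) (i : ℕ) :
    nthC rows F i = F (sc rows i).1 (sc rows i).2 := by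
  induction rows generalizing i with
  | nil => rfl
  | cons p r ih =>
    cases i with
    | zero => rfl
    | succ i =>
      have : sc (p :: r) (i + 1) = sc r i := rfl
      rw [this, ← ih]
      rfl

/-- Number of edges from `i` to `j`. -/
noncomputable def edg (rows : List (ℕ × ℕ)) (i j : ℕ) : ℕ :=
  nthC rows (fun a b => Nat.add (del a j) (del b j)) i

theorem edg_eq (rows : List (ℕ × ℕ)) (i j : ℕ) :
    edg rows i j = del (sc rows i).1 j + del (sc rows i).2 j := nthC_eq _ _ _

/-- Number of listed edges into `x`. -/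
noncomputable def cnt : List (ℕ × ℕ) → ℕ → ℕ
  | [], _ => 0
  | p :: r, x => del p.1 x + del p.2 x + cnt r x

/-- Number of walks of length `s` from `i` to `j`. -/
noncomputable def wk (rows : List (ℕ × ℕ)) (s : ℕ) : ℕ → ℕ → ℕ :=
  Nat.rec del (fun _ ih i j => nthC rows (fun a b => Nat.add (ih a j) (ih b j)) i) s

theorem wk_zero (rows : List (ℕ × ℕ)) (i j : ℕ) : wk rows 0 i j = del i j := rfl

theorem wk_succ (rows : List (ℕ × ℕ)) (s i j : ℕ) :
    wk rows (s + 1) i j = wk rows s (sc rows i).1 j + wk rows s (sc rows i).2 j :=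
  nthC_eq rows (fun a b => Nat.add (wk rows s a j) (wk rows s b j)) i

/-- Number of closed walks of length `s`. -/
noncomputable def trw (rows : List (ℕ × ℕ)) (s n : ℕ) : ℕ :=
  Nat.rec 0 (fun i ih => Nat.add ih (wk rows s i i)) n

theorem trw_zero (rows : List (ℕ × ℕ)) (s : ℕ) : trw rows s 0 = 0 := rfl

theorem trw_succ (rows : List (ℕ × ℕ)) (s n : ℕ) :
    trw rows s (n + 1) = trw rows s n + wk rows s n n := rfl

/-- The traces of the powers `2, …, 6` are those of `[2]`. -/
noncomputable def trOK (n : ℕ) (rows : List (ℕ × ℕ)) : Bool :=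
  Nat.beq (trw rows 2 n) 4 && (Nat.beq (trw rows 3 n) 8 &&
    (Nat.beq (trw rows 4 n) 16 && (Nat.beq (trw rows 5 n) 32 && Nat.beq (trw rows 6 n) 64)))

/-- `p` lists a permutation of `0, …, n - 1`. -/
def permOK (n : ℕ) (p : List ℕ) : Bool :=
  allB (fun i => Nat.blt (p.getD i 0) n &&
    allB (fun j => !Nat.beq (p.getD i 0) (p.getD j 0)) i) n

/-- `rows` is the matrix `x` up to the permutation `p`. -/
noncomputable def certOK (n : ℕ) (rows : List (ℕ × ℕ)) (p : List ℕ) (x : ℕ × List (List ℕ)) : Bool :=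
  Nat.beq x.1 n && permOK n p &&
    allB (fun i => allB (fun j => Nat.beq (edg rows i j) (ent x.2 (p.getD i 0) (p.getD j 0))) n) n

/-- Equality of lists of pairs. -/
def rowsEq : List (ℕ × ℕ) → List (ℕ × ℕ) → Bool
  | [], [] => true
  | p :: r, q :: s => Nat.beq p.1 q.1 && Nat.beq p.2 q.2 && rowsEq r s
  | _, _ => false

/-- Look a full graph up in the list of certificates. -/
noncomputable def look (reps : List (ℕ × List (List ℕ))) (n : ℕ) (rows : List (ℕ × ℕ)) :
    List (List (ℕ × ℕ) × List ℕ × ℕ) → Bool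
  | [] => false
  | c :: cs => (rowsEq c.1 rows && certOK n rows c.2.1 (reps.getD c.2.2 (0, []))) ||
      look reps n rows cs

/-- `F p r` holds for all `p :: r` which end the list. -/
def allT (F : (ℕ × ℕ) → List (ℕ × ℕ) → Bool) : List (ℕ × ℕ) → Bool
  | [] => true
  | p :: r => F p r && allT F r

/-- `F` holds on the list. -/
def allL (F : (ℕ × ℕ) → Bool) : List (ℕ × ℕ) → Bool
  | [] => true
  | p :: r => F p && allL F r

/-- Decrease the capacity of the label `x`. -/
def dec (x : ℕ) : List (ℕ × ℕ) → List (ℕ × ℕ)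
  | [] => []
  | p :: r => bif Nat.beq p.1 x then (bif Nat.beq p.2 2 then (x, 1) :: r else r) else p :: dec x r

/-- The enumeration. `rr` lists (in reversed order) the successors of the first `m` vertices in the
order in which they are met, `k` is the number of vertices met so far, `av` lists the vertices which
may still be reached with the number of edges missing, `t` is the number of rows to be chosen. -/
noncomputable def go (L : List (ℕ × ℕ) → List (ℕ × ℕ) → ℕ → Bool) (n : ℕ) :
    ℕ → List (ℕ × ℕ) → List (ℕ × ℕ) → ℕ → ℕ → Bool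
  | 0, rr, av, _, k => L rr av k
  | t + 1, rr, av, m, k =>
    Nat.beq m k ||
      (allT (fun p r => Nat.beq p.1 m ||
          ((Nat.beq p.2 1 || go L n t ((p.1, p.1) :: rr) (dec p.1 (dec p.1 av)) (m + 1) k) &&
            (allL (fun q => Nat.beq q.1 m ||
              go L n t ((p.1, q.1) :: rr) (dec p.1 (dec q.1 av)) (m + 1) k) r &&
            (Nat.ble n k ||
              go L n t ((p.1, k) :: rr) ((k, 1) :: dec p.1 av) (m + 1) (k + 1))))) av &&
        ((Nat.ble n k || go L n t ((k, k) :: rr) av (m + 1) (k + 1)) &&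
        (Nat.ble n (k + 1) ||
          go L n t ((k, k + 1) :: rr) ((k, 1) :: (k + 1, 1) :: av) (m + 1) (k + 2))))

/-- The final test: the traces are wrong or the graph has a certificate. -/
noncomputable def leaf (reps : List (ℕ × List (List ℕ))) (cs : List (List (ℕ × ℕ) × List ℕ × ℕ)) (n : ℕ)
    (rr : List (ℕ × ℕ)) (_av : List (ℕ × ℕ)) (_k : ℕ) : Bool :=
  !trOK n rr.reverse || look reps n rr.reverse cs

/-- The intermediate test: the state belongs to a list. -/
noncomputable def inList (P : List (List (ℕ × ℕ) × List (ℕ × ℕ) × ℕ)) (rr : List (ℕ × ℕ)) (av : List (ℕ × ℕ))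
    (k : ℕ) : Bool :=
  match P with
  | [] => false
  | p :: P => (rowsEq p.1 rr && (rowsEq p.2.1 av && Nat.beq p.2.2 k)) || inList P rr av k

theorem sc_append_lt (rows : List (ℕ × ℕ)) (p : ℕ × ℕ) (i : ℕ) (h : i < rows.length) :
    sc (rows ++ [p]) i = sc rows i := by
  simp [sc, List.getElem?_append_left h]

theorem sc_append_eq (rows : List (ℕ × ℕ)) (p : ℕ × ℕ) :
    sc (rows ++ [p]) rows.length = p := by
  simp [sc]

theorem cnt_append (r s : List (ℕ × ℕ)) (x : ℕ) : cnt (r ++ s) x = cnt r x + cnt s x := by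
  induction r with
  | nil => simp [cnt]
  | cons p r ih => simp only [List.cons_append, cnt, ih]; ring

theorem cnt_reverse (r : List (ℕ × ℕ)) (x : ℕ) : cnt r.reverse x = cnt r x := by
  induction r with
  | nil => rfl
  | cons p r ih =>
    rw [List.reverse_cons, cnt_append, ih]
    simp only [cnt]
    ring

theorem cnt_eq (rows : List (ℕ × ℕ)) (x : ℕ) :
    cnt rows x = ∑ i ∈ Finset.range rows.length, edg rows i x := by
  induction rows using List.reverseRecOn with
  | nil => simp [cnt]
  | append_singleton r p ih =>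
    rw [cnt_append, List.length_append, List.length_singleton, Finset.sum_range_succ, ih]
    congr 1
    · apply Finset.sum_congr rfl
      intro i hi
      rw [Finset.mem_range] at hi
      simp only [edg_eq, sc_append_lt _ _ _ hi]
    · simp only [edg_eq, sc_append_eq, cnt]; ring

/-- The labelling `f` of `k` vertices of the graph of `A` agrees with the `m` reversed rows `rr`;
`av` lists the labels with missing incoming edges. -/
structure Inv {n : ℕ} (A : Matrix (Fin n) (Fin n) ℕ) (rr : List (ℕ × ℕ)) (av : List (ℕ × ℕ))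
    (m k : ℕ) (f : ℕ → Fin n) : Prop where
  inj : ∀ i j, i < k → j < k → f i = f j → i = j
  two_le : 2 ≤ m
  len : rr.length = m
  le : m ≤ k
  row : ∀ i, i < m → (sc rr.reverse i).1 < k ∧ (sc rr.reverse i).2 < k ∧
    ∀ w, A (f i) w = (if f (sc rr.reverse i).1 = w then 1 else 0) +
      (if f (sc rr.reverse i).2 = w then 1 else 0)
  noloop : ∀ w, w ≠ f 0 → w ≠ f 1 → A w w = 0
  avlt : ∀ p ∈ av, p.1 < k
  avnd : (av.map Prod.fst).Nodup
  avail : ∀ x < k, cnt rr x < 2 → (x, 2 - cnt rr x) ∈ av

theorem Inv.ext {n : ℕ} {A : Matrix (Fin n) (Fin n) ℕ} {rr av : List (ℕ × ℕ)} {m k : ℕ}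
    {f : ℕ → Fin n} (h : Inv A rr av m k f) (hm : m < k) {k' : ℕ} (hk : k ≤ k')
    {f' : ℕ → Fin n} (hf : ∀ i, i < k → f' i = f i)
    (hinj : ∀ i j, i < k' → j < k' → f' i = f' j → i = j) {a b : ℕ} (ha : a < k') (hb : b < k')
    (hr : ∀ w, A (f m) w = (if f' a = w then 1 else 0) + (if f' b = w then 1 else 0))
    {av' : List (ℕ × ℕ)} (h1 : ∀ p ∈ av', p.1 < k') (h2 : (av'.map Prod.fst).Nodup)
    (h3 : ∀ x < k', cnt ((a, b) :: rr) x < 2 → (x, 2 - cnt ((a, b) :: rr) x) ∈ av') :
    Inv A ((a, b) :: rr) av' (m + 1) k' f' := by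
  have hlen : rr.reverse.length = m := by rw [List.length_reverse, h.len]
  refine ⟨hinj, by have := h.two_le; omega, by simp [h.len], by omega, ?_, ?_, h1, h2, h3⟩
  · intro i hi
    rw [List.reverse_cons]
    rcases Nat.lt_succ_iff_lt_or_eq.1 hi with h1 | h1
    · obtain ⟨r1, r2, r3⟩ := h.row i h1
      rw [sc_append_lt _ _ _ (by omega)]
      refine ⟨r1.trans_le hk, r2.trans_le hk, ?_⟩
      intro w
      rw [hf i (by omega), hf _ r1, hf _ r2]
      exact r3 w
    · subst h1
      have e : sc (rr.reverse ++ [(a, b)]) i = (a, b) := by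
        have := sc_append_eq rr.reverse (a, b)
        rwa [hlen] at this
      rw [e]
      refine ⟨ha, hb, ?_⟩
      intro w
      rw [hf _ hm]
      exact hr w
  · intro w w0 w1
    have := h.two_le
    rw [hf 0 (by omega)] at w0
    rw [hf 1 (by omega)] at w1
    exact h.noloop w w0 w1

theorem Inv.ent_eq {n : ℕ} {A : Matrix (Fin n) (Fin n) ℕ} {rr av : List (ℕ × ℕ)} {m k : ℕ}
    {f : ℕ → Fin n} (h : Inv A rr av m k f) {i j : ℕ} (hi : i < m) (hj : j < k) :
    A (f i) (f j) = edg rr.reverse i j := by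
  obtain ⟨r1, r2, r3⟩ := h.row i hi
  rw [r3, edg_eq, del_eq, del_eq]
  have e : ∀ a, a < k → ((if f a = f j then 1 else 0 : ℕ) = if a = j then 1 else 0) := by
    intro a ha
    by_cases hh : a = j
    · simp [hh]
    · have : f a ≠ f j := fun h' => hh (h.inj a j ha hj h')
      simp [hh, this]
  rw [e _ r1, e _ r2]

theorem Inv.cnt_le {n : ℕ} {A : Matrix (Fin n) (Fin n) ℕ} (hc : ∀ j, ∑ i, A i j = 2)
    {rr av : List (ℕ × ℕ)} {m k : ℕ} {f : ℕ → Fin n} (h : Inv A rr av m k f) (hm : m < k)
    {x : ℕ} (hx : x < k) : cnt rr x + A (f m) (f x) ≤ 2 := by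
  have h1 : cnt rr x + A (f m) (f x) = ∑ i ∈ Finset.range (m + 1), A (f i) (f x) := by
    rw [Finset.sum_range_succ, ← cnt_reverse, cnt_eq, List.length_reverse, h.len]
    congr 1
    apply Finset.sum_congr rfl
    intro i hi
    rw [Finset.mem_range] at hi
    exact (h.ent_eq hi hx).symm
  rw [h1, ← hc (f x), ← Finset.sum_image (f := fun v => A v (f x)) (g := f)]
  · exact Finset.sum_le_sum_of_subset (Finset.subset_univ _)
  · intro i hi j hj hij
    rw [Finset.mem_coe, Finset.mem_range] at hi hj
    exact h.inj i j (by omega) (by omega) hij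

theorem Inv.cnt_new {n : ℕ} {A : Matrix (Fin n) (Fin n) ℕ} {rr av : List (ℕ × ℕ)} {m k : ℕ}
    {f : ℕ → Fin n} (h : Inv A rr av m k f) {x : ℕ} (hx : k ≤ x) : cnt rr x = 0 := by
  rw [← cnt_reverse, cnt_eq]
  apply Finset.sum_eq_zero
  intro i hi
  rw [Finset.mem_range, List.length_reverse, h.len] at hi
  obtain ⟨r1, r2, -⟩ := h.row i hi
  rw [edg_eq, del_eq, del_eq, if_neg (by omega), if_neg (by omega), add_zero]

theorem dec_mem_ne {x : ℕ} {p : ℕ × ℕ} (hp : p.1 ≠ x) (av : List (ℕ × ℕ)) (h : p ∈ av) :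
    p ∈ dec x av := by
  induction av with
  | nil => simp at h
  | cons q r ih =>
    rw [dec]
    rcases List.mem_cons.1 h with h1 | h1
    · subst h1
      have : Nat.beq p.1 x = false := by
        rw [Bool.eq_false_iff]; intro h'; exact hp (Nat.eq_of_beq_eq_true h')
      simp [this]
    · cases Nat.beq q.1 x
      · simpa using Or.inr (ih h1)
      · cases Nat.beq q.2 2
        · simpa using h1
        · simpa using Or.inr h1

theorem dec_mem_self {x : ℕ} (av : List (ℕ × ℕ)) (hnd : (av.map Prod.fst).Nodup)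
    (h : (x, 2) ∈ av) : (x, 1) ∈ dec x av := by
  induction av with
  | nil => simp at h
  | cons q r ih =>
    rw [dec]
    simp only [List.map_cons, List.nodup_cons] at hnd
    rcases List.mem_cons.1 h with h1 | h1
    · subst h1
      simp
    · have hq : q.1 ≠ x := by
        intro hq
        exact hnd.1 (List.mem_map.2 ⟨(x, 2), h1, hq.symm⟩)
      have : Nat.beq q.1 x = false := by
        rw [Bool.eq_false_iff]; intro h'; exact hq (Nat.eq_of_beq_eq_true h')
      simp only [this, cond_false]
      exact List.mem_cons_of_mem _ (ih hnd.2 h1)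

theorem dec_sublist (x : ℕ) (av : List (ℕ × ℕ)) :
    List.Sublist ((dec x av).map Prod.fst) (av.map Prod.fst) := by
  induction av with
  | nil => simp [dec]
  | cons q r ih =>
    rw [dec]
    cases hb : Nat.beq q.1 x
    · simp only [cond_false, List.map_cons]
      exact ih.cons_cons _
    · have hq : q.1 = x := Nat.eq_of_beq_eq_true hb
      cases Nat.beq q.2 2
      · simp only [cond_true, cond_false, List.map_cons]
        exact List.sublist_cons_self _ _
      · simp only [cond_true, List.map_cons, hq]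
        exact List.Sublist.refl _

theorem dec_lt {x k : ℕ} {av : List (ℕ × ℕ)} (h : ∀ p ∈ av, p.1 < k) :
    ∀ p ∈ dec x av, p.1 < k := by
  intro p hp
  have h1 : p.1 ∈ (dec x av).map Prod.fst := List.mem_map.2 ⟨p, hp, rfl⟩
  obtain ⟨q, hq, e⟩ := List.mem_map.1 ((dec_sublist x av).subset h1)
  rw [← e]
  exact h q hq

theorem dec_nodup {x : ℕ} {av : List (ℕ × ℕ)} (h : (av.map Prod.fst).Nodup) :
    ((dec x av).map Prod.fst).Nodup := (dec_sublist x av).nodup h

theorem allL_spec {F : (ℕ × ℕ) → Bool} {l : List (ℕ × ℕ)} (h : allL F l = true) :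
    ∀ p ∈ l, F p = true := by
  induction l with
  | nil => simp
  | cons q r ih =>
    simp only [allL, Bool.and_eq_true] at h
    intro p hp
    rcases List.mem_cons.1 hp with h1 | h1
    · rw [h1]; exact h.1
    · exact ih h.2 p h1

theorem allT_spec {F : (ℕ × ℕ) → List (ℕ × ℕ) → Bool} {l : List (ℕ × ℕ)}
    (h : allT F l = true) : ∀ p ∈ l, ∃ r, F p r = true := by
  induction l with
  | nil => simp
  | cons q r ih =>
    simp only [allT, Bool.and_eq_true] at h
    intro p hp
    rcases List.mem_cons.1 hp with h1 | h1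
    · rw [h1]; exact ⟨r, h.1⟩
    · exact ih h.2 p h1

theorem allT_spec2 {F : (ℕ × ℕ) → List (ℕ × ℕ) → Bool} {l : List (ℕ × ℕ)}
    (h : allT F l = true) : ∀ p ∈ l, ∀ q ∈ l, p ≠ q →
      (∃ r, q ∈ r ∧ F p r = true) ∨ (∃ r, p ∈ r ∧ F q r = true) := by
  induction l with
  | nil => simp
  | cons s r ih =>
    simp only [allT, Bool.and_eq_true] at h
    intro p hp q hq hpq
    rcases List.mem_cons.1 hp with h1 | h1 <;> rcases List.mem_cons.1 hq with h2 | h2
    · exact absurd (h1.trans h2.symm) hpq
    · subst h1; exact Or.inl ⟨r, h2, h.1⟩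
    · subst h2; exact Or.inr ⟨r, h1, h.1⟩
    · exact ih h.2 p h1 q h2 hpq

theorem rowsEq_spec : ∀ (a b : List (ℕ × ℕ)), rowsEq a b = true → a = b
  | [], [], _ => rfl
  | [], _ :: _, h => by simp [rowsEq] at h
  | _ :: _, [], h => by simp [rowsEq] at h
  | p :: r, q :: s, h => by
    simp only [rowsEq, Bool.and_eq_true] at h
    rw [rowsEq_spec r s h.2, Prod.ext (Nat.eq_of_beq_eq_true h.1.1) (Nat.eq_of_beq_eq_true h.1.2)]

theorem inList_spec {P : List (List (ℕ × ℕ) × List (ℕ × ℕ) × ℕ)} {rr av : List (ℕ × ℕ)} {k : ℕ}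
    (h : inList P rr av k = true) : (rr, av, k) ∈ P := by
  induction P with
  | nil => simp [inList] at h
  | cons p P ih =>
    simp only [inList, Bool.or_eq_true, Bool.and_eq_true] at h
    rcases h with h | h
    · have e1 := rowsEq_spec _ _ h.1
      have e2 := rowsEq_spec _ _ h.2.1
      have e3 := Nat.eq_of_beq_eq_true h.2.2
      obtain ⟨p1, p2, p3⟩ := p
      simp only at e1 e2 e3
      subst e1 e2 e3
      exact List.mem_cons_self
    · exact List.mem_cons_of_mem _ (ih h)

/-- A row with sum `2`. -/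
theorem exists_succ {n : ℕ} (r : Fin n → ℕ) (h : ∑ j, r j = 2) :
    ∃ w1 w2, ∀ w, r w = (if w1 = w then 1 else 0) + (if w2 = w then 1 else 0) := by
  have h1 : ∃ w1, 0 < r w1 := by
    by_contra hcon
    push Not at hcon
    have : ∑ j, r j = 0 := Finset.sum_eq_zero (fun j _ => by have := hcon j; omega)
    omega
  obtain ⟨w1, hw1⟩ := h1
  have h2 : ∑ j, (r j - if w1 = j then 1 else 0) = 1 := by
    have e : ∀ j, r j = (r j - if w1 = j then 1 else 0) + if w1 = j then 1 else 0 := by
      intro j
      by_cases hj : w1 = j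
      · subst hj; simp; omega
      · simp [hj]
    have := Finset.sum_congr (rfl : (Finset.univ : Finset (Fin n)) = Finset.univ)
      (fun j _ => e j)
    rw [h, Finset.sum_add_distrib] at this
    simp only [Finset.sum_ite_eq, Finset.mem_univ, if_true] at this
    omega
  have h3 : ∃ w2, 0 < (r w2 - if w1 = w2 then 1 else 0) := by
    by_contra hcon
    push Not at hcon
    have : ∑ j, (r j - if w1 = j then 1 else 0) = 0 :=
      Finset.sum_eq_zero (fun j _ => by have := hcon j; omega)
    omega
  obtain ⟨w2, hw2⟩ := h3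
  refine ⟨w1, w2, ?_⟩
  have h4 : ∀ j, j ≠ w2 → (r j - if w1 = j then 1 else 0) = 0 := by
    intro j hj
    have h5 := Finset.sum_erase_add (Finset.univ : Finset (Fin n))
      (fun j => r j - if w1 = j then 1 else 0) (Finset.mem_univ w2)
    have h6 := Finset.single_le_sum (f := fun j => r j - if w1 = j then 1 else 0)
      (fun _ _ => Nat.zero_le _) (Finset.mem_erase.2 ⟨hj, Finset.mem_univ j⟩)
    beta_reduce at h5 h6
    omega
  have h7 : (r w2 - if w1 = w2 then 1 else 0) = 1 := by
    have h8 := Finset.sum_eq_single (M := ℕ) (s := Finset.univ)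
      (f := fun j => r j - if w1 = j then 1 else 0) w2 (fun j _ hj => h4 j hj)
      (fun hh => absurd (Finset.mem_univ _) hh)
    beta_reduce at h8
    omega
  intro w
  by_cases hw : w = w2
  · subst hw
    by_cases hw' : w1 = w
    · subst hw'
      simp only [if_true] at h7 ⊢
      omega
    · simp only [hw', if_false, if_true] at h7 ⊢
      omega
  · have := h4 w hw
    have hw2' : ¬ w2 = w := fun hh => hw hh.symm
    by_cases hw' : w1 = w
    · subst hw'
      simp only [if_true, hw2', if_false] at this ⊢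
      omega
    · simp only [hw', if_false, hw2'] at this ⊢
      omega

end Pool.Agent.H73AM
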