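import Pool.Agent.H73AM.Chains
import Pool.Agent.H73AM.Enum

/-!
# Certificates for the enumeration (generated)
-/

set_option autoImplicit false
set_option maxRecDepth 100000

namespace Pool.Agent.H73AM


/-- The representatives. -/
def reps : List (ℕ × List (List ℕ)) :=
  [(8, rep0), (8, rep1), (8, rep2), (8, rep3), (8, rep4), (8, rep5), (8, rep6), (8, rep7), (8, rep8), (8, rep9), (8, rep10), (8, rep11), (8, rep12), (8, rep13), (8, rep14), (8, rep15), (8, rep16), (8, rep17), (8, rep18), (8, rep19), (8, rep20), (8, rep21), (1, rep22), (2, rep23), (4, rep24)]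

/-- Certificates for `n = 2`. -/
def certs2 : List (List (ℕ × ℕ) × List ℕ × ℕ) :=
  [([(0, 1), (0, 1)], [0, 1], 23)]

/-- Certificates for `n = 4`. -/
def certs4 : List (List (ℕ × ℕ) × List ℕ × ℕ) :=
  [([(0, 2), (1, 3), (1, 3), (0, 2)], [0, 3, 1, 2], 24)]

/-- Certificates for `n = 8`. -/
def certs8 : List (List (ℕ × ℕ) × List ℕ × ℕ) :=
  [([(0, 1), (1, 2), (3, 4), (4, 5), (5, 6), (0, 7), (7, 2), (6, 3)], [7, 5, 4, 0, 6, 1, 2, 3], 16),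
   ([(0, 1), (1, 2), (3, 4), (5, 6), (5, 3), (0, 7), (7, 2), (6, 4)], [7, 5, 4, 6, 0, 1, 2, 3], 16),
   ([(0, 1), (1, 2), (3, 4), (5, 6), (6, 3), (2, 7), (7, 0), (5, 4)], [7, 5, 4, 6, 0, 2, 1, 3], 16),
   ([(0, 2), (0, 1), (3, 4), (4, 5), (5, 6), (1, 7), (7, 2), (6, 3)], [5, 7, 4, 0, 6, 1, 2, 3], 16),
   ([(0, 2), (0, 1), (3, 4), (5, 6), (5, 3), (1, 7), (7, 2), (6, 4)], [5, 7, 4, 6, 0, 1, 2, 3], 16),
   ([(0, 2), (0, 1), (3, 4), (5, 6), (6, 3), (2, 7), (7, 1), (5, 4)], [5, 7, 4, 6, 0, 2, 1, 3], 16),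
   ([(0, 2), (1, 3), (1, 3), (4, 5), (0, 6), (6, 7), (7, 2), (4, 5)], [2, 1, 5, 6, 7, 3, 4, 0], 10),
   ([(0, 2), (1, 3), (1, 3), (4, 5), (0, 6), (7, 7), (4, 5), (6, 2)], [3, 1, 2, 0, 5, 7, 4, 6], 2),
   ([(0, 2), (1, 3), (1, 3), (4, 5), (6, 6), (0, 7), (7, 2), (4, 5)], [3, 1, 2, 0, 7, 5, 6, 4], 2),
   ([(0, 2), (1, 3), (1, 3), (4, 5), (6, 7), (6, 0), (7, 2), (4, 5)], [2, 1, 5, 6, 3, 7, 4, 0], 10),
   ([(0, 2), (1, 3), (1, 3), (4, 5), (6, 7), (7, 0), (4, 5), (6, 2)], [2, 1, 5, 6, 3, 7, 0, 4], 10),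
   ([(0, 2), (1, 3), (1, 4), (5, 6), (5, 6), (4, 0), (7, 7), (2, 3)], [2, 1, 7, 4, 0, 3, 5, 6], 9),
   ([(0, 2), (1, 3), (1, 4), (5, 6), (5, 6), (4, 7), (7, 0), (2, 3)], [2, 3, 4, 7, 0, 1, 5, 6], 19),
   ([(0, 2), (1, 3), (1, 4), (5, 6), (5, 6), (0, 3), (7, 7), (4, 2)], [3, 1, 2, 5, 0, 4, 7, 6], 4),
   ([(0, 2), (1, 3), (1, 4), (5, 6), (5, 6), (0, 7), (7, 4), (2, 3)], [2, 3, 4, 7, 0, 5, 1, 6], 19),
   ([(0, 2), (1, 3), (1, 4), (5, 6), (5, 6), (0, 7), (7, 3), (4, 2)], [2, 3, 4, 7, 0, 5, 1, 6], 7),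
   ([(0, 2), (1, 3), (1, 4), (5, 6), (5, 6), (3, 7), (7, 0), (4, 2)], [2, 3, 4, 7, 0, 1, 5, 6], 7),
   ([(0, 2), (1, 3), (1, 4), (5, 6), (5, 6), (7, 7), (4, 0), (2, 3)], [2, 1, 7, 4, 0, 5, 3, 6], 9),
   ([(0, 2), (1, 3), (1, 4), (5, 6), (5, 6), (7, 7), (0, 3), (4, 2)], [3, 1, 2, 5, 0, 7, 4, 6], 4),
   ([(0, 2), (1, 3), (1, 4), (5, 6), (3, 7), (7, 4), (0, 2), (5, 6)], [1, 2, 5, 7, 4, 0, 6, 3], 11),
   ([(0, 2), (1, 3), (1, 4), (5, 6), (3, 7), (7, 0), (4, 2), (5, 6)], [3, 2, 4, 5, 6, 7, 0, 1], 6),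
   ([(0, 2), (1, 3), (1, 4), (5, 6), (3, 7), (7, 2), (4, 0), (5, 6)], [3, 2, 4, 5, 6, 0, 7, 1], 18),
   ([(0, 2), (1, 3), (1, 4), (5, 6), (3, 7), (4, 0), (7, 2), (5, 6)], [3, 2, 4, 5, 6, 7, 0, 1], 18),
   ([(0, 2), (1, 3), (1, 4), (5, 6), (3, 7), (4, 2), (7, 0), (5, 6)], [3, 2, 4, 5, 6, 0, 7, 1], 6),
   ([(0, 2), (1, 3), (1, 4), (5, 6), (3, 7), (0, 2), (7, 4), (5, 6)], [1, 2, 5, 7, 4, 6, 0, 3], 11),
   ([(0, 2), (1, 3), (1, 4), (5, 6), (7, 7), (4, 0), (2, 3), (5, 6)], [1, 2, 7, 3, 6, 4, 0, 5], 8),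
   ([(0, 2), (1, 3), (1, 4), (5, 6), (7, 7), (4, 2), (0, 3), (5, 6)], [1, 3, 2, 4, 6, 0, 5, 7], 5),
   ([(0, 2), (1, 3), (1, 4), (5, 6), (7, 7), (4, 3), (0, 2), (5, 6)], [1, 3, 2, 5, 6, 4, 0, 7], 3),
   ([(0, 2), (1, 3), (1, 4), (5, 6), (7, 7), (0, 2), (4, 3), (5, 6)], [1, 3, 2, 5, 6, 0, 4, 7], 3),
   ([(0, 2), (1, 3), (1, 4), (5, 6), (7, 7), (0, 3), (4, 2), (5, 6)], [1, 3, 2, 4, 6, 5, 0, 7], 5),
   ([(0, 2), (1, 3), (1, 4), (5, 6), (7, 7), (2, 3), (4, 0), (5, 6)], [1, 2, 7, 3, 6, 0, 4, 5], 8),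
   ([(0, 2), (1, 3), (3, 4), (5, 6), (1, 7), (7, 4), (0, 2), (5, 6)], [7, 6, 5, 1, 3, 4, 2, 0], 15),
   ([(0, 2), (1, 3), (3, 4), (5, 6), (1, 7), (7, 0), (4, 2), (5, 6)], [5, 4, 0, 2, 6, 3, 7, 1], 1),
   ([(0, 2), (1, 3), (3, 4), (5, 6), (1, 7), (7, 2), (4, 0), (5, 6)], [3, 4, 0, 2, 1, 5, 6, 7], 20),
   ([(0, 2), (1, 3), (3, 4), (5, 6), (1, 7), (4, 0), (7, 2), (5, 6)], [3, 4, 0, 2, 1, 6, 5, 7], 20),
   ([(0, 2), (1, 3), (3, 4), (5, 6), (1, 7), (4, 2), (7, 0), (5, 6)], [5, 4, 0, 2, 6, 7, 3, 1], 1),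
   ([(0, 2), (1, 3), (3, 4), (5, 6), (1, 7), (0, 2), (7, 4), (5, 6)], [7, 6, 5, 1, 3, 2, 4, 0], 15),
   ([(0, 2), (1, 3), (4, 5), (0, 2), (1, 6), (6, 7), (7, 3), (4, 5)], [1, 2, 6, 5, 7, 3, 4, 0], 10),
   ([(0, 2), (1, 3), (4, 5), (0, 2), (1, 6), (7, 7), (4, 5), (6, 3)], [1, 3, 0, 2, 5, 7, 4, 6], 2),
   ([(0, 2), (1, 3), (4, 5), (0, 2), (6, 6), (1, 7), (7, 3), (4, 5)], [1, 3, 0, 2, 7, 5, 6, 4], 2),
   ([(0, 2), (1, 3), (4, 5), (0, 2), (6, 7), (6, 1), (7, 3), (4, 5)], [1, 2, 6, 5, 3, 7, 4, 0], 10),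
   ([(0, 2), (1, 3), (4, 5), (0, 2), (6, 7), (7, 1), (4, 5), (6, 3)], [1, 2, 6, 5, 3, 7, 0, 4], 10),
   ([(0, 2), (1, 3), (4, 5), (0, 6), (6, 1), (2, 3), (7, 7), (4, 5)], [2, 1, 3, 7, 4, 0, 6, 5], 8),
   ([(0, 2), (1, 3), (4, 5), (0, 6), (6, 1), (3, 7), (7, 2), (4, 5)], [2, 3, 5, 4, 7, 0, 6, 1], 18),
   ([(0, 2), (1, 3), (4, 5), (0, 6), (6, 1), (7, 7), (4, 5), (2, 3)], [1, 2, 4, 7, 3, 5, 0, 6], 9),
   ([(0, 2), (1, 3), (4, 5), (0, 6), (6, 2), (1, 3), (7, 7), (4, 5)], [3, 1, 5, 2, 4, 0, 6, 7], 3),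
   ([(0, 2), (1, 3), (4, 5), (0, 6), (6, 3), (1, 2), (7, 7), (4, 5)], [3, 1, 4, 2, 0, 5, 6, 7], 5),
   ([(0, 2), (1, 3), (4, 5), (0, 6), (6, 3), (1, 7), (7, 2), (4, 5)], [2, 3, 5, 4, 0, 7, 6, 1], 6),
   ([(0, 2), (1, 3), (4, 5), (0, 6), (6, 7), (7, 1), (4, 5), (2, 3)], [3, 2, 7, 4, 1, 5, 0, 6], 19),
   ([(0, 2), (1, 3), (4, 5), (0, 6), (6, 7), (1, 3), (7, 2), (4, 5)], [2, 1, 7, 5, 0, 6, 4, 3], 11),
   ([(0, 2), (1, 3), (4, 5), (0, 6), (1, 2), (6, 3), (7, 7), (4, 5)], [3, 1, 4, 2, 5, 0, 6, 7], 5),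
   ([(0, 2), (1, 3), (4, 5), (0, 6), (1, 2), (7, 7), (4, 5), (6, 3)], [1, 3, 5, 2, 4, 7, 0, 6], 4),
   ([(0, 2), (1, 3), (4, 5), (0, 6), (1, 3), (6, 2), (7, 7), (4, 5)], [3, 1, 5, 2, 0, 4, 6, 7], 3),
   ([(0, 2), (1, 3), (4, 5), (0, 6), (1, 3), (6, 7), (7, 2), (4, 5)], [2, 1, 7, 5, 6, 0, 4, 3], 11),
   ([(0, 2), (1, 3), (4, 5), (0, 6), (1, 7), (7, 6), (4, 5), (2, 3)], [3, 2, 7, 4, 5, 1, 0, 6], 19),
   ([(0, 2), (1, 3), (4, 5), (0, 6), (1, 7), (7, 2), (4, 5), (6, 3)], [3, 2, 7, 4, 5, 1, 0, 6], 7),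
   ([(0, 2), (1, 3), (4, 5), (0, 6), (1, 7), (6, 3), (7, 2), (4, 5)], [2, 3, 5, 4, 7, 0, 6, 1], 6),
   ([(0, 2), (1, 3), (4, 5), (0, 6), (2, 3), (6, 1), (7, 7), (4, 5)], [2, 1, 3, 7, 0, 4, 6, 5], 8),
   ([(0, 2), (1, 3), (4, 5), (0, 6), (2, 7), (7, 1), (4, 5), (6, 3)], [3, 2, 7, 4, 1, 5, 0, 6], 7),
   ([(0, 2), (1, 3), (4, 5), (0, 6), (3, 7), (6, 1), (7, 2), (4, 5)], [2, 3, 5, 4, 0, 7, 6, 1], 18),
   ([(0, 2), (1, 3), (4, 5), (0, 6), (7, 7), (6, 1), (4, 5), (2, 3)], [1, 2, 4, 7, 5, 3, 0, 6], 9),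
   ([(0, 2), (1, 3), (4, 5), (0, 6), (7, 7), (1, 2), (4, 5), (6, 3)], [1, 3, 5, 2, 7, 4, 0, 6], 4),
   ([(0, 2), (1, 3), (4, 5), (2, 6), (6, 1), (3, 7), (7, 0), (4, 5)], [4, 3, 2, 0, 6, 5, 1, 7], 20),
   ([(0, 2), (1, 3), (4, 5), (2, 6), (6, 3), (1, 7), (7, 0), (4, 5)], [4, 5, 2, 0, 7, 3, 6, 1], 1),
   ([(0, 2), (1, 3), (4, 5), (2, 6), (6, 7), (1, 3), (7, 0), (4, 5)], [6, 7, 1, 5, 4, 2, 3, 0], 15),
   ([(0, 2), (1, 3), (4, 5), (2, 6), (1, 3), (6, 7), (7, 0), (4, 5)], [6, 7, 1, 5, 2, 4, 3, 0], 15),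
   ([(0, 2), (1, 3), (4, 5), (2, 6), (1, 7), (6, 3), (7, 0), (4, 5)], [4, 5, 2, 0, 3, 7, 6, 1], 1),
   ([(0, 2), (1, 3), (4, 5), (2, 6), (3, 7), (6, 1), (7, 0), (4, 5)], [4, 3, 2, 0, 5, 6, 1, 7], 20),
   ([(0, 2), (1, 3), (4, 5), (6, 7), (6, 7), (4, 1), (5, 0), (2, 3)], [4, 5, 6, 3, 7, 0, 2, 1], 0),
   ([(0, 2), (1, 3), (4, 5), (6, 7), (6, 7), (4, 1), (5, 2), (0, 3)], [5, 7, 6, 1, 2, 3, 4, 0], 17),
   ([(0, 2), (1, 3), (4, 5), (6, 7), (6, 7), (4, 1), (5, 3), (0, 2)], [1, 5, 2, 3, 7, 4, 6, 0], 13),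
   ([(0, 2), (1, 3), (4, 5), (6, 7), (6, 7), (4, 1), (0, 2), (5, 3)], [1, 5, 2, 3, 7, 4, 0, 6], 13),
   ([(0, 2), (1, 3), (4, 5), (6, 7), (6, 7), (4, 1), (0, 3), (5, 2)], [5, 7, 6, 1, 2, 3, 0, 4], 17),
   ([(0, 2), (1, 3), (4, 5), (6, 7), (6, 7), (4, 1), (2, 3), (5, 0)], [4, 5, 6, 3, 7, 0, 1, 2], 0),
   ([(0, 2), (1, 3), (4, 5), (6, 7), (6, 7), (1, 3), (4, 5), (0, 2)], [0, 4, 5, 3, 7, 2, 1, 6], 21),
   ([(0, 2), (1, 3), (4, 5), (6, 7), (6, 7), (1, 3), (4, 0), (5, 2)], [5, 1, 4, 0, 6, 2, 3, 7], 12),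
   ([(0, 2), (1, 3), (4, 5), (6, 7), (6, 7), (1, 3), (4, 2), (5, 0)], [6, 7, 3, 2, 4, 5, 0, 1], 14),
   ([(0, 2), (1, 3), (4, 5), (6, 7), (6, 7), (1, 3), (5, 0), (4, 2)], [6, 7, 3, 2, 4, 5, 1, 0], 14),
   ([(0, 2), (1, 3), (4, 5), (6, 7), (6, 7), (1, 3), (5, 2), (4, 0)], [5, 1, 4, 0, 6, 2, 7, 3], 12),
   ([(0, 2), (1, 3), (4, 5), (6, 7), (6, 7), (1, 3), (0, 2), (4, 5)], [0, 4, 5, 3, 7, 2, 6, 1], 21),
   ([(0, 2), (1, 3), (4, 5), (6, 7), (6, 1), (7, 3), (4, 5), (0, 2)], [1, 5, 0, 4, 3, 7, 6, 2], 12),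
   ([(0, 2), (1, 3), (4, 5), (6, 7), (6, 1), (7, 3), (0, 2), (4, 5)], [7, 6, 2, 3, 1, 0, 5, 4], 14),
   ([(0, 2), (1, 3), (4, 5), (6, 7), (6, 1), (2, 3), (7, 0), (4, 5)], [5, 4, 3, 6, 2, 1, 0, 7], 0),
   ([(0, 2), (1, 3), (4, 5), (6, 7), (6, 2), (1, 3), (7, 0), (4, 5)], [5, 1, 3, 2, 6, 0, 4, 7], 13),
   ([(0, 2), (1, 3), (4, 5), (6, 7), (6, 3), (7, 1), (4, 5), (0, 2)], [7, 6, 2, 3, 0, 1, 4, 5], 14),
   ([(0, 2), (1, 3), (4, 5), (6, 7), (6, 3), (7, 1), (0, 2), (4, 5)], [1, 5, 0, 4, 7, 3, 2, 6], 12),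
   ([(0, 2), (1, 3), (4, 5), (6, 7), (6, 3), (1, 2), (7, 0), (4, 5)], [7, 5, 1, 6, 4, 0, 3, 2], 17),
   ([(0, 2), (1, 3), (4, 5), (6, 7), (7, 1), (6, 3), (4, 5), (0, 2)], [7, 6, 2, 3, 1, 0, 4, 5], 14),
   ([(0, 2), (1, 3), (4, 5), (6, 7), (7, 1), (6, 3), (0, 2), (4, 5)], [1, 5, 0, 4, 3, 7, 2, 6], 12),
   ([(0, 2), (1, 3), (4, 5), (6, 7), (7, 1), (2, 3), (4, 5), (6, 0)], [5, 4, 3, 6, 2, 1, 7, 0], 0),
   ([(0, 2), (1, 3), (4, 5), (6, 7), (7, 2), (1, 3), (4, 5), (6, 0)], [5, 1, 3, 2, 6, 0, 7, 4], 13),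
   ([(0, 2), (1, 3), (4, 5), (6, 7), (7, 3), (6, 1), (4, 5), (0, 2)], [1, 5, 0, 4, 7, 3, 6, 2], 12),
   ([(0, 2), (1, 3), (4, 5), (6, 7), (7, 3), (6, 1), (0, 2), (4, 5)], [7, 6, 2, 3, 0, 1, 5, 4], 14),
   ([(0, 2), (1, 3), (4, 5), (6, 7), (7, 3), (1, 2), (4, 5), (6, 0)], [7, 5, 1, 6, 4, 0, 2, 3], 17),
   ([(0, 2), (1, 3), (4, 5), (6, 7), (5, 1), (6, 7), (4, 0), (2, 3)], [4, 5, 6, 3, 0, 7, 2, 1], 0),
   ([(0, 2), (1, 3), (4, 5), (6, 7), (5, 1), (6, 7), (4, 2), (0, 3)], [5, 7, 6, 1, 3, 2, 4, 0], 17),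
   ([(0, 2), (1, 3), (4, 5), (6, 7), (5, 1), (6, 7), (4, 3), (0, 2)], [1, 5, 2, 3, 4, 7, 6, 0], 13),
   ([(0, 2), (1, 3), (4, 5), (6, 7), (5, 1), (6, 7), (0, 2), (4, 3)], [1, 5, 2, 3, 4, 7, 0, 6], 13),
   ([(0, 2), (1, 3), (4, 5), (6, 7), (5, 1), (6, 7), (0, 3), (4, 2)], [5, 7, 6, 1, 3, 2, 0, 4], 17),
   ([(0, 2), (1, 3), (4, 5), (6, 7), (5, 1), (6, 7), (2, 3), (4, 0)], [4, 5, 6, 3, 0, 7, 1, 2], 0),
   ([(0, 2), (1, 3), (4, 5), (6, 7), (1, 2), (6, 3), (7, 0), (4, 5)], [7, 5, 1, 6, 0, 4, 3, 2], 17),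
   ([(0, 2), (1, 3), (4, 5), (6, 7), (1, 2), (7, 3), (4, 5), (6, 0)], [7, 5, 1, 6, 0, 4, 2, 3], 17),
   ([(0, 2), (1, 3), (4, 5), (6, 7), (1, 3), (6, 7), (4, 5), (0, 2)], [0, 4, 5, 3, 2, 7, 1, 6], 21),
   ([(0, 2), (1, 3), (4, 5), (6, 7), (1, 3), (6, 7), (4, 0), (5, 2)], [6, 7, 3, 2, 5, 4, 1, 0], 14),
   ([(0, 2), (1, 3), (4, 5), (6, 7), (1, 3), (6, 7), (4, 2), (5, 0)], [5, 1, 4, 0, 2, 6, 7, 3], 12),
   ([(0, 2), (1, 3), (4, 5), (6, 7), (1, 3), (6, 7), (5, 0), (4, 2)], [5, 1, 4, 0, 2, 6, 3, 7], 12),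
   ([(0, 2), (1, 3), (4, 5), (6, 7), (1, 3), (6, 7), (5, 2), (4, 0)], [6, 7, 3, 2, 5, 4, 0, 1], 14),
   ([(0, 2), (1, 3), (4, 5), (6, 7), (1, 3), (6, 7), (0, 2), (4, 5)], [0, 4, 5, 3, 2, 7, 6, 1], 21),
   ([(0, 2), (1, 3), (4, 5), (6, 7), (1, 3), (6, 2), (7, 0), (4, 5)], [5, 1, 3, 2, 0, 6, 4, 7], 13),
   ([(0, 2), (1, 3), (4, 5), (6, 7), (1, 3), (7, 2), (4, 5), (6, 0)], [5, 1, 3, 2, 0, 6, 7, 4], 13),
   ([(0, 2), (1, 3), (4, 5), (6, 7), (2, 3), (6, 1), (7, 0), (4, 5)], [5, 4, 3, 6, 1, 2, 0, 7], 0),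
   ([(0, 2), (1, 3), (4, 5), (6, 7), (2, 3), (7, 1), (4, 5), (6, 0)], [5, 4, 3, 6, 1, 2, 7, 0], 0)]

/-- States after two more rows, for `n = 8`, group 0. -/
def pref0 : List (List (ℕ × ℕ) × List (ℕ × ℕ) × ℕ) :=
  [([(2, 4), (0, 3), (1, 2), (0, 1)], [(4, 1), (3, 1)], 5),
   ([(4, 4), (0, 3), (1, 2), (0, 1)], [(3, 1), (2, 1)], 5),
   ([(4, 5), (0, 3), (1, 2), (0, 1)], [(4, 1), (5, 1), (3, 1), (2, 1)], 6),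
   ([(0, 2), (3, 3), (1, 2), (0, 1)], [], 4),
   ([(0, 4), (3, 3), (1, 2), (0, 1)], [(4, 1), (2, 1)], 5),
   ([(2, 4), (3, 3), (1, 2), (0, 1)], [(4, 1), (0, 1)], 5),
   ([(4, 4), (3, 3), (1, 2), (0, 1)], [(0, 1), (2, 1)], 5),
   ([(4, 5), (3, 3), (1, 2), (0, 1)], [(4, 1), (5, 1), (0, 1), (2, 1)], 6),
   ([(4, 0), (3, 4), (1, 2), (0, 1)], [(3, 1), (2, 1)], 5),
   ([(4, 2), (3, 4), (1, 2), (0, 1)], [(3, 1), (0, 1)], 5)]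

/-- States after two more rows, for `n = 8`, group 1. -/
def pref1 : List (List (ℕ × ℕ) × List (ℕ × ℕ) × ℕ) :=
  [([(4, 5), (3, 4), (1, 2), (0, 1)], [(5, 1), (3, 1), (0, 1), (2, 1)], 6),
   ([(0, 2), (3, 4), (1, 2), (0, 1)], [(3, 1), (4, 1)], 5),
   ([(0, 5), (3, 4), (1, 2), (0, 1)], [(5, 1), (3, 1), (4, 1), (2, 1)], 6),
   ([(2, 5), (3, 4), (1, 2), (0, 1)], [(5, 1), (3, 1), (4, 1), (0, 1)], 6)]

/-- States after two more rows, for `n = 8`, group 2. -/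
def pref2 : List (List (ℕ × ℕ) × List (ℕ × ℕ) × ℕ) :=
  [([(5, 5), (3, 4), (1, 2), (0, 1)], [(3, 1), (4, 1), (0, 1), (2, 1)], 6)]

/-- States after two more rows, for `n = 8`, group 3. -/
def pref3 : List (List (ℕ × ℕ) × List (ℕ × ℕ) × ℕ) :=
  [([(5, 6), (3, 4), (1, 2), (0, 1)], [(5, 1), (6, 1), (3, 1), (4, 1), (0, 1), (2, 1)], 7),
   ([(2, 4), (1, 3), (0, 1), (0, 2)], [(4, 1), (3, 1)], 5),
   ([(4, 4), (1, 3), (0, 1), (0, 2)], [(3, 1), (2, 1)], 5)]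

/-- States after two more rows, for `n = 8`, group 4. -/
def pref4 : List (List (ℕ × ℕ) × List (ℕ × ℕ) × ℕ) :=
  [([(4, 5), (1, 3), (0, 1), (0, 2)], [(4, 1), (5, 1), (3, 1), (2, 1)], 6),
   ([(1, 2), (3, 3), (0, 1), (0, 2)], [], 4),
   ([(1, 4), (3, 3), (0, 1), (0, 2)], [(4, 1), (2, 1)], 5),
   ([(2, 4), (3, 3), (0, 1), (0, 2)], [(4, 1), (1, 1)], 5),
   ([(4, 4), (3, 3), (0, 1), (0, 2)], [(1, 1), (2, 1)], 5),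
   ([(4, 5), (3, 3), (0, 1), (0, 2)], [(4, 1), (5, 1), (1, 1), (2, 1)], 6),
   ([(4, 1), (3, 4), (0, 1), (0, 2)], [(3, 1), (2, 1)], 5),
   ([(4, 2), (3, 4), (0, 1), (0, 2)], [(3, 1), (1, 1)], 5)]

/-- States after two more rows, for `n = 8`, group 5. -/
def pref5 : List (List (ℕ × ℕ) × List (ℕ × ℕ) × ℕ) :=
  [([(4, 5), (3, 4), (0, 1), (0, 2)], [(5, 1), (3, 1), (1, 1), (2, 1)], 6),
   ([(1, 2), (3, 4), (0, 1), (0, 2)], [(3, 1), (4, 1)], 5),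
   ([(1, 5), (3, 4), (0, 1), (0, 2)], [(5, 1), (3, 1), (4, 1), (2, 1)], 6),
   ([(2, 5), (3, 4), (0, 1), (0, 2)], [(5, 1), (3, 1), (4, 1), (1, 1)], 6)]

/-- States after two more rows, for `n = 8`, group 6. -/
def pref6 : List (List (ℕ × ℕ) × List (ℕ × ℕ) × ℕ) :=
  [([(5, 5), (3, 4), (0, 1), (0, 2)], [(3, 1), (4, 1), (1, 1), (2, 1)], 6)]

/-- States after two more rows, for `n = 8`, group 7. -/
def pref7 : List (List (ℕ × ℕ) × List (ℕ × ℕ) × ℕ) :=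
  [([(5, 6), (3, 4), (0, 1), (0, 2)], [(5, 1), (6, 1), (3, 1), (4, 1), (1, 1), (2, 1)], 7),
   ([(1, 4), (0, 3), (1, 2), (0, 2)], [(4, 1), (3, 1)], 5),
   ([(4, 4), (0, 3), (1, 2), (0, 2)], [(3, 1), (1, 1)], 5)]

/-- States after two more rows, for `n = 8`, group 8. -/
def pref8 : List (List (ℕ × ℕ) × List (ℕ × ℕ) × ℕ) :=
  [([(4, 5), (0, 3), (1, 2), (0, 2)], [(4, 1), (5, 1), (3, 1), (1, 1)], 6),
   ([(0, 4), (1, 3), (1, 2), (0, 2)], [(4, 1), (3, 1)], 5),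
   ([(4, 4), (1, 3), (1, 2), (0, 2)], [(3, 1), (0, 1)], 5),
   ([(4, 5), (1, 3), (1, 2), (0, 2)], [(4, 1), (5, 1), (3, 1), (0, 1)], 6),
   ([(0, 1), (3, 3), (1, 2), (0, 2)], [], 4),
   ([(0, 4), (3, 3), (1, 2), (0, 2)], [(4, 1), (1, 1)], 5),
   ([(1, 4), (3, 3), (1, 2), (0, 2)], [(4, 1), (0, 1)], 5),
   ([(4, 4), (3, 3), (1, 2), (0, 2)], [(0, 1), (1, 1)], 5),
   ([(4, 5), (3, 3), (1, 2), (0, 2)], [(4, 1), (5, 1), (0, 1), (1, 1)], 6)]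

/-- States after two more rows, for `n = 8`, group 9. -/
def pref9 : List (List (ℕ × ℕ) × List (ℕ × ℕ) × ℕ) :=
  [([(4, 0), (3, 4), (1, 2), (0, 2)], [(3, 1), (1, 1)], 5),
   ([(4, 1), (3, 4), (1, 2), (0, 2)], [(3, 1), (0, 1)], 5),
   ([(4, 5), (3, 4), (1, 2), (0, 2)], [(5, 1), (3, 1), (0, 1), (1, 1)], 6),
   ([(0, 1), (3, 4), (1, 2), (0, 2)], [(3, 1), (4, 1)], 5),
   ([(0, 5), (3, 4), (1, 2), (0, 2)], [(5, 1), (3, 1), (4, 1), (1, 1)], 6),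
   ([(1, 5), (3, 4), (1, 2), (0, 2)], [(5, 1), (3, 1), (4, 1), (0, 1)], 6)]

/-- States after two more rows, for `n = 8`, group 10. -/
def pref10 : List (List (ℕ × ℕ) × List (ℕ × ℕ) × ℕ) :=
  [([(5, 5), (3, 4), (1, 2), (0, 2)], [(3, 1), (4, 1), (0, 1), (1, 1)], 6)]

/-- States after two more rows, for `n = 8`, group 11. -/
def pref11 : List (List (ℕ × ℕ) × List (ℕ × ℕ) × ℕ) :=
  [([(5, 6), (3, 4), (1, 2), (0, 2)], [(5, 1), (6, 1), (3, 1), (4, 1), (0, 1), (1, 1)], 7),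
   ([(2, 4), (0, 1), (1, 3), (0, 2)], [(4, 1), (3, 1)], 5),
   ([(4, 4), (0, 1), (1, 3), (0, 2)], [(2, 1), (3, 1)], 5)]

/-- States after two more rows, for `n = 8`, group 12. -/
def pref12 : List (List (ℕ × ℕ) × List (ℕ × ℕ) × ℕ) :=
  [([(4, 5), (0, 1), (1, 3), (0, 2)], [(4, 1), (5, 1), (2, 1), (3, 1)], 6),
   ([(1, 2), (0, 3), (1, 3), (0, 2)], [], 4),
   ([(1, 4), (0, 3), (1, 3), (0, 2)], [(4, 1), (2, 1)], 5),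
   ([(2, 4), (0, 3), (1, 3), (0, 2)], [(4, 1), (1, 1)], 5),
   ([(4, 4), (0, 3), (1, 3), (0, 2)], [(1, 1), (2, 1)], 5),
   ([(4, 5), (0, 3), (1, 3), (0, 2)], [(4, 1), (5, 1), (1, 1), (2, 1)], 6),
   ([(4, 1), (0, 4), (1, 3), (0, 2)], [(2, 1), (3, 1)], 5),
   ([(4, 2), (0, 4), (1, 3), (0, 2)], [(1, 1), (3, 1)], 5)]

/-- States after two more rows, for `n = 8`, group 13. -/
def pref13 : List (List (ℕ × ℕ) × List (ℕ × ℕ) × ℕ) :=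
  [([(4, 5), (0, 4), (1, 3), (0, 2)], [(5, 1), (1, 1), (2, 1), (3, 1)], 6),
   ([(1, 2), (0, 4), (1, 3), (0, 2)], [(4, 1), (3, 1)], 5),
   ([(1, 5), (0, 4), (1, 3), (0, 2)], [(5, 1), (4, 1), (2, 1), (3, 1)], 6),
   ([(2, 5), (0, 4), (1, 3), (0, 2)], [(5, 1), (4, 1), (1, 1), (3, 1)], 6)]

/-- States after two more rows, for `n = 8`, group 14. -/
def pref14 : List (List (ℕ × ℕ) × List (ℕ × ℕ) × ℕ) :=
  [([(5, 5), (0, 4), (1, 3), (0, 2)], [(4, 1), (1, 1), (2, 1), (3, 1)], 6)]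

/-- States after two more rows, for `n = 8`, group 15. -/
def pref15 : List (List (ℕ × ℕ) × List (ℕ × ℕ) × ℕ) :=
  [([(5, 6), (0, 4), (1, 3), (0, 2)], [(5, 1), (6, 1), (4, 1), (1, 1), (2, 1), (3, 1)], 7),
   ([(0, 2), (1, 3), (1, 3), (0, 2)], [], 4),
   ([(0, 4), (1, 3), (1, 3), (0, 2)], [(4, 1), (2, 1)], 5),
   ([(2, 4), (1, 3), (1, 3), (0, 2)], [(4, 1), (0, 1)], 5),
   ([(4, 4), (1, 3), (1, 3), (0, 2)], [(0, 1), (2, 1)], 5)]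

/-- States after two more rows, for `n = 8`, group 16. -/
def pref16 : List (List (ℕ × ℕ) × List (ℕ × ℕ) × ℕ) :=
  [([(4, 5), (1, 3), (1, 3), (0, 2)], [(4, 1), (5, 1), (0, 1), (2, 1)], 6),
   ([(4, 0), (1, 4), (1, 3), (0, 2)], [(2, 1), (3, 1)], 5),
   ([(4, 2), (1, 4), (1, 3), (0, 2)], [(0, 1), (3, 1)], 5),
   ([(4, 5), (1, 4), (1, 3), (0, 2)], [(5, 1), (0, 1), (2, 1), (3, 1)], 6),
   ([(0, 2), (1, 4), (1, 3), (0, 2)], [(4, 1), (3, 1)], 5),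
   ([(0, 5), (1, 4), (1, 3), (0, 2)], [(5, 1), (4, 1), (2, 1), (3, 1)], 6)]

/-- States after two more rows, for `n = 8`, group 17. -/
def pref17 : List (List (ℕ × ℕ) × List (ℕ × ℕ) × ℕ) :=
  [([(2, 5), (1, 4), (1, 3), (0, 2)], [(5, 1), (4, 1), (0, 1), (3, 1)], 6),
   ([(5, 5), (1, 4), (1, 3), (0, 2)], [(4, 1), (0, 1), (2, 1), (3, 1)], 6)]

/-- States after two more rows, for `n = 8`, group 18. -/
def pref18 : List (List (ℕ × ℕ) × List (ℕ × ℕ) × ℕ) :=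
  [([(5, 6), (1, 4), (1, 3), (0, 2)], [(5, 1), (6, 1), (4, 1), (0, 1), (2, 1), (3, 1)], 7),
   ([(4, 0), (3, 4), (1, 3), (0, 2)], [(1, 1), (2, 1)], 5),
   ([(4, 1), (3, 4), (1, 3), (0, 2)], [(0, 1), (2, 1)], 5),
   ([(4, 2), (3, 4), (1, 3), (0, 2)], [(0, 1), (1, 1)], 5)]

/-- States after two more rows, for `n = 8`, group 19. -/
def pref19 : List (List (ℕ × ℕ) × List (ℕ × ℕ) × ℕ) :=
  [([(4, 5), (3, 4), (1, 3), (0, 2)], [(5, 1), (0, 1), (1, 1), (2, 1)], 6),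
   ([(0, 1), (3, 4), (1, 3), (0, 2)], [(4, 1), (2, 1)], 5),
   ([(0, 2), (3, 4), (1, 3), (0, 2)], [(4, 1), (1, 1)], 5),
   ([(0, 5), (3, 4), (1, 3), (0, 2)], [(5, 1), (4, 1), (1, 1), (2, 1)], 6),
   ([(1, 2), (3, 4), (1, 3), (0, 2)], [(4, 1), (0, 1)], 5),
   ([(1, 5), (3, 4), (1, 3), (0, 2)], [(5, 1), (4, 1), (0, 1), (2, 1)], 6)]

/-- States after two more rows, for `n = 8`, group 20. -/
def pref20 : List (List (ℕ × ℕ) × List (ℕ × ℕ) × ℕ) :=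
  [([(2, 5), (3, 4), (1, 3), (0, 2)], [(5, 1), (4, 1), (0, 1), (1, 1)], 6),
   ([(5, 5), (3, 4), (1, 3), (0, 2)], [(4, 1), (0, 1), (1, 1), (2, 1)], 6)]

/-- States after two more rows, for `n = 8`, group 21. -/
def pref21 : List (List (ℕ × ℕ) × List (ℕ × ℕ) × ℕ) :=
  [([(5, 6), (3, 4), (1, 3), (0, 2)], [(5, 1), (6, 1), (4, 1), (0, 1), (1, 1), (2, 1)], 7),
   ([(0, 1), (4, 4), (1, 3), (0, 2)], [(2, 1), (3, 1)], 5),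
   ([(0, 2), (4, 4), (1, 3), (0, 2)], [(1, 1), (3, 1)], 5)]

/-- States after two more rows, for `n = 8`, group 22. -/
def pref22 : List (List (ℕ × ℕ) × List (ℕ × ℕ) × ℕ) :=
  [([(0, 5), (4, 4), (1, 3), (0, 2)], [(5, 1), (1, 1), (2, 1), (3, 1)], 6),
   ([(1, 2), (4, 4), (1, 3), (0, 2)], [(0, 1), (3, 1)], 5),
   ([(1, 5), (4, 4), (1, 3), (0, 2)], [(5, 1), (0, 1), (2, 1), (3, 1)], 6),
   ([(2, 5), (4, 4), (1, 3), (0, 2)], [(5, 1), (0, 1), (1, 1), (3, 1)], 6)]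

/-- States after two more rows, for `n = 8`, group 23. -/
def pref23 : List (List (ℕ × ℕ) × List (ℕ × ℕ) × ℕ) :=
  [([(5, 5), (4, 4), (1, 3), (0, 2)], [(0, 1), (1, 1), (2, 1), (3, 1)], 6)]

/-- States after two more rows, for `n = 8`, group 24. -/
def pref24 : List (List (ℕ × ℕ) × List (ℕ × ℕ) × ℕ) :=
  [([(5, 6), (4, 4), (1, 3), (0, 2)], [(5, 1), (6, 1), (0, 1), (1, 1), (2, 1), (3, 1)], 7)]

/-- States after two more rows, for `n = 8`, group 25. -/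
def pref25 : List (List (ℕ × ℕ) × List (ℕ × ℕ) × ℕ) :=
  [([(4, 5), (4, 5), (1, 3), (0, 2)], [(0, 1), (1, 1), (2, 1), (3, 1)], 6),
   ([(4, 0), (4, 5), (1, 3), (0, 2)], [(5, 1), (1, 1), (2, 1), (3, 1)], 6),
   ([(4, 1), (4, 5), (1, 3), (0, 2)], [(5, 1), (0, 1), (2, 1), (3, 1)], 6)]

/-- States after two more rows, for `n = 8`, group 26. -/
def pref26 : List (List (ℕ × ℕ) × List (ℕ × ℕ) × ℕ) :=
  [([(4, 2), (4, 5), (1, 3), (0, 2)], [(5, 1), (0, 1), (1, 1), (3, 1)], 6)]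

/-- States after two more rows, for `n = 8`, group 27. -/
def pref27 : List (List (ℕ × ℕ) × List (ℕ × ℕ) × ℕ) :=
  [([(4, 6), (4, 5), (1, 3), (0, 2)], [(6, 1), (5, 1), (0, 1), (1, 1), (2, 1), (3, 1)], 7)]

/-- States after two more rows, for `n = 8`, group 28. -/
def pref28 : List (List (ℕ × ℕ) × List (ℕ × ℕ) × ℕ) :=
  [([(5, 0), (4, 5), (1, 3), (0, 2)], [(4, 1), (1, 1), (2, 1), (3, 1)], 6),
   ([(5, 1), (4, 5), (1, 3), (0, 2)], [(4, 1), (0, 1), (2, 1), (3, 1)], 6),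
   ([(5, 2), (4, 5), (1, 3), (0, 2)], [(4, 1), (0, 1), (1, 1), (3, 1)], 6)]

/-- States after two more rows, for `n = 8`, group 29. -/
def pref29 : List (List (ℕ × ℕ) × List (ℕ × ℕ) × ℕ) :=
  [([(5, 6), (4, 5), (1, 3), (0, 2)], [(6, 1), (4, 1), (0, 1), (1, 1), (2, 1), (3, 1)], 7)]

/-- States after two more rows, for `n = 8`, group 30. -/
def pref30 : List (List (ℕ × ℕ) × List (ℕ × ℕ) × ℕ) :=
  [([(0, 1), (4, 5), (1, 3), (0, 2)], [(4, 1), (5, 1), (2, 1), (3, 1)], 6),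
   ([(0, 2), (4, 5), (1, 3), (0, 2)], [(4, 1), (5, 1), (1, 1), (3, 1)], 6)]

/-- States after two more rows, for `n = 8`, group 31. -/
def pref31 : List (List (ℕ × ℕ) × List (ℕ × ℕ) × ℕ) :=
  [([(0, 6), (4, 5), (1, 3), (0, 2)], [(6, 1), (4, 1), (5, 1), (1, 1), (2, 1), (3, 1)], 7),
   ([(1, 2), (4, 5), (1, 3), (0, 2)], [(4, 1), (5, 1), (0, 1), (3, 1)], 6)]

/-- States after two more rows, for `n = 8`, group 32. -/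
def pref32 : List (List (ℕ × ℕ) × List (ℕ × ℕ) × ℕ) :=
  [([(1, 6), (4, 5), (1, 3), (0, 2)], [(6, 1), (4, 1), (5, 1), (0, 1), (2, 1), (3, 1)], 7)]

/-- States after two more rows, for `n = 8`, group 33. -/
def pref33 : List (List (ℕ × ℕ) × List (ℕ × ℕ) × ℕ) :=
  [([(2, 6), (4, 5), (1, 3), (0, 2)], [(6, 1), (4, 1), (5, 1), (0, 1), (1, 1), (3, 1)], 7)]

/-- States after two more rows, for `n = 8`, group 34. -/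
def pref34 : List (List (ℕ × ℕ) × List (ℕ × ℕ) × ℕ) :=
  [([(6, 6), (4, 5), (1, 3), (0, 2)], [(4, 1), (5, 1), (0, 1), (1, 1), (2, 1), (3, 1)], 7)]

/-- States after two more rows, for `n = 8`, group 35. -/
def pref35 : List (List (ℕ × ℕ) × List (ℕ × ℕ) × ℕ) :=
  [([(6, 7), (4, 5), (1, 3), (0, 2)], [(6, 1), (7, 1), (4, 1), (5, 1), (0, 1), (1, 1), (2, 1), (3, 1)], 8)]

/-- All these states. -/
def pref : List (List (ℕ × ℕ) × List (ℕ × ℕ) × ℕ) :=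
  pref0 ++ pref1 ++ pref2 ++ pref3 ++ pref4 ++ pref5 ++ pref6 ++ pref7 ++ pref8 ++ pref9 ++ pref10 ++ pref11 ++ pref12 ++ pref13 ++ pref14 ++ pref15 ++ pref16 ++ pref17 ++ pref18 ++ pref19 ++ pref20 ++ pref21 ++ pref22 ++ pref23 ++ pref24 ++ pref25 ++ pref26 ++ pref27 ++ pref28 ++ pref29 ++ pref30 ++ pref31 ++ pref32 ++ pref33 ++ pref34 ++ pref35

/-- The enumeration starting from a given state. -/
noncomputable def goP (x : List (ℕ × ℕ) × List (ℕ × ℕ) × ℕ) : Bool :=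
  go (leaf reps certs8 8) 8 4 x.1 x.2.1 4 x.2.2

/-- `goP` on a list. -/
noncomputable def allP : List (List (ℕ × ℕ) × List (ℕ × ℕ) × ℕ) → Bool
  | [] => true
  | x :: l => goP x && allP l

end Pool.Agent.H73AM
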