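import Mathlib

/-!
# Strong shift equivalence and shift equivalence over `ℕ`: definitions
-/

set_option autoImplicit false

namespace Pool.Agent.H73AM

open Matrix

/-- Elementary equivalence of square matrices over `ℕ`: `A = R S`, `B = S R` for rectangular
matrices `R`, `S` over `ℕ`. -/
def Elem (X Y : Σ n : ℕ, Matrix (Fin n) (Fin n) ℕ) : Prop :=
  ∃ (R : Matrix (Fin X.1) (Fin Y.1) ℕ) (S : Matrix (Fin Y.1) (Fin X.1) ℕ),
    X.2 = R * S ∧ Y.2 = S * R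

/-- Strong shift equivalence over `ℕ` (a finite chain of elementary equivalences). -/
def SSE {n m : ℕ} (A : Matrix (Fin n) (Fin n) ℕ) (B : Matrix (Fin m) (Fin m) ℕ) : Prop :=
  Relation.TransGen Elem ⟨n, A⟩ ⟨m, B⟩

/-- Shift equivalence over `ℕ`. -/
def SE {n m : ℕ} (A : Matrix (Fin n) (Fin n) ℕ) (B : Matrix (Fin m) (Fin m) ℕ) : Prop :=
  ∃ (l : ℕ) (R : Matrix (Fin n) (Fin m) ℕ) (S : Matrix (Fin m) (Fin n) ℕ),
    1 ≤ l ∧ A ^ l = R * S ∧ B ^ l = S * R ∧ A * R = R * B ∧ S * A = B * S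

/-- Shift equivalence of lag `l` over `ℕ`. -/
def SELag (l : ℕ) {n m : ℕ} (A : Matrix (Fin n) (Fin n) ℕ) (B : Matrix (Fin m) (Fin m) ℕ) :
    Prop :=
  ∃ (R : Matrix (Fin n) (Fin m) ℕ) (S : Matrix (Fin m) (Fin n) ℕ),
    A ^ l = R * S ∧ B ^ l = S * R ∧ A * R = R * B ∧ S * A = B * S

/-- The `1 × 1` matrix `[k]`, whose edge shift is the full shift on `k` symbols. -/
def full (k : ℕ) : Matrix (Fin 1) (Fin 1) ℕ := !![k]

/-- The `1 × 1` matrix `[2]`, whose edge shift is the full 2-shift. -/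
def two : Matrix (Fin 1) (Fin 1) ℕ := !![2]

/-- Ashley's `8 × 8` matrix: the sum of the permutation matrices of the cycle `(1 2 3 4 5 6 7 8)`
and of `(1)(2)(3 7 4 8 6 5)`. -/
def ashley : Matrix (Fin 8) (Fin 8) ℕ :=
  !![1, 1, 0, 0, 0, 0, 0, 0;
     0, 1, 1, 0, 0, 0, 0, 0;
     0, 0, 0, 1, 0, 0, 1, 0;
     0, 0, 0, 0, 1, 0, 0, 1;
     0, 0, 1, 0, 0, 1, 0, 0;
     0, 0, 0, 0, 1, 0, 1, 0;
     0, 0, 0, 1, 0, 0, 0, 1;
     1, 0, 0, 0, 0, 1, 0, 0]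

end Pool.Agent.H73AM
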