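import Pool.Agent.H73AM.Red

/-!
# Reduction to doubly stochastic matrices: removing zero rows and columns, both sides
-/

set_option autoImplicit false

namespace Pool.Agent.H73AM

open Matrix

theorem full_pow (k l : ℕ) : (full k ^ l) 0 0 = k ^ l := by
  induction l with
  | zero => simp
  | succ l ih =>
    have h0 : full k 0 0 = k := rfl
    rw [pow_succ, Matrix.mul_apply]
    simp only [Finset.univ_unique, Fin.default_eq_zero, Finset.sum_singleton, ih, h0]
    rw [pow_succ]

theorem remove_row {m : ℕ} (A : Matrix (Fin (m + 1)) (Fin (m + 1)) ℕ) (i : Fin (m + 1))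
    (h : ∀ j, A i j = 0) : SSE A (Matrix.of fun x y => A (i.succAbove x) (i.succAbove y)) := by
  refine SSE.of_elem (Matrix.of fun j x => if i.succAbove x = j then 1 else 0)
    (Matrix.of fun x l => A (i.succAbove x) l) ?_ ?_
  · ext j l
    rw [Matrix.mul_apply]
    simp only [Matrix.of_apply]
    by_cases hj : j = i
    · subst hj
      rw [h l]
      symm
      apply Finset.sum_eq_zero
      intro x _
      rw [if_neg (Fin.succAbove_ne j x), zero_mul]
    · obtain ⟨x, hx⟩ := Fin.exists_succAbove_eq hj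
      rw [Finset.sum_eq_single x]
      · rw [if_pos hx, one_mul, hx]
      · intro b _ hb
        rw [if_neg, zero_mul]
        intro h'
        exact hb (Fin.succAbove_right_injective (h'.trans hx.symm))
      · simp
  · ext x y
    rw [Matrix.mul_apply]
    simp

theorem remove_col {m : ℕ} (A : Matrix (Fin (m + 1)) (Fin (m + 1)) ℕ) (i : Fin (m + 1))
    (h : ∀ j, A j i = 0) : SSE A (Matrix.of fun x y => A (i.succAbove x) (i.succAbove y)) := by
  have h1 := (remove_row Aᵀ i (fun j => h j)).transpose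
  rw [Matrix.transpose_transpose] at h1
  exact h1

theorem sum_remove {m : ℕ} (i : Fin (m + 1)) (f : Fin (m + 1) → ℕ) (h : f i = 0) :
    ∑ x, f (i.succAbove x) = ∑ y, f y := by
  rw [Fin.sum_univ_succAbove f i, h, zero_add]

/-- Removing zero rows and columns. -/
theorem ess (k : ℕ) (hk : 1 ≤ k) : ∀ (n : ℕ) (A : Matrix (Fin n) (Fin n) ℕ), SE A (full k) →
    ∀ u v : Fin n → ℕ, (∀ i, ∑ j, A i j * u j = k * u i) → (∀ j, ∑ i, v i * A i j = k * v j) →
    ∃ (m : ℕ) (B : Matrix (Fin m) (Fin m) ℕ) (u' v' : Fin m → ℕ), SSE A B ∧ Prim B ∧ 0 < m ∧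
      (∀ i, ∑ j, B i j * u' j = k * u' i) ∧ (∀ j, ∑ i, v' i * B i j = k * v' j) ∧
      ∑ i, v' i * u' i = ∑ i, v i * u i := by
  intro n
  induction n with
  | zero =>
    intro A h u v _ _
    exfalso
    obtain ⟨l, R, S, hl, -, h2, -, -⟩ := h
    have := congrFun (congrFun h2 0) 0
    rw [full_pow, Matrix.mul_apply] at this
    simp at this
    omega
  | succ n ih =>
    intro A h u v hu hv
    by_cases hrow : ∃ i, ∀ j, A i j = 0
    · obtain ⟨i, hi⟩ := hrow
      have hui : u i = 0 := by
        have := hu i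
        rw [Finset.sum_eq_zero (fun j _ => by rw [hi j, zero_mul])] at this
        rcases Nat.mul_eq_zero.1 this.symm with h0 | h0
        · omega
        · exact h0
      have hS := remove_row A i hi
      obtain ⟨m, B, u', v', e1, e2, e3, e4, e5, e6⟩ := ih _ (SE.of_sse hS.symm h)
        (fun x => u (i.succAbove x)) (fun x => v (i.succAbove x))
        (fun x => by
          simp only [Matrix.of_apply]
          rw [sum_remove i (fun y => A (i.succAbove x) y * u y) (by rw [hui, mul_zero]), hu])
        (fun y => by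
          simp only [Matrix.of_apply]
          rw [sum_remove i (fun x => v x * A x (i.succAbove y)) (by rw [hi, mul_zero]), hv])
      refine ⟨m, B, u', v', hS.trans e1, e2, e3, e4, e5, ?_⟩
      rw [e6, sum_remove i (fun x => v x * u x) (by rw [hui, mul_zero])]
    · by_cases hcol : ∃ i, ∀ j, A j i = 0
      · obtain ⟨i, hi⟩ := hcol
        have hvi : v i = 0 := by
          have := hv i
          rw [Finset.sum_eq_zero (fun j _ => by rw [hi j, mul_zero])] at this
          rcases Nat.mul_eq_zero.1 this.symm with h0 | h0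
          · omega
          · exact h0
        have hS := remove_col A i hi
        obtain ⟨m, B, u', v', e1, e2, e3, e4, e5, e6⟩ := ih _ (SE.of_sse hS.symm h)
          (fun x => u (i.succAbove x)) (fun x => v (i.succAbove x))
          (fun x => by
            simp only [Matrix.of_apply]
            rw [sum_remove i (fun y => A (i.succAbove x) y * u y) (by rw [hi, zero_mul]), hu])
          (fun y => by
            simp only [Matrix.of_apply]
            rw [sum_remove i (fun x => v x * A x (i.succAbove y)) (by rw [hvi, zero_mul]), hv])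
        refine ⟨m, B, u', v', hS.trans e1, e2, e3, e4, e5, ?_⟩
        rw [e6, sum_remove i (fun x => v x * u x) (by rw [hvi, zero_mul])]
      · push Not at hrow hcol
        refine ⟨n + 1, A, u, v, SSE.refl A, ?_, Nat.succ_pos n, hu, hv, rfl⟩
        obtain ⟨l, R, S, hl, h1, h2, -, -⟩ := h
        have e : ∀ i j, (A ^ l) i j = R i 0 * S 0 j := by
          intro i j
          rw [h1, Matrix.mul_apply]
          simp
        have hrowp : ∀ s i, ∃ j, (A ^ s) i j ≠ 0 := by
          intro s
          induction s with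
          | zero => intro i; exact ⟨i, by simp⟩
          | succ s ihs =>
            intro i
            obtain ⟨j, hj⟩ := ihs i
            obtain ⟨y, hy⟩ := hrow j
            refine ⟨y, ?_⟩
            rw [pow_succ, Matrix.mul_apply]
            intro h0
            have := (Finset.sum_eq_zero_iff.1 h0) j (Finset.mem_univ _)
            rcases Nat.mul_eq_zero.1 this with h3 | h3
            · exact hj h3
            · exact hy h3
        have hcolp : ∀ s j, ∃ i, (A ^ s) i j ≠ 0 := by
          intro s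
          induction s with
          | zero => intro i; exact ⟨i, by simp⟩
          | succ s ihs =>
            intro j
            obtain ⟨i, hi⟩ := ihs j
            obtain ⟨x, hx⟩ := hcol i
            refine ⟨x, ?_⟩
            rw [pow_succ', Matrix.mul_apply]
            intro h0
            have := (Finset.sum_eq_zero_iff.1 h0) i (Finset.mem_univ _)
            rcases Nat.mul_eq_zero.1 this with h3 | h3
            · exact hx h3
            · exact hi h3
        refine ⟨l, fun i j => ?_⟩
        obtain ⟨y, hy⟩ := hrowp l i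
        obtain ⟨x, hx⟩ := hcolp l j
        rw [e] at hy hx
        have h3 : R i 0 ≠ 0 := fun h0 => hy (by rw [h0, zero_mul])
        have h4 : S 0 j ≠ 0 := fun h0 => hx (by rw [h0, mul_zero])
        rw [e]
        exact Nat.mul_pos (Nat.pos_of_ne_zero h3) (Nat.pos_of_ne_zero h4)

theorem prim_transpose {m : ℕ} {A : Matrix (Fin m) (Fin m) ℕ} (h : Prim A) : Prim Aᵀ := by
  obtain ⟨s, hs⟩ := h
  refine ⟨s, fun i j => ?_⟩
  rw [← Matrix.transpose_pow, Matrix.transpose_apply]
  exact hs j i

theorem eig_pos {m : ℕ} {A : Matrix (Fin m) (Fin m) ℕ} {k : ℕ} {u : Fin m → ℕ}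
    (hA : Prim A) (h : ∀ i, ∑ j, A i j * u j = k * u i) (h0 : ∃ i, u i ≠ 0) : ∀ i, 0 < u i := by
  obtain ⟨s, hs⟩ := hA
  obtain ⟨j, hj⟩ := h0
  intro i
  have h1 := pow_eig h s i
  have h2 : 0 < ∑ j, (A ^ s) i j * u j :=
    Finset.sum_pos' (fun _ _ => Nat.zero_le _)
      ⟨j, Finset.mem_univ _, Nat.mul_pos (hs i j) (Nat.pos_of_ne_zero hj)⟩
  rw [h1] at h2
  rcases Nat.eq_zero_or_pos (u i) with h3 | h3
  · rw [h3, mul_zero] at h2; omega
  · exact h3

/-- **Reduction to doubly stochastic matrices.** -/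
theorem reduce (k : ℕ) (hk : 1 ≤ k) {n : ℕ} (A : Matrix (Fin n) (Fin n) ℕ) (h : SE A (full k))
    (u v : Fin n → ℕ) (hu : ∀ i, ∑ j, A i j * u j = k * u i)
    (hv : ∀ j, ∑ i, v i * A i j = k * v j) (h0 : ∑ i, v i * u i ≠ 0) :
    ∃ (m : ℕ) (B : Matrix (Fin m) (Fin m) ℕ), 0 < m ∧ m ∣ ∑ i, v i * u i ∧ SSE A B ∧
      (∀ i, ∑ j, B i j = k) ∧ (∀ j, ∑ i, B i j = k) := by
  obtain ⟨m0, A0, u0, v0, e1, e2, e3, e4, e5, e6⟩ := ess k hk n A h u v hu hv
  have hne : ∃ i, v0 i * u0 i ≠ 0 := by
    by_contra hcon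
    push Not at hcon
    rw [← e6] at h0
    exact h0 (Finset.sum_eq_zero (fun i _ => hcon i))
  obtain ⟨i0, hi0⟩ := hne
  have hu0 : ∀ i, 0 < u0 i := eig_pos e2 e4 ⟨i0, fun h' => hi0 (by rw [h', mul_zero])⟩
  have hv0 : ∀ i, 0 < v0 i := by
    refine eig_pos (A := A0ᵀ) (prim_transpose e2) (k := k) ?_
      ⟨i0, fun h' => hi0 (by rw [h', zero_mul])⟩
    intro j
    rw [← e5 j]
    exact Finset.sum_congr rfl (fun i _ => mul_comm _ _)
  have hsum : m0 ≤ ∑ i, u0 i := by
    calc m0 = ∑ i : Fin m0, 1 := by simp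
      _ ≤ ∑ i, u0 i := Finset.sum_le_sum (fun i _ => hu0 i)
  obtain ⟨m1, B, pr, c, b1, b2, b3, b4, b5, b6⟩ := rows k hk (∑ i, u0 i - m0) m0 A0 u0
    (by omega) hu0 e4 e2 e3
  obtain ⟨b7, b8⟩ := b6 v0 e5
  have hsum1 : m1 ≤ ∑ x, v0 (pr x) := by
    calc m1 = ∑ i : Fin m1, 1 := by simp
      _ ≤ ∑ x, v0 (pr x) := Finset.sum_le_sum (fun i _ => hv0 _)
  obtain ⟨m2, C, pr', c', d1, d2, d3, d4, d5, d6⟩ := rows k hk (∑ x, v0 (pr x) - m1) m1 Bᵀ
    (fun x => v0 (pr x)) (by omega) (fun x => hv0 _)
    (fun y => by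
      rw [← b7 y]
      exact Finset.sum_congr rfl (fun x _ => mul_comm _ _))
    (prim_transpose b2) b3
  obtain ⟨d7, d8⟩ := d6 (fun _ => 1) (fun j => by
    simp only [one_mul, Matrix.transpose_apply, mul_one]
    exact b5 j)
  simp only [one_mul, mul_one, Finset.sum_const, Finset.card_univ, Fintype.card_fin,
    smul_eq_mul] at d7 d8
  refine ⟨m2, Cᵀ, d3, ?_, ?_, ?_, ?_⟩
  · refine ⟨c * c', ?_⟩
    rw [← e6, ← b8, ← d8]
    ring
  · have h1 := d1.transpose
    rw [Matrix.transpose_transpose] at h1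
    exact e1.trans (b1.trans h1)
  · intro i
    exact d7 i
  · intro j
    exact d5 j

end Pool.Agent.H73AM
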