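import Pool.Agent.H73AM.Data

/-!
# The enumeration, part 2 (generated)
-/

set_option autoImplicit false
set_option maxRecDepth 100000

namespace Pool.Agent.H73AM

theorem all1 : allP pref1 = true := by decide +kernel

theorem all5 : allP pref5 = true := by decide +kernel

theorem all9 : allP pref9 = true := by decide +kernel

theorem all13 : allP pref13 = true := by decide +kernel

theorem all17 : allP pref17 = true := by decide +kernel

theorem all21 : allP pref21 = true := by decide +kernel

theorem all25 : allP pref25 = true := by decide +kernel

theorem all29 : allP pref29 = true := by decide +kernel

theorem all33 : allP pref33 = true := by decide +kernel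

end Pool.Agent.H73AM
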