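import Pool.Agent.H73AM.Data

/-!
# The enumeration, part 3 (generated)
-/

set_option autoImplicit false
set_option maxRecDepth 100000

namespace Pool.Agent.H73AM

theorem all2 : allP pref2 = true := by decide +kernel

theorem all6 : allP pref6 = true := by decide +kernel

theorem all10 : allP pref10 = true := by decide +kernel

theorem all14 : allP pref14 = true := by decide +kernel

theorem all18 : allP pref18 = true := by decide +kernel

theorem all22 : allP pref22 = true := by decide +kernel

theorem all26 : allP pref26 = true := by decide +kernel

theorem all30 : allP pref30 = true := by decide +kernel

theorem all34 : allP pref34 = true := by decide +kernel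

end Pool.Agent.H73AM
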