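import Pool.Agent.H73AM.Data

/-!
# The enumeration, part 4 (generated)
-/

set_option autoImplicit false
set_option maxRecDepth 100000

namespace Pool.Agent.H73AM

theorem all3 : allP pref3 = true := by decide +kernel

theorem all7 : allP pref7 = true := by decide +kernel

theorem all11 : allP pref11 = true := by decide +kernel

theorem all15 : allP pref15 = true := by decide +kernel

theorem all19 : allP pref19 = true := by decide +kernel

theorem all23 : allP pref23 = true := by decide +kernel

theorem all27 : allP pref27 = true := by decide +kernel

theorem all31 : allP pref31 = true := by decide +kernel

theorem all35 : allP pref35 = true := by decide +kernel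

end Pool.Agent.H73AM
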