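import Pool.Agent.H73AM.G1
import Pool.Agent.H73AM.G2
import Pool.Agent.H73AM.G3
import Pool.Agent.H73AM.G4

/-!
# The enumeration: the first rows (generated)
-/

set_option autoImplicit false
set_option maxRecDepth 100000

namespace Pool.Agent.H73AM

theorem allP_append (l m : List (List (ℕ × ℕ) × List (ℕ × ℕ) × ℕ)) (hl : allP l = true)
    (hm : allP m = true) : allP (l ++ m) = true := by
  induction l with
  | nil => exact hm
  | cons x l ih =>
    simp only [allP, Bool.and_eq_true] at hl
    simp only [List.cons_append, allP, Bool.and_eq_true]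
    exact ⟨hl.1, ih hl.2⟩

theorem all_pref : allP pref = true := by
  unfold pref
  exact allP_append _ _ (allP_append _ _ (allP_append _ _ (allP_append _ _ (allP_append _ _ (allP_append _ _ (allP_append _ _ (allP_append _ _ (allP_append _ _ (allP_append _ _ (allP_append _ _ (allP_append _ _ (allP_append _ _ (allP_append _ _ (allP_append _ _ (allP_append _ _ (allP_append _ _ (allP_append _ _ (allP_append _ _ (allP_append _ _ (allP_append _ _ (allP_append _ _ (allP_append _ _ (allP_append _ _ (allP_append _ _ (allP_append _ _ (allP_append _ _ (allP_append _ _ (allP_append _ _ (allP_append _ _ (allP_append _ _ (allP_append _ _ (allP_append _ _ (allP_append _ _ (allP_append _ _ (all0) all1) all2) all3) all4) all5) all6) all7) all8) all9) all10) all11) all12) all13) all14) all15) all16) all17) all18) all19) all20) all21) all22) all23) all24) all25) all26) all27) all28) all29) all30) all31) all32) all33) all34) all35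

theorem top8_0 : go (inList pref) 8 2 [(0, 1), (0, 1)] [] 2 2 = true := by decide +kernel

theorem top8_1 : go (inList pref) 8 2 [(1, 2), (0, 1)] [(0, 1), (2, 1)] 2 3 = true := by decide +kernel

theorem top8_2 : go (inList pref) 8 2 [(0, 1), (0, 2)] [(1, 1), (2, 1)] 2 3 = true := by decide +kernel

theorem top8_3 : go (inList pref) 8 2 [(1, 2), (0, 2)] [(0, 1), (1, 1)] 2 3 = true := by decide +kernel

theorem top8_4 : go (inList pref) 8 2 [(1, 3), (0, 2)] [(0, 1), (1, 1), (2, 1), (3, 1)] 2 4 = true := by decide +kernel

theorem top4_0 : go (leaf reps certs4 4) 4 2 [(0, 1), (0, 1)] [] 2 2 = true := by decide +kernel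

theorem top4_1 : go (leaf reps certs4 4) 4 2 [(1, 2), (0, 1)] [(0, 1), (2, 1)] 2 3 = true := by decide +kernel

theorem top4_2 : go (leaf reps certs4 4) 4 2 [(0, 1), (0, 2)] [(1, 1), (2, 1)] 2 3 = true := by decide +kernel

theorem top4_3 : go (leaf reps certs4 4) 4 2 [(1, 2), (0, 2)] [(0, 1), (1, 1)] 2 3 = true := by decide +kernel

theorem top4_4 : go (leaf reps certs4 4) 4 2 [(1, 3), (0, 2)] [(0, 1), (1, 1), (2, 1), (3, 1)] 2 4 = true := by decide +kernel

theorem top2_0 : go (leaf reps certs2 2) 2 0 [(0, 1), (0, 1)] [] 2 2 = true := by decide +kernel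

end Pool.Agent.H73AM
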