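import Pool.Agent.H73AM.Start
import Pool.Agent.H73AM.Top

/-!
# Doubly 2-stochastic matrices of size less than 16
-/

set_option autoImplicit false

namespace Pool.Agent.H73AM

open Matrix

theorem reps_sse : ∀ i, i < reps.length → SSE (toM (reps.getD i (0, [])).1
    (reps.getD i (0, [])).1 (reps.getD i (0, [])).2) two := by
  intro i hi
  have hi' : i < 25 := hi
  clear hi
  interval_cases i
  · exact chainOK_sound ch0 8 rep0 ok0
  · exact chainOK_sound ch1 8 rep1 ok1
  · exact chainOK_sound ch2 8 rep2 ok2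
  · exact chainOK_sound ch3 8 rep3 ok3
  · exact chainOK_sound ch4 8 rep4 ok4
  · exact chainOK_sound ch5 8 rep5 ok5
  · exact chainOK_sound ch6 8 rep6 ok6
  · exact chainOK_sound ch7 8 rep7 ok7
  · exact chainOK_sound ch8 8 rep8 ok8
  · exact chainOK_sound ch9 8 rep9 ok9
  · exact chainOK_sound ch10 8 rep10 ok10
  · exact chainOK_sound ch11 8 rep11 ok11
  · exact chainOK_sound ch12 8 rep12 ok12
  · exact chainOK_sound ch13 8 rep13 ok13
  · exact chainOK_sound ch14 8 rep14 ok14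
  · exact chainOK_sound ch15 8 rep15 ok15
  · exact chainOK_sound ch16 8 rep16 ok16
  · exact chainOK_sound ch17 8 rep17 ok17
  · exact chainOK_sound ch18 8 rep18 ok18
  · exact chainOK_sound ch19 8 rep19 ok19
  · exact chainOK_sound ch20 8 rep20 ok20
  · exact chainOK_sound ch21 8 rep21 ok21
  · exact chainOK_sound ch22 1 rep22 ok22
  · exact chainOK_sound ch23 2 rep23 ok23
  · exact chainOK_sound ch24 4 rep24 ok24

theorem ashley_sse : SSE ashley two := by
  have h1 : SSE (toM 8 8 rep16) two := chainOK_sound ch16 8 rep16 ok16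
  obtain ⟨π, hπ⟩ := permOK_spec (n := 8) (p := [7, 5, 4, 6, 2, 3, 0, 1]) (by decide)
  have h2 : ∀ i j, (toM 8 8 rep16) (π i) (π j) = ashley i j := by
    intro i j
    simp only [toM, Matrix.of_apply, hπ]
    revert i j
    decide +kernel
  exact (SSE.of_perm π h2).symm.trans h1

section

variable {n : ℕ} {A : Matrix (Fin n) (Fin n) ℕ}

theorem goP_of_mem {l : List (List (ℕ × ℕ) × List (ℕ × ℕ) × ℕ)} (h : allP l = true) :
    ∀ x ∈ l, goP x = true := by
  induction l with
  | nil => simp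
  | cons y l ih =>
    simp only [allP, Bool.and_eq_true] at h
    intro x hx
    rcases List.mem_cons.1 hx with h1 | h1
    · rw [h1]; exact h.1
    · exact ih h.2 x h1

theorem case8 {A : Matrix (Fin 8) (Fin 8) ℕ} (hr : ∀ i, ∑ j, A i j = 2)
    (hc : ∀ j, ∑ i, A i j = 2) (htr : ∀ s, 1 ≤ s → ∑ i, (A ^ s) i i = 2 ^ s)
    (hirr : ∀ i j, ∃ s, 0 < (A ^ s) i j) : SSE A two := by
  refine start_sound (L := inList pref) hr hc (by simpa using htr 1 le_rfl) hirr 2 (by norm_num)
    ?_ top8_0 (fun _ => top8_1) (fun _ => top8_2) (fun _ => top8_3) (fun _ => top8_4)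
  intro rr av k f hI hg
  have h1 := goP_of_mem all_pref _ (inList_spec hg)
  exact go_sound hr hc hirr 8 le_rfl (fun rr av k f hI hg => leaf_sound reps_sse htr rr av k f hI hg)
    4 rr av 4 k f rfl hI h1

theorem case4 {A : Matrix (Fin 4) (Fin 4) ℕ} (hr : ∀ i, ∑ j, A i j = 2)
    (hc : ∀ j, ∑ i, A i j = 2) (htr : ∀ s, 1 ≤ s → ∑ i, (A ^ s) i i = 2 ^ s)
    (hirr : ∀ i j, ∃ s, 0 < (A ^ s) i j) : SSE A two :=
  start_sound (L := leaf reps certs4 4) hr hc (by simpa using htr 1 le_rfl) hirr 2 (by norm_num)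
    (fun rr av k f hI hg => leaf_sound reps_sse htr rr av k f hI hg)
    top4_0 (fun _ => top4_1) (fun _ => top4_2) (fun _ => top4_3) (fun _ => top4_4)

theorem case2 {A : Matrix (Fin 2) (Fin 2) ℕ} (hr : ∀ i, ∑ j, A i j = 2)
    (hc : ∀ j, ∑ i, A i j = 2) (htr : ∀ s, 1 ≤ s → ∑ i, (A ^ s) i i = 2 ^ s)
    (hirr : ∀ i j, ∃ s, 0 < (A ^ s) i j) : SSE A two :=
  start_sound (L := leaf reps certs2 2) hr hc (by simpa using htr 1 le_rfl) hirr 0 (by norm_num)
    (fun rr av k f hI hg => leaf_sound reps_sse htr rr av k f hI hg)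
    top2_0 (fun h => absurd h (by norm_num)) (fun h => absurd h (by norm_num))
    (fun h => absurd h (by norm_num)) (fun h => absurd h (by norm_num))

theorem pow_row (hr : ∀ i, ∑ j, A i j = 2) (l : ℕ) : ∀ i, ∑ j, (A ^ l) i j = 2 ^ l := by
  induction l with
  | zero => intro i; simp [Matrix.one_apply]
  | succ l ih =>
    intro i
    simp only [pow_succ, Matrix.mul_apply]
    rw [Finset.sum_comm]
    simp only [← Finset.mul_sum, hr, ← Finset.sum_mul, ih]

theorem pow_col (hc : ∀ j, ∑ i, A i j = 2) (l : ℕ) : ∀ j, ∑ i, (A ^ l) i j = 2 ^ l := by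
  induction l with
  | zero => intro i; simp [Matrix.one_apply]
  | succ l ih =>
    intro j
    simp only [pow_succ, Matrix.mul_apply]
    rw [Finset.sum_comm]
    simp only [← Finset.sum_mul, ih, ← Finset.mul_sum, hc]

/-- A shift equivalence with `[2]` makes a power constant. -/
theorem const_of_se (hr : ∀ i, ∑ j, A i j = 2) (hc : ∀ j, ∑ i, A i j = 2) (h : SE A two) :
    ∃ l, ∀ i j i' j', (A ^ l) i j = (A ^ l) i' j' := by
  obtain ⟨l, R, S, hl, h1, -, -, -⟩ := h
  refine ⟨l, ?_⟩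
  have e : ∀ i j, (A ^ l) i j = R i 0 * S 0 j := by
    intro i j
    rw [h1, Matrix.mul_apply]
    simp
  have hrow : ∀ i, R i 0 * ∑ j, S 0 j = 2 ^ l := by
    intro i
    rw [← pow_row hr l i, Finset.mul_sum]
    exact Finset.sum_congr rfl (fun j _ => (e i j).symm)
  have hcol : ∀ j, (∑ i, R i 0) * S 0 j = 2 ^ l := by
    intro j
    rw [← pow_col hc l j, Finset.sum_mul]
    exact Finset.sum_congr rfl (fun i _ => (e i j).symm)
  intro i j i' j'
  have hs : 0 < ∑ j, S 0 j := by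
    rcases Nat.eq_zero_or_pos (∑ j, S 0 j) with h0 | h0
    · have := hrow i
      rw [h0, mul_zero] at this
      have := Nat.pos_of_ne_zero (pow_ne_zero l (two_ne_zero (α := ℕ)))
      omega
    · exact h0
  have hs' : 0 < ∑ i, R i 0 := by
    rcases Nat.eq_zero_or_pos (∑ i, R i 0) with h0 | h0
    · have := hcol j
      rw [h0, zero_mul] at this
      have := Nat.pos_of_ne_zero (pow_ne_zero l (two_ne_zero (α := ℕ)))
      omega
    · exact h0
  have a1 : R i 0 = R i' 0 := Nat.eq_of_mul_eq_mul_right hs ((hrow i).trans (hrow i').symm)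
  have a2 : S 0 j = S 0 j' := Nat.eq_of_mul_eq_mul_left hs' ((hcol j).trans (hcol j').symm)
  rw [e, e, a1, a2]

/-- The all ones matrix. -/
def ones (n : ℕ) : Matrix (Fin n) (Fin n) ℚ := Matrix.of fun _ _ => 1

/-- `A` over `ℚ`. -/
def toQ (A : Matrix (Fin n) (Fin n) ℕ) : Matrix (Fin n) (Fin n) ℚ := A.map (Nat.castRingHom ℚ)

theorem toQ_pow (A : Matrix (Fin n) (Fin n) ℕ) (l : ℕ) : toQ (A ^ l) = toQ A ^ l :=
  Matrix.map_pow _ _ _

theorem sub_pow (hn : 0 < n) (hr : ∀ i, ∑ j, A i j = 2) (hc : ∀ j, ∑ i, A i j = 2) (l : ℕ) :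
    (toQ A - (2 / n : ℚ) • ones n) ^ (l + 1) =
      toQ A ^ (l + 1) - (2 ^ (l + 1) / n : ℚ) • ones n := by
  have hn' : (n : ℚ) ≠ 0 := by positivity
  have r1 : toQ A * ones n = (2 : ℚ) • ones n := by
    ext i j
    simp only [Matrix.mul_apply, toQ, ones, Matrix.of_apply, Matrix.map_apply, mul_one,
      Matrix.smul_apply, smul_eq_mul, Nat.coe_castRingHom]
    rw [← Nat.cast_sum, hr i]
    norm_num
  have r2 : ones n * ones n = (n : ℚ) • ones n := by
    ext i j
    simp [Matrix.mul_apply, ones]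
  have r3 : ones n * toQ A = (2 : ℚ) • ones n := by
    ext i j
    simp only [Matrix.mul_apply, toQ, ones, Matrix.of_apply, Matrix.map_apply, one_mul,
      Matrix.smul_apply, smul_eq_mul, Nat.coe_castRingHom, mul_one]
    rw [← Nat.cast_sum, hc j]
    norm_num
  have r4 : ∀ l : ℕ, toQ A ^ l * ones n = (2 ^ l : ℚ) • ones n := by
    intro l
    induction l with
    | zero => simp
    | succ l ih => rw [pow_succ, Matrix.mul_assoc, r1, Matrix.mul_smul, ih, smul_smul, pow_succ,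
        mul_comm]
  induction l with
  | zero => simp
  | succ l ih =>
    rw [pow_succ, ih, Matrix.sub_mul, Matrix.mul_sub, Matrix.mul_sub, Matrix.mul_smul,
      Matrix.smul_mul, Matrix.smul_mul, Matrix.mul_smul, r4, r3, r2, ← pow_succ]
    simp only [smul_smul]
    rw [sub_sub, sub_right_inj, ← sub_eq_zero, ← sub_smul, ← add_smul, ← sub_smul]
    rw [show (2 / (n : ℚ) * 2 ^ (l + 1) + (2 ^ (l + 1) / n * 2 - 2 ^ (l + 1) / n * (2 / n * n)) -
      2 ^ (l + 1 + 1) / n) = 0 by field_simp; ring, zero_smul]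

/-- Constancy of a power in terms of nilpotency. -/
theorem const_iff (hn : 0 < n) (hr : ∀ i, ∑ j, A i j = 2) (l : ℕ) :
    (∀ i j i' j', (A ^ l) i j = (A ^ l) i' j') ↔ toQ A ^ l = (2 ^ l / n : ℚ) • ones n := by
  have hn' : (n : ℚ) ≠ 0 := by positivity
  constructor
  · intro h
    have h1 : ∀ i j, (n : ℚ) * ((A ^ l) i j : ℚ) = 2 ^ l := by
      intro i j
      have h2 : ∑ j' : Fin n, (A ^ l) i j' = 2 ^ l := pow_row hr l i
      rw [Finset.sum_congr rfl (fun j' _ => h i j' i j)] at h2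
      simp only [Finset.sum_const, Finset.card_univ, Fintype.card_fin, smul_eq_mul] at h2
      exact_mod_cast h2
    rw [← toQ_pow]
    ext i j
    simp only [toQ, Matrix.map_apply, Matrix.smul_apply, ones, Matrix.of_apply, smul_eq_mul,
      mul_one, Nat.coe_castRingHom]
    rw [eq_div_iff hn', mul_comm]
    exact h1 i j
  · intro h i j i' j'
    rw [← toQ_pow] at h
    have h1 : ∀ i j, (((A ^ l) i j : ℕ) : ℚ) = 2 ^ l / n := by
      intro i j
      have := congrFun (congrFun h i) j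
      simpa [toQ, ones] using this
    have h2 : (((A ^ l) i j : ℕ) : ℚ) = (((A ^ l) i' j' : ℕ) : ℚ) := by rw [h1, h1]
    exact_mod_cast h2

/-- If some power is constant then `A - (2/n) J` is nilpotent. -/
theorem nilp (hn : 0 < n) (hr : ∀ i, ∑ j, A i j = 2) (hc : ∀ j, ∑ i, A i j = 2) (l : ℕ)
    (h : ∀ i j i' j', (A ^ l) i j = (A ^ l) i' j') :
    IsNilpotent (toQ A - (2 / n : ℚ) • ones n) := by
  refine ⟨l + 1, ?_⟩
  have h2 : ∀ i j i' j', (A ^ (l + 1)) i j = (A ^ (l + 1)) i' j' := by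
    intro i j i' j'
    rw [pow_succ', Matrix.mul_apply, Matrix.mul_apply]
    have e1 : ∀ k, (A ^ l) k j = (A ^ l) i j := fun k => h k j i j
    have e2 : ∀ k, (A ^ l) k j' = (A ^ l) i j := fun k => h k j' i j
    simp only [e1, e2, ← Finset.sum_mul, hr]
  rw [sub_pow hn hr hc l, (const_iff hn hr (l + 1)).1 h2, sub_self]

theorem traces (hn : 0 < n) (hr : ∀ i, ∑ j, A i j = 2) (hc : ∀ j, ∑ i, A i j = 2) (l : ℕ)
    (h : ∀ i j i' j', (A ^ l) i j = (A ^ l) i' j') (s : ℕ) (hs : 1 ≤ s) :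
    ∑ i, (A ^ s) i i = 2 ^ s := by
  have hn' : (n : ℚ) ≠ 0 := by positivity
  have h1 : IsNilpotent ((toQ A - (2 / n : ℚ) • ones n) ^ s) :=
    (nilp hn hr hc l h).pow_of_pos (by omega)
  have h2 := (Matrix.isNilpotent_trace_of_isNilpotent h1).eq_zero
  obtain ⟨s, rfl⟩ : ∃ s', s = s' + 1 := ⟨s - 1, by omega⟩
  rw [sub_pow hn hr hc s, Matrix.trace_sub, Matrix.trace_smul, sub_eq_zero, ← toQ_pow] at h2
  have h3 : Matrix.trace (ones n) = n := by simp [Matrix.trace, ones]
  rw [h3, smul_eq_mul, div_mul_cancel₀ _ hn'] at h2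
  have h4 : Matrix.trace (toQ (A ^ (s + 1))) = ((∑ i, (A ^ (s + 1)) i i : ℕ) : ℚ) := by
    simp [Matrix.trace, toQ]
  rw [h4] at h2
  exact_mod_cast h2

theorem const_n (hn : 0 < n) (hr : ∀ i, ∑ j, A i j = 2) (hc : ∀ j, ∑ i, A i j = 2) (l : ℕ)
    (h : ∀ i j i' j', (A ^ l) i j = (A ^ l) i' j') :
    ∀ i j i' j', (A ^ n) i j = (A ^ n) i' j' := by
  have h1 := nilp hn hr hc l h
  have h2 := Matrix.isNilpotent_charpoly_sub_pow_of_isNilpotent h1
  have h3 := h2.eq_zero
  rw [sub_eq_zero, Fintype.card_fin] at h3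
  have h4 := Matrix.aeval_self_charpoly (toQ A - (2 / n : ℚ) • ones n)
  rw [h3, map_pow, Polynomial.aeval_X] at h4
  obtain ⟨m, rfl⟩ : ∃ m, n = m + 1 := ⟨n - 1, by omega⟩
  rw [sub_pow hn hr hc m, sub_eq_zero] at h4
  exact (const_iff hn hr _).2 h4

theorem sse_of_const (hn : 0 < n) (hn16 : n < 16) (hr : ∀ i, ∑ j, A i j = 2)
    (hc : ∀ j, ∑ i, A i j = 2) (l : ℕ) (h : ∀ i j i' j', (A ^ l) i j = (A ^ l) i' j') :
    SSE A two := by
  have htr := traces hn hr hc l h
  have hmul : ∀ i j, n * (A ^ l) i j = 2 ^ l := by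
    intro i j
    have h2 : ∑ j' : Fin n, (A ^ l) i j' = 2 ^ l := pow_row hr l i
    rw [Finset.sum_congr rfl (fun j' _ => h i j' i j)] at h2
    simpa using h2
  have hirr : ∀ i j, ∃ s, 0 < (A ^ s) i j := by
    intro i j
    refine ⟨l, ?_⟩
    rcases Nat.eq_zero_or_pos ((A ^ l) i j) with h0 | h0
    · have h1 := hmul i j
      rw [h0, mul_zero] at h1
      have := Nat.pos_of_ne_zero (pow_ne_zero l (two_ne_zero (α := ℕ)))
      omega
    · exact h0
  have hdvd : n ∣ 2 ^ l := ⟨_, (hmul ⟨0, hn⟩ ⟨0, hn⟩).symm⟩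
  obtain ⟨k, -, hk⟩ := (Nat.dvd_prime_pow Nat.prime_two).1 hdvd
  have hk4 : k < 4 := by
    by_contra hcon
    have : 2 ^ 4 ≤ 2 ^ k := Nat.pow_le_pow_right (by norm_num) (by omega)
    omega
  interval_cases k
  · have : n = 1 := by omega
    subst this
    have : A = two := by
      ext i j
      fin_cases i; fin_cases j
      have := hr 0
      simpa [two] using this
    rw [this]
    exact SSE.refl _
  · have : n = 2 := by omega
    subst this
    exact case2 hr hc htr hirr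
  · have : n = 4 := by omega
    subst this
    exact case4 hr hc htr hirr
  · have : n = 8 := by omega
    subst this
    exact case8 hr hc htr hirr

/-- For doubly 2-stochastic matrices of size less than 16: strong shift equivalence to `[2]`, shift
equivalence to `[2]` and constancy of the `n`-th power are the same. -/
theorem main (hn : 0 < n) (hn16 : n < 16) (hr : ∀ i, ∑ j, A i j = 2)
    (hc : ∀ j, ∑ i, A i j = 2) :
    (SSE A two ↔ SE A two) ∧ (SE A two ↔ ∀ i j i' j', (A ^ n) i j = (A ^ n) i' j') := by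
  have h1 : SSE A two → SE A two := SSE.se
  have h2 : SE A two → ∀ i j i' j', (A ^ n) i j = (A ^ n) i' j' := by
    intro h
    obtain ⟨l, hl⟩ := const_of_se hr hc h
    exact const_n hn hr hc l hl
  have h3 : (∀ i j i' j', (A ^ n) i j = (A ^ n) i' j') → SSE A two :=
    fun h => sse_of_const hn hn16 hr hc n h
  exact ⟨⟨h1, fun h => h3 (h2 h)⟩, ⟨h2, fun h => h1 (h3 h)⟩⟩

end

end Pool.Agent.H73AM
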