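import Pool.Agent.H73AM.Final
import Pool.Agent.H73AM.Crit

/-!
# The full 2-shift: all matrices with `v · u < 16`, all shift equivalences of lag at most three
-/

set_option autoImplicit false

namespace Pool.Agent.H73AM

open Matrix

variable {n : ℕ}

theorem small {A : Matrix (Fin n) (Fin n) ℕ} (h : SE A (full 2)) {u v : Fin n → ℕ}
    (hu : ∀ i, ∑ j, A i j * u j = 2 * u i) (hv : ∀ j, ∑ i, v i * A i j = 2 * v j)
    (h0 : ∑ i, v i * u i ≠ 0) (h16 : ∑ i, v i * u i < 16) : SSE A (full 2) := by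
  obtain ⟨m, B, hm, hdvd, hS, hr, hc⟩ := reduce 2 (by norm_num) A h u v hu hv h0
  have hm16 : m < 16 := (Nat.le_of_dvd (Nat.pos_of_ne_zero h0) hdvd).trans_lt h16
  have h1 : SE B two := SE.of_sse hS.symm h
  have h2 : SSE B two := (main hm hm16 hr hc).1.2 h1
  exact hS.trans h2

theorem lag_three {A : Matrix (Fin n) (Fin n) ℕ} {l : ℕ} (hl : l ≤ 3)
    (h : SELag l A (full 2)) : SSE A (full 2) := by
  obtain ⟨R, S, h1, h2, h3, h4⟩ := h
  have hf : full 2 0 0 = 2 := rfl
  have hu : ∀ i, ∑ j, A i j * R j 0 = 2 * R i 0 := by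
    intro i
    have := congrFun (congrFun h3 i) 0
    rw [Matrix.mul_apply, Matrix.mul_apply] at this
    simp only [Finset.univ_unique, Fin.default_eq_zero, Finset.sum_singleton, hf] at this
    rw [this]
    ring
  have hv : ∀ j, ∑ i, S 0 i * A i j = 2 * S 0 j := by
    intro j
    have := congrFun (congrFun h4 0) j
    rw [Matrix.mul_apply, Matrix.mul_apply] at this
    simpa only [Finset.univ_unique, Fin.default_eq_zero, Finset.sum_singleton, hf] using this
  have hD : ∑ i, S 0 i * R i 0 = 2 ^ l := by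
    have := congrFun (congrFun h2 0) 0
    rw [full_pow, Matrix.mul_apply] at this
    exact this.symm
  have hse : SE A (full 2) := by
    refine ⟨l + 1, A * R, S, by omega, ?_, ?_, ?_, ?_⟩
    · rw [pow_succ', h1, Matrix.mul_assoc]
    · rw [pow_succ, h2, Matrix.mul_assoc, ← h3]
    · rw [h3, ← Matrix.mul_assoc, h3]
    · exact h4
  refine small hse (u := fun i => R i 0) (v := fun j => S 0 j) hu hv ?_ ?_
  · rw [hD]; exact pow_ne_zero l two_ne_zero
  · rw [hD]
    calc 2 ^ l ≤ 2 ^ 3 := Nat.pow_le_pow_right (by norm_num) hl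
      _ < 16 := by norm_num

end Pool.Agent.H73AM
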