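import Pool.Agent.H73AM.Final2

/-!
# The exponent `n - 1` in the criterion, and matrices of size at most four
-/

set_option autoImplicit false

namespace Pool.Agent.H73AM

open Matrix Polynomial

variable {n : ℕ}

/-- If `N` is nilpotent and `N P = 0` then `N + P` and `P` have the same characteristic
polynomial. -/
theorem charpoly_add (N P : Matrix (Fin n) (Fin n) ℚ) (hN : IsNilpotent N) (hNP : N * P = 0) :
    (N + P).charpoly = P.charpoly := by
  have h1 : N.charpoly = X ^ n := by
    have h2 := (Matrix.isNilpotent_charpoly_sub_pow_of_isNilpotent hN).eq_zero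
    rw [sub_eq_zero, Fintype.card_fin] at h2
    exact h2
  have h2 : N.charmatrix * P.charmatrix = (X : ℚ[X]) • (N + P).charmatrix := by
    have e1 : ∀ M : Matrix (Fin n) (Fin n) ℚ, M.charmatrix = (X : ℚ[X]) • 1 - M.map C := by
      intro M
      ext i j
      rw [Matrix.charmatrix_apply]
      by_cases hij : i = j
      · subst hij; simp
      · simp [hij]
    have e2 : N.map C * P.map C = 0 := by
      rw [← Matrix.map_mul (f := (C : ℚ →+* ℚ[X])), hNP]
      ext i j
      simp
    have e3 : (N + P).map C = N.map C + P.map C := by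
      ext i j
      simp
    rw [e1, e1, e1, e3, Matrix.sub_mul, Matrix.mul_sub, Matrix.mul_sub, e2, Matrix.smul_mul,
      Matrix.one_mul, Matrix.smul_mul, Matrix.one_mul, Matrix.mul_smul, Matrix.mul_one, sub_zero,
      smul_sub, smul_add]
    abel
  have h3 : N.charpoly * P.charpoly = X ^ n * (N + P).charpoly := by
    unfold Matrix.charpoly
    rw [← Matrix.det_mul, h2, Matrix.det_smul, Fintype.card_fin]
  rw [h1] at h3
  exact (mul_left_cancel₀ (pow_ne_zero n X_ne_zero) h3).symm

theorem crit_pred {A : Matrix (Fin n) (Fin n) ℕ} {k : ℕ} (hk : 1 ≤ k) {u v : Fin n → ℕ}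
    (hu : ∀ i, ∑ j, A i j * u j = k * u i) (hv : ∀ j, ∑ i, v i * A i j = k * v j)
    (h0 : ∑ i, v i * u i ≠ 0)
    (h : ∀ i j, (∑ i, v i * u i) * (A ^ n) i j = k ^ n * (u i * v j)) :
    ∀ i j, (∑ i, v i * u i) * (A ^ (n - 1)) i j = k ^ (n - 1) * (u i * v j) := by
  set D := ∑ i, v i * u i with hD
  have hn : n ≠ 0 := by
    rintro rfl
    apply h0
    rw [hD]
    simp
  obtain ⟨m, hm⟩ : ∃ m, n = m + 1 := ⟨n - 1, by omega⟩
  let U : Matrix (Fin n) (Fin n) ℚ := Matrix.of fun i j => (u i : ℚ) * (v j : ℚ)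
  have hD0 : (D : ℚ) ≠ 0 := by exact_mod_cast h0
  have hk0 : (k : ℚ) ≠ 0 := by exact_mod_cast (by omega : k ≠ 0)
  have r1 : toR A * U = (k : ℚ) • U := by
    ext i j
    simp only [Matrix.mul_apply, toR, U, Matrix.of_apply, Matrix.map_apply,
      Matrix.smul_apply, smul_eq_mul, Nat.coe_castRingHom]
    have : (∑ x, (A i x : ℚ) * (u x : ℚ)) = (k : ℚ) * (u i : ℚ) := by exact_mod_cast hu i
    rw [← mul_assoc, ← this, Finset.sum_mul]
    exact Finset.sum_congr rfl (fun x _ => by ring)
  have r3 : U * toR A = (k : ℚ) • U := by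
    ext i j
    simp only [Matrix.mul_apply, toR, U, Matrix.of_apply, Matrix.map_apply,
      Matrix.smul_apply, smul_eq_mul, Nat.coe_castRingHom]
    have : (∑ x, (v x : ℚ) * (A x j : ℚ)) = (k : ℚ) * (v j : ℚ) := by exact_mod_cast hv j
    rw [mul_left_comm, ← this, Finset.mul_sum]
    exact Finset.sum_congr rfl (fun x _ => by ring)
  have r2 : U * U = (D : ℚ) • U := by
    ext i j
    simp only [Matrix.mul_apply, U, Matrix.of_apply, Matrix.smul_apply, smul_eq_mul]
    rw [hD]
    push_cast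
    rw [Finset.sum_mul]
    exact Finset.sum_congr rfl (fun x _ => by ring)
  have hpow : ∀ s : ℕ, (∀ i j, D * (A ^ s) i j = k ^ s * (u i * v j)) ↔
      toR A ^ s = ((k : ℚ) ^ s / D) • U := by
    intro s
    rw [← toR_pow]
    constructor
    · intro h
      ext i j
      simp only [toR, Matrix.map_apply, Matrix.smul_apply, U, Matrix.of_apply, smul_eq_mul,
        Nat.coe_castRingHom]
      rw [div_mul_eq_mul_div, eq_div_iff hD0, mul_comm]
      exact_mod_cast h i j
    · intro h i j
      have := congrFun (congrFun h i) j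
      simp only [toR, Matrix.map_apply, Matrix.smul_apply, U, Matrix.of_apply, smul_eq_mul,
        Nat.coe_castRingHom] at this
      rw [div_mul_eq_mul_div, eq_div_iff hD0, mul_comm] at this
      exact_mod_cast this
  have hAn := (hpow n).1 h
  have hnil : IsNilpotent (toR A - ((k : ℚ) / D) • U) := by
    refine ⟨m + 1, ?_⟩
    rw [sub_pow_gen (toR A) U k D hD0 r1 r2 r3 m, ← hm, hAn, sub_self]
  have hNP : (toR A - ((k : ℚ) / D) • U) * (((k : ℚ) / D) • U) = 0 := by
    rw [Matrix.sub_mul, Matrix.mul_smul, Matrix.mul_smul, Matrix.smul_mul, r1, r2]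
    simp only [smul_smul]
    rw [← sub_smul, show (k / D * k - k / D * (k / D * D) : ℚ) = 0 by field_simp; ring, zero_smul]
  have hcp := charpoly_add _ _ hnil hNP
  rw [sub_add_cancel] at hcp
  have hU : ((k : ℚ) / D) • U = Matrix.vecMulVec (fun i => ((k : ℚ) / D) * u i) (fun j => (v j : ℚ)) := by
    ext i j
    simp [U, Matrix.vecMulVec_apply, mul_assoc]
  rw [hU, Matrix.charpoly_vecMulVec, Fintype.card_fin] at hcp
  have hdot : (fun i => ((k : ℚ) / D) * (u i : ℚ)) ⬝ᵥ (fun j => (v j : ℚ)) = k := by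
    simp only [dotProduct]
    have : ∑ i, (k : ℚ) / D * (u i : ℚ) * (v i : ℚ) = (k : ℚ) / D * ((D : ℕ) : ℚ) := by
      rw [hD]
      push_cast
      rw [Finset.mul_sum]
      exact Finset.sum_congr rfl (fun i _ => by ring)
    rw [this]
    field_simp
  rw [hdot] at hcp
  have hCH := Matrix.aeval_self_charpoly (toR A)
  rw [hcp, map_sub, map_pow, Polynomial.aeval_X, map_smul, map_pow, Polynomial.aeval_X,
    sub_eq_zero, hAn] at hCH
  rw [hpow (n - 1)]
  have h5 : ((k : ℚ)) • ((k : ℚ) ^ (n - 1) / D) • U = (k : ℚ) • toR A ^ (n - 1) := by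
    rw [← hCH, smul_smul]
    congr 1
    rw [hm]
    simp only [Nat.add_sub_cancel]
    rw [pow_succ]
    ring
  have h6 := congrArg (fun M => ((k : ℚ)⁻¹) • M) h5
  simp only [smul_smul, inv_mul_cancel₀ hk0, one_smul] at h6
  rw [← h6]
  congr 1
  field_simp

/-- Primitive eigenvectors. -/
theorem prim_vec {A : Matrix (Fin n) (Fin n) ℕ} {k : ℕ} {u v : Fin n → ℕ}
    (hu : ∀ i, ∑ j, A i j * u j = k * u i) (hv : ∀ j, ∑ i, v i * A i j = k * v j)
    (h0 : ∑ i, v i * u i ≠ 0) (s : ℕ)
    (h : ∀ i j, (∑ i, v i * u i) * (A ^ s) i j = k ^ s * (u i * v j)) :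
    ∃ u0 v0 : Fin n → ℕ, (∀ i, ∑ j, A i j * u0 j = k * u0 i) ∧
      (∀ j, ∑ i, v0 i * A i j = k * v0 j) ∧ ∑ i, v0 i * u0 i ≠ 0 ∧
      ∑ i, v0 i * u0 i ∣ k ^ s := by
  obtain ⟨i0, hi0⟩ : ∃ i, v i * u i ≠ 0 := by
    by_contra hcon
    push Not at hcon
    exact h0 (Finset.sum_eq_zero (fun i _ => hcon i))
  have hui : u i0 ≠ 0 := fun h' => hi0 (by rw [h', mul_zero])
  have hvi : v i0 ≠ 0 := fun h' => hi0 (by rw [h', zero_mul])
  obtain ⟨u0, hu0, hg0⟩ := Finset.extract_gcd u ⟨i0, Finset.mem_univ i0⟩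
  obtain ⟨v0, hv0, hh0⟩ := Finset.extract_gcd v ⟨i0, Finset.mem_univ i0⟩
  set g := Finset.univ.gcd u
  set h' := Finset.univ.gcd v
  have hg : 0 < g := by
    rcases Nat.eq_zero_or_pos g with h1 | h1
    · have := hu0 i0 (Finset.mem_univ _)
      rw [h1, zero_mul] at this
      exact absurd this hui
    · exact h1
  have hh : 0 < h' := by
    rcases Nat.eq_zero_or_pos h' with h1 | h1
    · have := hv0 i0 (Finset.mem_univ _)
      rw [h1, zero_mul] at this
      exact absurd this hvi
    · exact h1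
  have hu0' : ∀ i, u i = g * u0 i := fun i => hu0 i (Finset.mem_univ _)
  have hv0' : ∀ i, v i = h' * v0 i := fun i => hv0 i (Finset.mem_univ _)
  set d := ∑ i, v0 i * u0 i with hd
  have hDd : ∑ i, v i * u i = g * h' * d := by
    rw [hd, Finset.mul_sum]
    exact Finset.sum_congr rfl (fun i _ => by rw [hu0', hv0']; ring)
  have hd0 : 0 < d := by
    rcases Nat.eq_zero_or_pos d with h1 | h1
    · rw [h1, mul_zero] at hDd
      exact absurd hDd h0
    · exact h1
  have h2 : ∀ i j, d * (A ^ s) i j = k ^ s * (u0 i * v0 j) := by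
    intro i j
    apply Nat.eq_of_mul_eq_mul_left (Nat.mul_pos hg hh)
    have := h i j
    rw [hDd, hu0', hv0'] at this
    calc g * h' * (d * (A ^ s) i j) = g * h' * d * (A ^ s) i j := by ring
      _ = k ^ s * (g * u0 i * (h' * v0 j)) := this
      _ = g * h' * (k ^ s * (u0 i * v0 j)) := by ring
  have hdvd : d ∣ k ^ s := by
    have h3 : ∀ i, d ∣ k ^ s * u0 i := by
      intro i
      have h4 : d ∣ Finset.univ.gcd (fun j => (k ^ s * u0 i) * v0 j) := by
        apply Finset.dvd_gcd
        intro j _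
        rw [mul_assoc, ← h2 i j]
        exact Dvd.intro _ rfl
      rw [Finset.gcd_mul_left, hh0] at h4
      simpa using h4
    have h5 : d ∣ Finset.univ.gcd (fun i => k ^ s * u0 i) :=
      Finset.dvd_gcd (fun i _ => h3 i)
    rw [Finset.gcd_mul_left, hg0] at h5
    simpa using h5
  refine ⟨u0, v0, ?_, ?_, by omega, hdvd⟩
  · intro i
    apply Nat.eq_of_mul_eq_mul_left hg
    have := hu i
    simp only [hu0'] at this
    rw [Finset.mul_sum]
    calc ∑ x, g * (A i x * u0 x) = ∑ x, A i x * (g * u0 x) :=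
          Finset.sum_congr rfl (fun x _ => by ring)
      _ = k * (g * u0 i) := this
      _ = g * (k * u0 i) := by ring
  · intro j
    apply Nat.eq_of_mul_eq_mul_left hh
    have := hv j
    simp only [hv0'] at this
    rw [Finset.mul_sum]
    calc ∑ x, h' * (v0 x * A x j) = ∑ x, h' * v0 x * A x j :=
          Finset.sum_congr rfl (fun x _ => by ring)
      _ = k * (h' * v0 j) := this
      _ = h' * (k * v0 j) := by ring

/-- Eigenvectors from a shift equivalence. -/
theorem vec_of_se {A : Matrix (Fin n) (Fin n) ℕ} {k : ℕ} (hk : 1 ≤ k) (h : SE A (full k)) :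
    ∃ u v : Fin n → ℕ, (∀ i, ∑ j, A i j * u j = k * u i) ∧ (∀ j, ∑ i, v i * A i j = k * v j) ∧
      ∑ i, v i * u i ≠ 0 ∧ ∑ i, v i * u i ∣ k ^ (n - 1) := by
  have hse := h
  obtain ⟨l, R, S, hl, h1, h2, h3, h4⟩ := h
  have hf : full k 0 0 = k := rfl
  have hu : ∀ i, ∑ j, A i j * R j 0 = k * R i 0 := by
    intro i
    have := congrFun (congrFun h3 i) 0
    rw [Matrix.mul_apply, Matrix.mul_apply] at this
    simp only [Finset.univ_unique, Fin.default_eq_zero, Finset.sum_singleton, hf] at this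
    rw [this]
    ring
  have hv : ∀ j, ∑ i, S 0 i * A i j = k * S 0 j := by
    intro j
    have := congrFun (congrFun h4 0) j
    rw [Matrix.mul_apply, Matrix.mul_apply] at this
    simpa only [Finset.univ_unique, Fin.default_eq_zero, Finset.sum_singleton, hf] using this
  have hD : ∑ i, S 0 i * R i 0 = k ^ l := by
    have := congrFun (congrFun h2 0) 0
    rw [full_pow, Matrix.mul_apply] at this
    exact this.symm
  have h0 : ∑ i, S 0 i * R i 0 ≠ 0 := by
    rw [hD]; exact pow_ne_zero l (by omega)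
  exact prim_vec hu hv h0 (n - 1)
    (crit_pred hk hu hv h0 (crit_of_se hk hu hv h0 hse))

/-- Matrices of size at most four. -/
theorem size_four {A : Matrix (Fin n) (Fin n) ℕ} (hn : n ≤ 4) (h : SE A (full 2)) :
    SSE A (full 2) := by
  obtain ⟨u, v, hu, hv, h0, hd⟩ := vec_of_se (by norm_num) h
  refine small h hu hv h0 ?_
  have h1 : ∑ i, v i * u i ≤ 2 ^ (n - 1) := Nat.le_of_dvd (Nat.pow_pos (by norm_num)) hd
  have h2 : 2 ^ (n - 1) ≤ 2 ^ 3 := Nat.pow_le_pow_right (by norm_num) (by omega)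
  omega

end Pool.Agent.H73AM
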