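import Pool.Agent.H73AM.Data

/-!
# The enumeration, part 1 (generated)
-/

set_option autoImplicit false
set_option maxRecDepth 100000

namespace Pool.Agent.H73AM

theorem all0 : allP pref0 = true := by decide +kernel

theorem all4 : allP pref4 = true := by decide +kernel

theorem all8 : allP pref8 = true := by decide +kernel

theorem all12 : allP pref12 = true := by decide +kernel

theorem all16 : allP pref16 = true := by decide +kernel

theorem all20 : allP pref20 = true := by decide +kernel

theorem all24 : allP pref24 = true := by decide +kernel

theorem all28 : allP pref28 = true := by decide +kernel

theorem all32 : allP pref32 = true := by decide +kernel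

end Pool.Agent.H73AM
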