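import Pool.Agent.H73AM.Stm

/-!
# Reduction to doubly stochastic matrices by state splitting

Every matrix over `ℕ` which is shift equivalent to `[k]` is strong shift equivalent to a matrix all
of whose row and column sums are `k`, of size dividing `v · u` for all left and right eigenvectors
`v`, `u` over `ℕ` for `k` with `v · u ≠ 0`.
-/

set_option autoImplicit false

namespace Pool.Agent.H73AM

open Matrix

theorem SSE.transpose {n m : ℕ} {A : Matrix (Fin n) (Fin n) ℕ} {B : Matrix (Fin m) (Fin m) ℕ}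
    (h : SSE A B) : SSE Aᵀ Bᵀ := by
  have key : ∀ X Y : (Σ n : ℕ, Matrix (Fin n) (Fin n) ℕ), Relation.TransGen Elem X Y →
      Relation.TransGen Elem (⟨X.1, X.2ᵀ⟩ : Σ n : ℕ, Matrix (Fin n) (Fin n) ℕ)
        (⟨Y.1, Y.2ᵀ⟩ : Σ n : ℕ, Matrix (Fin n) (Fin n) ℕ) := by
    intro X Y hXY
    have step : ∀ X Y : (Σ n : ℕ, Matrix (Fin n) (Fin n) ℕ), Elem X Y →
        Elem (⟨X.1, X.2ᵀ⟩ : Σ n : ℕ, Matrix (Fin n) (Fin n) ℕ)
          (⟨Y.1, Y.2ᵀ⟩ : Σ n : ℕ, Matrix (Fin n) (Fin n) ℕ) := by
      rintro X Y ⟨R, S, h1, h2⟩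
      refine ⟨Sᵀ, Rᵀ, ?_, ?_⟩
      · rw [h1, Matrix.transpose_mul]
      · rw [h2, Matrix.transpose_mul]
    induction hXY with
    | single h => exact Relation.TransGen.single (step _ _ h)
    | tail _ h ih => exact Relation.TransGen.tail ih (step _ _ h)
  exact key _ _ h

theorem SE.of_sse {n m p : ℕ} {A : Matrix (Fin n) (Fin n) ℕ} {B : Matrix (Fin m) (Fin m) ℕ}
    {C : Matrix (Fin p) (Fin p) ℕ} (h : SSE A B) (h' : SE B C) : SE A C := by
  have hp : ∀ {a b : ℕ} (R : Matrix (Fin a) (Fin b) ℕ) (S : Matrix (Fin b) (Fin a) ℕ) (k : ℕ),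
      R * (S * R) ^ k * S = (R * S) ^ (k + 1) := by
    intro a b R S k
    induction k with
    | zero => simp
    | succ k ihk =>
      rw [pow_succ, pow_succ (R * S) (k + 1), ← ihk]
      simp only [Matrix.mul_assoc]
  have key : ∀ X Y : (Σ n : ℕ, Matrix (Fin n) (Fin n) ℕ), Relation.TransGen Elem X Y →
      SE Y.2 C → SE X.2 C := by
    intro X Y hXY
    have step : ∀ X Y : (Σ n : ℕ, Matrix (Fin n) (Fin n) ℕ), Elem X Y → SE Y.2 C → SE X.2 C := by
      rintro X Y ⟨R, S, h1, h2⟩ ⟨l, U, V, hl, e1, e2, e3, e4⟩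
      refine ⟨l + 1, R * U, V * S, by omega, ?_, ?_, ?_, ?_⟩
      · rw [h1, ← hp, ← h2, e1]
        simp only [Matrix.mul_assoc]
      · rw [pow_succ, e2, Matrix.mul_assoc V U, ← e3, h2]
        simp only [Matrix.mul_assoc]
      · rw [h1, Matrix.mul_assoc R U, ← e3, h2]
        simp only [Matrix.mul_assoc]
      · rw [← Matrix.mul_assoc, ← e4, h1, h2]
        simp only [Matrix.mul_assoc]
    induction hXY with
    | single h => exact step _ _ h
    | tail _ h ih => exact fun h' => ih (step _ _ h h')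
  exact key _ _ h h'

/-- Some power has positive entries. -/
def Prim {m : ℕ} (A : Matrix (Fin m) (Fin m) ℕ) : Prop := ∃ s, ∀ i j, 0 < (A ^ s) i j

/-- Pigeonhole: a proper nonempty part of the weights with sum divisible by `k`. -/
theorem pig (k : ℕ) (hk : 1 ≤ k) {m : ℕ} (a u : Fin m → ℕ) (hu : ∀ j, 0 < u j)
    (ha : k < ∑ j, a j) : ∃ c : Fin m → ℕ, (∀ j, c j ≤ a j) ∧ k ∣ ∑ j, c j * u j ∧
      0 < ∑ j, c j * u j ∧ ∑ j, c j * u j < ∑ j, a j * u j := by
  classical
  set r := ∑ j, a j with hr
  let g : Fin r → Fin m := fun x => (finSigmaFinEquiv.symm x).1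
  have hcard : ∀ j, (Finset.univ.filter (fun x : Fin r => g x = j)).card = a j := by
    intro j
    rw [← Fintype.card_subtype]
    have e : {x : Fin r // g x = j} ≃ {y : (Σ i : Fin m, Fin (a i)) // y.1 = j} :=
      finSigmaFinEquiv.symm.subtypeEquiv (fun x => Iff.rfl)
    rw [Fintype.card_congr e]
    have e2 : {y : (Σ i : Fin m, Fin (a i)) // y.1 = j} ≃ Fin (a j) :=
      Equiv.sigmaSubtype j
    rw [Fintype.card_congr e2, Fintype.card_fin]
  -- prefix sums
  let F : ℕ → ℕ := fun p => ∑ x ∈ Finset.univ.filter (fun x : Fin r => x.val < p), u (g x)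
  have hpig : ∃ p ∈ Finset.range (k + 1), ∃ q ∈ Finset.range (k + 1), p ≠ q ∧
      F p % k = F q % k := by
    apply Finset.exists_ne_map_eq_of_card_lt_of_maps_to (t := Finset.range k)
    · simp
    · intro p _
      simpa using Nat.mod_lt _ (by omega)
  have hpq : ∃ p q, p < q ∧ q ≤ k ∧ F p % k = F q % k := by
    obtain ⟨p, hp, q, hq, hne, he⟩ := hpig
    rw [Finset.mem_range] at hp hq
    rcases lt_or_gt_of_ne hne with h | h
    · exact ⟨p, q, h, by omega, he⟩
    · exact ⟨q, p, h, by omega, he.symm⟩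
  obtain ⟨p, q, hpq, hqk, he⟩ := hpq
  let T : Finset (Fin r) := Finset.univ.filter (fun x : Fin r => p ≤ x.val ∧ x.val < q)
  have hsplit : F q = F p + ∑ x ∈ T, u (g x) := by
    have hdis : Disjoint (Finset.univ.filter (fun x : Fin r => x.val < p)) T := by
      rw [Finset.disjoint_left]
      intro x hx hx'
      simp only [Finset.mem_filter, Finset.mem_univ, true_and, T] at hx hx'
      omega
    show ∑ x ∈ Finset.univ.filter (fun x : Fin r => x.val < q), u (g x) =
      ∑ x ∈ Finset.univ.filter (fun x : Fin r => x.val < p), u (g x) + ∑ x ∈ T, u (g x)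
    rw [← Finset.sum_union hdis]
    apply Finset.sum_congr _ (fun _ _ => rfl)
    ext x
    simp only [Finset.mem_filter, Finset.mem_univ, true_and, T, Finset.mem_union]
    omega
  have hdvd : k ∣ ∑ x ∈ T, u (g x) := by
    have h1 : F p ≡ F p + ∑ x ∈ T, u (g x) [MOD k] := by
      rw [← hsplit]; exact he
    have h2 : F p + 0 ≡ F p + ∑ x ∈ T, u (g x) [MOD k] := by simpa using h1
    exact (Nat.modEq_zero_iff_dvd.1 (Nat.ModEq.add_left_cancel' _ h2).symm)
  let c : Fin m → ℕ := fun j => (T.filter (fun x => g x = j)).card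
  have hc : ∑ j, c j * u j = ∑ x ∈ T, u (g x) := by
    rw [← Finset.sum_fiberwise T g (fun x => u (g x))]
    apply Finset.sum_congr rfl
    intro j _
    rw [Finset.sum_congr rfl (g := fun _ => u j)]
    · rw [Finset.sum_const, smul_eq_mul]
    · intro x hx
      rw [(Finset.mem_filter.1 hx).2]
  have hall : ∑ j, a j * u j = ∑ x : Fin r, u (g x) := by
    rw [← Finset.sum_fiberwise Finset.univ g (fun x => u (g x))]
    apply Finset.sum_congr rfl
    intro j _
    rw [Finset.sum_congr rfl (g := fun _ => u j)]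
    · rw [Finset.sum_const, smul_eq_mul, hcard]
    · intro x hx
      rw [(Finset.mem_filter.1 hx).2]
  refine ⟨c, ?_, by rw [hc]; exact hdvd, ?_, ?_⟩
  · intro j
    rw [← hcard j]
    exact Finset.card_le_card (Finset.filter_subset_filter _ (Finset.subset_univ _))
  · rw [hc]
    apply Finset.sum_pos (fun x _ => hu _)
    refine ⟨⟨p, by omega⟩, ?_⟩
    simp only [Finset.mem_filter, Finset.mem_univ, true_and, T]
    omega
  · rw [hc, hall]
    apply Finset.sum_lt_sum_of_subset (Finset.subset_univ T) (i := ⟨k, by omega⟩)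
      (Finset.mem_univ _)
    · simp only [Finset.mem_filter, Finset.mem_univ, true_and, T]
      omega
    · exact hu _
    · intro _ _ _
      exact Nat.zero_le _

/-- General splitting. -/
theorem split_sse {m m1 : ℕ} (A : Matrix (Fin m) (Fin m) ℕ) (pr : Fin m1 → Fin m)
    (S : Fin m1 → Fin m → ℕ) (h : ∀ j l, A j l = ∑ x, if pr x = j then S x l else 0) :
    SSE A (Matrix.of fun x y => S x (pr y)) := by
  refine SSE.of_elem (Matrix.of fun j x => if pr x = j then 1 else 0) (Matrix.of S) ?_ ?_
  · ext j l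
    rw [h, Matrix.mul_apply]
    apply Finset.sum_congr rfl
    intro x _
    simp
  · ext x y
    rw [Matrix.mul_apply]
    simp

theorem split_left {m m1 : ℕ} (A : Matrix (Fin m) (Fin m) ℕ) (pr : Fin m1 → Fin m)
    (S : Fin m1 → Fin m → ℕ) (h : ∀ j l, A j l = ∑ x, if pr x = j then S x l else 0)
    (v : Fin m → ℕ) (l : Fin m) : ∑ x, v (pr x) * S x l = ∑ j, v j * A j l := by
  simp only [h, Finset.mul_sum]
  rw [Finset.sum_comm]
  apply Finset.sum_congr rfl
  intro x _
  rw [Finset.sum_eq_single (pr x)]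
  · simp
  · intro b _ hb
    rw [if_neg (Ne.symm hb), mul_zero]
  · simp

theorem split_right {m m1 : ℕ} (pr : Fin m1 → Fin m) (S : Fin m1 → Fin m → ℕ)
    (u : Fin m → ℕ) (u1 : Fin m1 → ℕ) (h : ∀ j, ∑ x, (if pr x = j then u1 x else 0) = u j)
    (x : Fin m1) : ∑ y, S x (pr y) * u1 y = ∑ l, S x l * u l := by
  simp only [← h, Finset.mul_sum]
  rw [Finset.sum_comm]
  apply Finset.sum_congr rfl
  intro y _
  rw [Finset.sum_eq_single (pr y)]
  · simp
  · intro b _ hb
    rw [if_neg (Ne.symm hb), mul_zero]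
  · simp

theorem split_dot {m m1 : ℕ} (pr : Fin m1 → Fin m) (v u : Fin m → ℕ) (u1 : Fin m1 → ℕ)
    (h : ∀ j, ∑ x, (if pr x = j then u1 x else 0) = u j) :
    ∑ x, v (pr x) * u1 x = ∑ j, v j * u j := by
  simp only [← h, Finset.mul_sum]
  rw [Finset.sum_comm]
  apply Finset.sum_congr rfl
  intro y _
  rw [Finset.sum_eq_single (pr y)]
  · simp
  · intro b _ hb
    rw [if_neg (Ne.symm hb), mul_zero]
  · simp

theorem split_prim {m m1 : ℕ} (A : Matrix (Fin m) (Fin m) ℕ) (pr : Fin m1 → Fin m)
    (S : Fin m1 → Fin m → ℕ) (h : ∀ j l, A j l = ∑ x, if pr x = j then S x l else 0)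
    (hS : ∀ x, ∃ l, 0 < S x l) (hA : Prim A) :
    Prim (Matrix.of fun x y => S x (pr y) : Matrix (Fin m1) (Fin m1) ℕ) := by
  obtain ⟨s, hs⟩ := hA
  set B : Matrix (Fin m1) (Fin m1) ℕ := Matrix.of fun x y => S x (pr y) with hB
  have hBe : ∀ x y, B x y = S x (pr y) := fun x y => rfl
  have key : ∀ s, ∀ x y, (B ^ (s + 1)) x y = ∑ l, S x l * (A ^ s) l (pr y) := by
    intro s
    induction s with
    | zero =>
      intro x y
      rw [zero_add, pow_one, hBe]
      simp [Matrix.one_apply]
    | succ s ih =>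
      intro x y
      rw [pow_succ, Matrix.mul_apply]
      simp only [ih, hBe, Finset.sum_mul]
      rw [Finset.sum_comm]
      apply Finset.sum_congr rfl
      intro l _
      simp only [mul_assoc, ← Finset.mul_sum]
      rw [split_left A pr S h (fun j => (A ^ s) l j) (pr y), pow_succ, Matrix.mul_apply]
  refine ⟨s + 1, fun x y => ?_⟩
  rw [key]
  obtain ⟨l, hl⟩ := hS x
  exact Finset.sum_pos' (fun _ _ => Nat.zero_le _) ⟨l, Finset.mem_univ _, Nat.mul_pos hl (hs _ _)⟩

theorem pow_eig {m : ℕ} {A : Matrix (Fin m) (Fin m) ℕ} {k : ℕ} {u : Fin m → ℕ}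
    (h : ∀ i, ∑ j, A i j * u j = k * u i) (s : ℕ) :
    ∀ i, ∑ j, (A ^ s) i j * u j = k ^ s * u i := by
  induction s with
  | zero => intro i; simp [Matrix.one_apply]
  | succ s ih =>
    intro i
    simp only [pow_succ, Matrix.mul_apply, Finset.sum_mul]
    rw [Finset.sum_comm]
    simp only [mul_assoc, ← Finset.mul_sum, h]
    have : ∀ j, (A ^ s) i j * (k * u j) = k * ((A ^ s) i j * u j) := fun j => by ring
    simp only [this, ← Finset.mul_sum, ih]
    ring

theorem pow_row_le {m : ℕ} {A : Matrix (Fin m) (Fin m) ℕ} {k : ℕ}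
    (h : ∀ i, ∑ j, A i j ≤ k) (s : ℕ) : ∀ i, ∑ j, (A ^ s) i j ≤ k ^ s := by
  induction s with
  | zero => intro i; simp [Matrix.one_apply]
  | succ s ih =>
    intro i
    simp only [pow_succ, Matrix.mul_apply]
    rw [Finset.sum_comm]
    simp only [← Finset.mul_sum]
    calc ∑ j, (A ^ s) i j * ∑ l, A j l ≤ ∑ j, (A ^ s) i j * k :=
          Finset.sum_le_sum (fun j _ => Nat.mul_le_mul_left _ (h j))
      _ = (∑ j, (A ^ s) i j) * k := by rw [Finset.sum_mul]
      _ ≤ k ^ s * k := Nat.mul_le_mul_right _ (ih i)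

/-- If all row sums are at most `k` then the eigenvector is constant. -/
theorem const_eig {m : ℕ} (hm : 0 < m) {A : Matrix (Fin m) (Fin m) ℕ} {k : ℕ} {u : Fin m → ℕ}
    (hA : Prim A) (h : ∀ i, ∑ j, A i j * u j = k * u i) (hr : ∀ i, ∑ j, A i j ≤ k) :
    ∃ c, ∀ i, u i = c := by
  obtain ⟨s, hs⟩ := hA
  obtain ⟨i0, -, hi0⟩ := Finset.exists_max_image (Finset.univ : Finset (Fin m)) u
    ⟨⟨0, hm⟩, Finset.mem_univ _⟩
  refine ⟨u i0, fun j => ?_⟩
  have h1 := pow_eig h s i0
  have h2 := pow_row_le hr s i0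
  by_contra hne
  have hlt : u j < u i0 := lt_of_le_of_ne (hi0 j (Finset.mem_univ _)) hne
  have h3 : ∑ l, (A ^ s) i0 l * u l < ∑ l, (A ^ s) i0 l * u i0 := by
    apply Finset.sum_lt_sum
    · intro l _
      exact Nat.mul_le_mul_left _ (hi0 l (Finset.mem_univ _))
    · exact ⟨j, Finset.mem_univ _, Nat.mul_lt_mul_of_pos_left hlt (hs i0 j)⟩
  rw [← Finset.sum_mul, h1] at h3
  have h4 := Nat.mul_le_mul_right (u i0) h2
  omega

/-- Splitting until all row sums are `k`. -/
theorem rows (k : ℕ) (hk : 1 ≤ k) : ∀ (N m : ℕ) (A : Matrix (Fin m) (Fin m) ℕ) (u : Fin m → ℕ),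
    ∑ i, u i = m + N → (∀ i, 0 < u i) → (∀ i, ∑ j, A i j * u j = k * u i) → Prim A → 0 < m →
    ∃ (m' : ℕ) (B : Matrix (Fin m') (Fin m') ℕ) (pr : Fin m' → Fin m) (c : ℕ),
      SSE A B ∧ Prim B ∧ 0 < m' ∧ 0 < c ∧ (∀ x, ∑ y, B x y = k) ∧
      ∀ v : Fin m → ℕ, (∀ j, ∑ i, v i * A i j = k * v j) →
        (∀ y, ∑ x, v (pr x) * B x y = k * v (pr y)) ∧
        c * ∑ x, v (pr x) = ∑ i, v i * u i := by
  intro N
  induction N with
  | zero =>
    intro m A u hsum hu heig hA hm
    have hone : ∀ i, u i = 1 := by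
      by_contra hcon
      push Not at hcon
      obtain ⟨i, hi⟩ := hcon
      have : ∑ i : Fin m, 1 < ∑ i, u i := by
        apply Finset.sum_lt_sum (fun j _ => hu j)
        exact ⟨i, Finset.mem_univ _, by have := hu i; omega⟩
      simp at this
      omega
    refine ⟨m, A, id, 1, SSE.refl A, hA, hm, one_pos, ?_, ?_⟩
    · intro x
      have := heig x
      simpa [hone] using this
    · intro v hv
      refine ⟨hv, ?_⟩
      simp [hone]
  | succ N ih =>
    intro m A u hsum hu heig hA hm
    by_cases hrow : ∀ i, ∑ j, A i j ≤ k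
    · obtain ⟨c, hc⟩ := const_eig hm hA heig hrow
      have hcpos : 0 < c := by rw [← hc ⟨0, hm⟩]; exact hu _
      refine ⟨m, A, id, c, SSE.refl A, hA, hm, hcpos, ?_, ?_⟩
      · intro x
        have := heig x
        simp only [hc, ← Finset.sum_mul] at this
        exact Nat.eq_of_mul_eq_mul_right hcpos this
      · intro v hv
        refine ⟨hv, ?_⟩
        simp only [hc, id, Finset.mul_sum]
        apply Finset.sum_congr rfl
        intro i _
        ring
    · push Not at hrow
      obtain ⟨i, hi⟩ := hrow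
      obtain ⟨c, hc1, ⟨w, hw⟩, hc3, hc4⟩ := pig k hk (A i) u hu hi
      rw [heig i] at hc4
      rw [hw] at hc3 hc4
      have hwpos : 0 < w := Nat.pos_of_mul_pos_left hc3 |> fun h => by
        rcases Nat.eq_zero_or_pos w with h0 | h0
        · rw [h0, mul_zero] at hc3; omega
        · exact h0
      have hwlt : w < u i := Nat.lt_of_mul_lt_mul_left hc4
      let pr : Fin (m + 1) → Fin m := Fin.lastCases i id
      let S : Fin (m + 1) → Fin m → ℕ :=
        Fin.lastCases (fun l => A i l - c l) (fun j => if j = i then c else A j)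
      let u1 : Fin (m + 1) → ℕ := Fin.lastCases (u i - w) (fun j => if j = i then w else u j)
      have hpr1 : pr (Fin.last m) = i := by simp [pr]
      have hpr2 : ∀ j : Fin m, pr j.castSucc = j := by intro j; simp [pr]
      have hS1 : S (Fin.last m) = fun l => A i l - c l := by simp [S]
      have hS2 : ∀ j : Fin m, S j.castSucc = if j = i then c else A j := by intro j; simp [S]
      have hu1 : u1 (Fin.last m) = u i - w := by simp [u1]
      have hu2 : ∀ j : Fin m, u1 j.castSucc = if j = i then w else u j := by intro j; simp [u1]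
      have hfac : ∀ j l, A j l = ∑ x, if pr x = j then S x l else 0 := by
        intro j l
        rw [Fin.sum_univ_castSucc]
        simp only [hpr1, hpr2, hS1, hS2]
        rw [Finset.sum_ite_eq' Finset.univ j]
        by_cases hj : j = i
        · subst hj
          have := hc1 l
          simp only [Finset.mem_univ, if_true]
          omega
        · have hj' : ¬ i = j := fun h => hj h.symm
          simp [hj, hj']
      have husum : ∀ j, ∑ x, (if pr x = j then u1 x else 0) = u j := by
        intro j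
        rw [Fin.sum_univ_castSucc]
        simp only [hpr1, hpr2, hu1, hu2]
        rw [Finset.sum_ite_eq' Finset.univ j]
        by_cases hj : j = i
        · subst hj
          simp only [Finset.mem_univ, if_true]
          omega
        · have hj' : ¬ i = j := fun h => hj h.symm
          simp [hj, hj']
      have hSu : ∀ x, ∑ l, S x l * u l = k * u1 x := by
        intro x
        refine Fin.lastCases ?_ (fun j => ?_) x
        · rw [hS1, hu1, Nat.mul_sub]
          beta_reduce
          have h1 := heig i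
          have h2 : ∑ l, (A i l - c l) * u l + ∑ l, c l * u l = ∑ l, A i l * u l := by
            rw [← Finset.sum_add_distrib]
            apply Finset.sum_congr rfl
            intro l _
            rw [← Nat.add_mul, Nat.sub_add_cancel (hc1 l)]
          omega
        · rw [hS2, hu2]
          by_cases hj : j = i
          · simp only [hj, if_true]
            exact hw
          · simp only [hj, if_false]
            exact heig j
      have hSpos : ∀ x, ∃ l, 0 < S x l := by
        intro x
        by_contra hcon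
        push Not at hcon
        have h1 := hSu x
        rw [Finset.sum_eq_zero (fun l _ => by have := hcon l; simp; omega)] at h1
        have h2 : 0 < u1 x := by
          refine Fin.lastCases ?_ (fun j => ?_) x
          · rw [hu1]; omega
          · rw [hu2]
            split_ifs
            · exact hwpos
            · exact hu j
        have := Nat.mul_pos (show 0 < k by omega) h2
        omega
      have hu1pos : ∀ x, 0 < u1 x := by
        intro x
        refine Fin.lastCases ?_ (fun j => ?_) x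
        · rw [hu1]; omega
        · rw [hu2]
          split_ifs
          · exact hwpos
          · exact hu j
      have hu1sum : ∑ x, u1 x = (m + 1) + N := by
        have := split_dot pr (fun _ => 1) u u1 husum
        simp only [one_mul] at this
        rw [this, hsum]
        omega
      obtain ⟨m', B, pr', c', e1, e2, e3, e4, e5, e6⟩ := ih (m + 1)
        (Matrix.of fun x y => S x (pr y)) u1 hu1sum hu1pos
        (fun x => by
          simp only [Matrix.of_apply]
          rw [split_right pr S u u1 husum x, hSu])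
        (split_prim A pr S hfac hSpos hA) (Nat.succ_pos m)
      refine ⟨m', B, fun x => pr (pr' x), c', (split_sse A pr S hfac).trans e1, e2, e3, e4, e5, ?_⟩
      intro v hv
      have h1 := e6 (fun x => v (pr x)) (fun y => by
        simp only [Matrix.of_apply]
        rw [split_left A pr S hfac v (pr y), hv])
      refine ⟨h1.1, ?_⟩
      rw [h1.2, split_dot pr v u u1 husum]

end Pool.Agent.H73AM
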