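import Pool.Agent.H73AM.Enum

/-!
# Soundness of the enumeration
-/

set_option autoImplicit false

namespace Pool.Agent.H73AM

open Matrix

variable {n : ℕ} {A : Matrix (Fin n) (Fin n) ℕ}

theorem Inv.card_le {rr av : List (ℕ × ℕ)} {m k : ℕ} {f : ℕ → Fin n} (h : Inv A rr av m k f) :
    k ≤ n := by
  have h1 : (Finset.range k).card ≤ (Finset.univ : Finset (Fin n)).card := by
    apply Finset.card_le_card_of_injOn f (fun _ _ => Finset.mem_univ _)
    intro i hi j hj hij
    rw [Finset.mem_coe, Finset.mem_range] at hi hj
    exact h.inj i j hi hj hij
  simpa using h1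

theorem Inv.exists_new {rr av : List (ℕ × ℕ)} {m k : ℕ} {f : ℕ → Fin n}
    (_h : Inv A rr av m k f) (hk : k < n) : ∃ w, ∀ i < k, f i ≠ w := by
  by_contra hcon
  push Not at hcon
  have h1 : (Finset.univ : Finset (Fin n)) ⊆ (Finset.range k).image f := by
    intro w _
    obtain ⟨i, hi, hw⟩ := hcon w
    exact Finset.mem_image.2 ⟨i, Finset.mem_range.2 hi, hw⟩
  have h2 := (Finset.card_le_card h1).trans Finset.card_image_le
  simp at h2
  omega

theorem Inv.walk {rr av : List (ℕ × ℕ)} {m k : ℕ} {f : ℕ → Fin n} (h : Inv A rr av m k f)
    (hk : m = k) (s : ℕ) :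
    ∀ i, i < k → ∀ j, j < k → (A ^ s) (f i) (f j) = wk rr.reverse s i j := by
  induction s with
  | zero =>
    intro i hi j hj
    rw [pow_zero, Matrix.one_apply, wk_zero, del_eq]
    by_cases hij : i = j
    · simp [hij]
    · have : f i ≠ f j := fun h' => hij (h.inj i j hi hj h')
      simp [hij, this]
  | succ s ih =>
    intro i hi j hj
    obtain ⟨r1, r2, r3⟩ := h.row i (by omega)
    rw [pow_succ', Matrix.mul_apply, wk_succ, ← ih _ r1 j hj, ← ih _ r2 j hj]
    simp only [r3, add_mul, ite_mul, one_mul, zero_mul, Finset.sum_add_distrib,
      Finset.sum_ite_eq, Finset.mem_univ, if_true]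

theorem trw_eq (rows : List (ℕ × ℕ)) (s n : ℕ) :
    trw rows s n = ∑ i ∈ Finset.range n, wk rows s i i := by
  induction n with
  | zero => simp [trw_zero]
  | succ n ih => rw [trw_succ, Finset.sum_range_succ, ih]

/-- A full labelling as a permutation. -/
theorem Inv.exists_perm {rr av : List (ℕ × ℕ)} {m k : ℕ} {f : ℕ → Fin n}
    (h : Inv A rr av m k f) (hk : k = n) : ∃ σ : Equiv.Perm (Fin n), ∀ i : Fin n, σ i = f i := by
  have hinj : Function.Injective (fun i : Fin n => f i) := by
    intro i j hij
    exact Fin.ext (h.inj i j (by omega) (by omega) hij)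
  exact ⟨Equiv.ofBijective _ (Finite.injective_iff_bijective.1 hinj), fun i => rfl⟩

theorem permOK_spec {p : List ℕ} (h : permOK n p = true) :
    ∃ π : Equiv.Perm (Fin n), ∀ i : Fin n, ((π i : Fin n) : ℕ) = p.getD i 0 := by
  have h1 : ∀ i < n, p.getD i 0 < n := by
    intro i hi
    have := allB_spec h i hi
    simp only [Bool.and_eq_true] at this
    simpa using this.1
  have h2 : ∀ i < n, ∀ j < i, p.getD i 0 ≠ p.getD j 0 := by
    intro i hi j hj heq
    have := allB_spec h i hi
    simp only [Bool.and_eq_true] at this
    have := allB_spec this.2 j hj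
    rw [heq] at this
    simp at this
  have hinj : Function.Injective (fun i : Fin n => (⟨p.getD i 0, h1 i i.2⟩ : Fin n)) := by
    intro i j hij
    have hij' : p.getD i 0 = p.getD j 0 := congrArg Fin.val hij
    rcases lt_trichotomy (i : ℕ) (j : ℕ) with h3 | h3 | h3
    · exact absurd hij'.symm (h2 j j.2 i h3)
    · exact Fin.ext h3
    · exact absurd hij' (h2 i i.2 j h3)
  exact ⟨Equiv.ofBijective _ (Finite.injective_iff_bijective.1 hinj), fun i => rfl⟩

theorem certOK_spec {rr av : List (ℕ × ℕ)} {p : List ℕ} {x : ℕ × List (List ℕ)}
    {m k : ℕ} {f : ℕ → Fin n} (h : Inv A rr av m k f) (hk : k = n) (hl : m = n)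
    (hx : SSE (toM x.1 x.1 x.2) two) (hc : certOK n rr.reverse p x = true) : SSE A two := by
  simp only [certOK, Bool.and_eq_true] at hc
  obtain ⟨⟨c1, c2⟩, c3⟩ := hc
  have e1 : x.1 = n := Nat.eq_of_beq_eq_true c1
  obtain ⟨σ, hσ⟩ := h.exists_perm hk
  obtain ⟨π, hπ⟩ := permOK_spec c2
  have hB : ∀ i j : Fin n, A (σ i) (σ j) = (toM n n x.2) (π i) (π j) := by
    intro i j
    have := Nat.eq_of_beq_eq_true (allB_spec (allB_spec c3 i i.2) j j.2)
    rw [hσ, hσ, h.ent_eq (by omega) (by omega), this]
    simp only [toM, Matrix.of_apply, hπ]
  have s1 : SSE A (Matrix.of fun i j => A (σ i) (σ j)) := SSE.of_perm σ (fun i j => rfl)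
  have s2 : SSE (toM n n x.2) (Matrix.of fun i j => A (σ i) (σ j)) :=
    SSE.of_perm π (fun i j => by rw [Matrix.of_apply, hB])
  have s3 : SSE (toM n n x.2) two := by
    have := hx
    rw [e1] at this
    exact this
  exact s1.trans (s2.symm.trans s3)

theorem look_spec {reps : List (ℕ × List (List ℕ))}
    (hreps : ∀ i, i < reps.length → SSE (toM (reps.getD i (0, [])).1 (reps.getD i (0, [])).1
      (reps.getD i (0, [])).2) two)
    {rr av : List (ℕ × ℕ)} {m k : ℕ} {f : ℕ → Fin n} (h : Inv A rr av m k f) (hk : k = n)
    (hl : m = n) (hn : 0 < n) (cs : List (List (ℕ × ℕ) × List ℕ × ℕ))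
    (hc : look reps n rr.reverse cs = true) : SSE A two := by
  induction cs with
  | nil => simp [look] at hc
  | cons c cs ih =>
    simp only [look, Bool.or_eq_true, Bool.and_eq_true] at hc
    rcases hc with hc | hc
    · have hi : c.2.2 < reps.length := by
        by_contra hcon
        have e : reps.getD c.2.2 (0, []) = (0, []) := by
          rw [List.getD_eq_default _ _ (by omega)]
        rw [e] at hc
        simp only [certOK, Bool.and_eq_true] at hc
        have h0 : (0 : ℕ) = n := Nat.eq_of_beq_eq_true hc.2.1.1
        omega
      exact certOK_spec h hk hl (hreps _ hi) hc.2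
    · exact ih hc

/-- Soundness of the final test. -/
theorem leaf_sound {reps : List (ℕ × List (List ℕ))}
    {cs : List (List (ℕ × ℕ) × List ℕ × ℕ)}
    (hreps : ∀ i, i < reps.length → SSE (toM (reps.getD i (0, [])).1 (reps.getD i (0, [])).1
      (reps.getD i (0, [])).2) two)
    (htr : ∀ s, 1 ≤ s → ∑ i, (A ^ s) i i = 2 ^ s)
    (rr av : List (ℕ × ℕ)) (k : ℕ) (f : ℕ → Fin n) (h : Inv A rr av n k f)
    (hg : leaf reps cs n rr av k = true) : SSE A two := by
  have hk : k = n := le_antisymm h.card_le h.le
  have hn : 0 < n := by have := h.two_le; omega
  obtain ⟨σ, hσ⟩ := h.exists_perm hk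
  have htr' : ∀ s, 1 ≤ s → trw rr.reverse s n = 2 ^ s := by
    intro s hs
    rw [← htr s hs, trw_eq, Finset.sum_range, ← Equiv.sum_comp σ (fun i => (A ^ s) i i)]
    apply Finset.sum_congr rfl
    intro i _
    rw [hσ, h.walk (by omega) s i (by omega) i (by omega)]
  have htrOK : trOK n rr.reverse = true := by
    simp [trOK, htr']
  simp only [leaf, htrOK, Bool.not_true, Bool.false_or] at hg
  exact look_spec hreps h hk rfl hn cs hg

theorem go_sound {P : Prop} {L : List (ℕ × ℕ) → List (ℕ × ℕ) → ℕ → Bool}
    (hr : ∀ i, ∑ j, A i j = 2) (hc : ∀ j, ∑ i, A i j = 2) (hirr : ∀ i j, ∃ s, 0 < (A ^ s) i j)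
    (M : ℕ) (hM : M ≤ n)
    (hL : ∀ rr av k (f : ℕ → Fin n), Inv A rr av M k f → L rr av k = true → P)
    (t : ℕ) : ∀ (rr av : List (ℕ × ℕ)) (m k : ℕ) (f : ℕ → Fin n), m + t = M →
      Inv A rr av m k f → go L n t rr av m k = true → P := by
  induction t with
  | zero =>
    intro rr av m k f hl h hg
    have : m = M := by omega
    subst this
    exact hL rr av k f h hg
  | succ t ih =>
    intro rr av m k f hl h hg
    have hkn := h.card_le
    have hm2 := h.two_le
    simp only [go, Bool.or_eq_true, Bool.and_eq_true] at hg
    by_cases hm : m = k
    · -- a proper closed subset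
      exfalso
      obtain ⟨w, hw⟩ := h.exists_new (by omega)
      have hclosed : ∀ s i, i < k → ∀ v, (∀ j < k, f j ≠ v) → (A ^ s) (f i) v = 0 := by
        intro s
        induction s with
        | zero =>
          intro i hi v hv
          rw [pow_zero, Matrix.one_apply, if_neg (hv i hi)]
        | succ s ihs =>
          intro i hi v hv
          obtain ⟨r1, r2, r3⟩ := h.row i (by omega)
          rw [pow_succ', Matrix.mul_apply]
          simp only [r3, add_mul, ite_mul, one_mul, zero_mul, Finset.sum_add_distrib,
            Finset.sum_ite_eq, Finset.mem_univ, if_true]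
          rw [ihs _ r1 v hv, ihs _ r2 v hv]
      obtain ⟨s, hs⟩ := hirr (f 0) w
      have := hclosed s 0 (by omega) w hw
      omega
    have hm' : m < k := lt_of_le_of_ne h.le hm
    have hg2 := hg.resolve_left (fun h' => hm (Nat.eq_of_beq_eq_true h'))
    obtain ⟨ga, gb, gc⟩ := hg2
    obtain ⟨w1, w2, hw⟩ := exists_succ (A (f m)) (hr _)
    -- the vertex has no loop
    have hloop : A (f m) (f m) = 0 := by
      apply h.noloop
      · intro h'
        have := h.inj m 0 hm' (by omega) h'
        omega
      · intro h'
        have := h.inj m 1 hm' (by omega) h'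
        omega
    -- available labels
    have havail : ∀ x < k, 1 ≤ A (f m) (f x) → (x, 2 - cnt rr x) ∈ av ∧ x ≠ m := by
      intro x hx hA
      have := h.cnt_le hc hm' hx
      refine ⟨h.avail x hx (by omega), ?_⟩
      rintro rfl
      omega
    have nbeq : ∀ x y : ℕ, x ≠ y → ¬ (Nat.beq x y = true) := fun x y hxy h' =>
      hxy (Nat.eq_of_beq_eq_true h')
    -- two old distinct successors, in the order of `av`
    have key2 : ∀ a b, a < k → b < k → a ≠ b →
        (∀ w, A (f m) w = (if f a = w then 1 else 0) + (if f b = w then 1 else 0)) →
        go L n t ((a, b) :: rr) (dec a (dec b av)) (m + 1) k = true → P := by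
      intro a b ha hb hab hrow hgo
      have ea := hrow (f a)
      have eb := hrow (f b)
      have hfa : A (f m) (f a) ≥ 1 := by rw [ea]; simp
      have hfb : A (f m) (f b) ≥ 1 := by rw [eb]; simp
      have ca := h.cnt_le hc hm' ha
      have cb := h.cnt_le hc hm' hb
      refine ih _ _ _ _ f (by omega) (h.ext hm' le_rfl (fun _ _ => rfl) h.inj ha hb hrow
        (dec_lt (dec_lt h.avlt)) (dec_nodup (dec_nodup h.avnd)) ?_) hgo
      intro x hx hcx
      simp only [cnt, del_eq] at hcx ⊢
      by_cases hxa : a = x
      · subst hxa
        have hba : ¬ b = a := fun h' => hab h'.symm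
        simp only [if_true, if_neg hba] at hcx ⊢
        have h0 : cnt rr a = 0 := by omega
        have hmem := h.avail a ha (by omega)
        rw [h0] at hmem ⊢
        exact dec_mem_self _ (dec_nodup h.avnd) (dec_mem_ne (by simpa using hab) _ hmem)
      · by_cases hxb : b = x
        · subst hxb
          simp only [if_true, if_neg hab] at hcx ⊢
          have h0 : cnt rr b = 0 := by omega
          have hmem := h.avail b hb (by omega)
          rw [h0] at hmem ⊢
          exact dec_mem_ne (by simpa using fun h' : b = a => hab h'.symm) _
            (dec_mem_self _ h.avnd hmem)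
        · simp only [if_neg hxa, if_neg hxb, zero_add] at hcx ⊢
          exact dec_mem_ne (by simpa using fun h' : x = a => hxa h'.symm) _
            (dec_mem_ne (by simpa using fun h' : x = b => hxb h'.symm) _ (h.avail x hx hcx))
    have hswap : ∀ a b, (∀ w, A (f m) w = (if f a = w then 1 else 0) +
        (if f b = w then 1 else 0)) → (∀ w, A (f m) w = (if f b = w then 1 else 0) +
        (if f a = w then 1 else 0)) := fun a b hab w => by rw [hab w, add_comm]
    have caseOO : ∀ a b, a < k → b < k →
        (∀ w, A (f m) w = (if f a = w then 1 else 0) + (if f b = w then 1 else 0)) → P := by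
      intro a b ha hb hrow
      have ea := hrow (f a)
      have eb := hrow (f b)
      have hfa : A (f m) (f a) ≥ 1 := by rw [ea]; simp
      have hfb : A (f m) (f b) ≥ 1 := by rw [eb]; simp
      obtain ⟨ma, nea⟩ := havail a ha hfa
      obtain ⟨mb, neb⟩ := havail b hb hfb
      by_cases hab : a = b
      · subst hab
        have h2 : A (f m) (f a) = 2 := by rw [ea]; simp
        have ca := h.cnt_le hc hm' ha
        have h0 : cnt rr a = 0 := by omega
        rw [h0] at ma
        obtain ⟨r, hF⟩ := allT_spec ga _ ma
        simp only [Bool.or_eq_true, Bool.and_eq_true] at hF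
        have hF2 := (hF.resolve_left (nbeq _ _ nea)).1
        have hgo := hF2.resolve_left (by simp)
        refine ih _ _ _ _ f (by omega) (h.ext hm' le_rfl (fun _ _ => rfl) h.inj ha ha hrow
          (dec_lt (dec_lt h.avlt)) (dec_nodup (dec_nodup h.avnd)) ?_) hgo
        intro x hx hcx
        simp only [cnt, del_eq] at hcx ⊢
        by_cases hxa : a = x
        · subst hxa
          simp only [if_true] at hcx
          omega
        · simp only [if_neg hxa, zero_add] at hcx ⊢
          exact dec_mem_ne (by simpa using fun h' : x = a => hxa h'.symm) _
            (dec_mem_ne (by simpa using fun h' : x = a => hxa h'.symm) _ (h.avail x hx hcx))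
      · rcases allT_spec2 ga _ ma _ mb (by
            intro h'
            exact hab (congrArg Prod.fst h')) with ⟨r, hqr, hF⟩ | ⟨r, hqr, hF⟩
        · simp only [Bool.or_eq_true, Bool.and_eq_true] at hF
          have hF2 := (hF.resolve_left (nbeq _ _ nea)).2.1
          have hF3 := allL_spec hF2 _ hqr
          simp only [Bool.or_eq_true] at hF3
          exact key2 a b ha hb hab hrow (hF3.resolve_left (nbeq _ _ neb))
        · simp only [Bool.or_eq_true, Bool.and_eq_true] at hF
          have hF2 := (hF.resolve_left (nbeq _ _ neb)).2.1
          have hF3 := allL_spec hF2 _ hqr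
          simp only [Bool.or_eq_true] at hF3
          exact key2 b a hb ha (Ne.symm hab) (hswap a b hrow) (hF3.resolve_left (nbeq _ _ nea))
    -- the case of one new successor
    have caseON : ∀ a w, a < k → (∀ i < k, f i ≠ w) →
        (∀ v, A (f m) v = (if f a = v then 1 else 0) + (if w = v then 1 else 0)) → P := by
      intro a w ha hnew hrow
      have ea := hrow (f a)
      have hfa : A (f m) (f a) ≥ 1 := by rw [ea]; simp
      obtain ⟨ma, nea⟩ := havail a ha hfa
      obtain ⟨r, hF⟩ := allT_spec ga _ ma
      simp only [Bool.or_eq_true, Bool.and_eq_true] at hF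
      have hF2 := (hF.resolve_left (nbeq _ _ nea)).2.2
      have hf' : ∀ i, i < k → Function.update f k w i = f i := fun i hi => by
        rw [Function.update_of_ne (by omega)]
      have hinj' : ∀ i j, i < k + 1 → j < k + 1 →
          Function.update f k w i = Function.update f k w j → i = j := by
        intro i j hi hj hij
        rcases Nat.lt_succ_iff_lt_or_eq.1 hi with h1 | h1 <;>
          rcases Nat.lt_succ_iff_lt_or_eq.1 hj with h2 | h2
        · rw [hf' i h1, hf' j h2] at hij
          exact h.inj i j h1 h2 hij
        · subst h2
          rw [hf' i h1, Function.update_self] at hij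
          exact absurd hij (hnew i h1)
        · subst h1
          rw [hf' j h2, Function.update_self] at hij
          exact absurd hij.symm (hnew j h2)
        · omega
      have hInv : Inv A ((a, k) :: rr) ((k, 1) :: dec a av) (m + 1) (k + 1)
          (Function.update f k w) := by
        refine h.ext hm' (by omega) hf' hinj' (by omega) (by omega) ?_ ?_ ?_ ?_
        · intro v
          rw [hf' a ha, Function.update_self]
          exact hrow v
        · intro p hp
          rcases List.mem_cons.1 hp with h1 | h1
          · rw [h1]; simp
          · have := dec_lt h.avlt p h1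
            omega
        · simp only [List.map_cons, List.nodup_cons]
          refine ⟨?_, dec_nodup h.avnd⟩
          intro hk'
          obtain ⟨q, hq, e⟩ := List.mem_map.1 hk'
          have := dec_lt h.avlt q hq
          omega
        · intro x hx hcx
          simp only [cnt, del_eq] at hcx ⊢
          by_cases hxk : k = x
          · subst hxk
            have hak : ¬ a = k := by omega
            rw [h.cnt_new le_rfl]
            simp [hak]
          · have hx' : x < k := by omega
            by_cases hxa : a = x
            · subst hxa
              simp only [if_true, if_neg hxk] at hcx ⊢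
              have h0 : cnt rr a = 0 := by omega
              have hmem := h.avail a ha (by omega)
              rw [h0] at hmem ⊢
              exact List.mem_cons_of_mem _ (dec_mem_self _ h.avnd hmem)
            · simp only [if_neg hxa, if_neg hxk, zero_add] at hcx ⊢
              exact List.mem_cons_of_mem _
                (dec_mem_ne (by simpa using fun h' : x = a => hxa h'.symm) _ (h.avail x hx' hcx))
      have hkn' := hInv.card_le
      have hgo := hF2.resolve_left (by
          intro h'
          have := Nat.le_of_ble_eq_true h'
          omega)
      exact ih _ _ _ _ _ (by omega) hInv hgo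
    by_cases o1 : ∃ a < k, f a = w1 <;> by_cases o2 : ∃ b < k, f b = w2
    · obtain ⟨a, ha, e1⟩ := o1
      obtain ⟨b, hb, e2⟩ := o2
      subst e1 e2
      exact caseOO a b ha hb hw
    · obtain ⟨a, ha, e1⟩ := o1
      push Not at o2
      subst e1
      exact caseON a w2 ha o2 hw
    · obtain ⟨b, hb, e2⟩ := o2
      push Not at o1
      subst e2
      exact caseON b w1 hb o1 (fun w => by rw [hw w, add_comm])
    · push Not at o1 o2
      by_cases hww : w1 = w2
      · -- both new and equal
        subst hww
        have hf' : ∀ i, i < k → Function.update f k w1 i = f i := fun i hi => by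
          rw [Function.update_of_ne (by omega)]
        have hinj' : ∀ i j, i < k + 1 → j < k + 1 →
            Function.update f k w1 i = Function.update f k w1 j → i = j := by
          intro i j hi hj hij
          rcases Nat.lt_succ_iff_lt_or_eq.1 hi with h1 | h1 <;>
            rcases Nat.lt_succ_iff_lt_or_eq.1 hj with h2 | h2
          · rw [hf' i h1, hf' j h2] at hij
            exact h.inj i j h1 h2 hij
          · subst h2
            rw [hf' i h1, Function.update_self] at hij
            exact absurd hij (o1 i h1)
          · subst h1
            rw [hf' j h2, Function.update_self] at hij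
            exact absurd hij.symm (o1 j h2)
          · omega
        have hInv : Inv A ((k, k) :: rr) av (m + 1) (k + 1) (Function.update f k w1) := by
          refine h.ext hm' (by omega) hf' hinj' (by omega) (by omega) ?_ ?_ h.avnd ?_
          · intro v
            rw [Function.update_self]
            exact hw v
          · intro p hp
            have := h.avlt p hp
            omega
          · intro x hx hcx
            simp only [cnt, del_eq] at hcx ⊢
            by_cases hxk : k = x
            · subst hxk
              simp only [if_true] at hcx
              omega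
            · simp only [if_neg hxk, zero_add] at hcx ⊢
              exact h.avail x (by omega) hcx
        have hkn' := hInv.card_le
        have hgo := gb.resolve_left (by
            intro h'
            have := Nat.le_of_ble_eq_true h'
            omega)
        exact ih _ _ _ _ _ (by omega) hInv hgo
      · -- both new and distinct
        set g := Function.update (Function.update f k w1) (k + 1) w2 with hgdef
        have g1 : ∀ i, i < k → g i = f i := fun i hi => by
          rw [hgdef, Function.update_of_ne (by omega), Function.update_of_ne (by omega)]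
        have g2 : g k = w1 := by
          rw [hgdef, Function.update_of_ne (by omega), Function.update_self]
        have g3 : g (k + 1) = w2 := by rw [hgdef, Function.update_self]
        have hinj' : ∀ i j, i < k + 2 → j < k + 2 → g i = g j → i = j := by
          intro i j hi hj hij
          have hi' : i < k ∨ i = k ∨ i = k + 1 := by omega
          have hj' : j < k ∨ j = k ∨ j = k + 1 := by omega
          rcases hi' with h1 | h1 | h1 <;> rcases hj' with h2 | h2 | h2
          · rw [g1 i h1, g1 j h2] at hij
            exact h.inj i j h1 h2 hij
          · rw [g1 i h1, h2, g2] at hij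
            exact absurd hij (o1 i h1)
          · rw [g1 i h1, h2, g3] at hij
            exact absurd hij (o2 i h1)
          · rw [h1, g2, g1 j h2] at hij
            exact absurd hij.symm (o1 j h2)
          · omega
          · rw [h1, h2, g2, g3] at hij
            exact absurd hij hww
          · rw [h1, g3, g1 j h2] at hij
            exact absurd hij.symm (o2 j h2)
          · rw [h1, h2, g2, g3] at hij
            exact absurd hij.symm hww
          · omega
        have hInv : Inv A ((k, k + 1) :: rr) ((k, 1) :: (k + 1, 1) :: av) (m + 1) (k + 2) g := by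
          refine h.ext hm' (by omega) g1 hinj' (by omega) (by omega) ?_ ?_ ?_ ?_
          · intro v
            rw [g2, g3]
            exact hw v
          · intro p hp
            rcases List.mem_cons.1 hp with h1 | h1
            · rw [h1]; simp
            · rcases List.mem_cons.1 h1 with h1 | h1
              · rw [h1]; simp
              · have := h.avlt p h1
                omega
          · simp only [List.map_cons, List.nodup_cons, List.mem_cons, not_or]
            refine ⟨⟨by omega, ?_⟩, ?_, h.avnd⟩
            · intro hk'
              obtain ⟨q, hq, e⟩ := List.mem_map.1 hk'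
              have := h.avlt q hq
              omega
            · intro hk'
              obtain ⟨q, hq, e⟩ := List.mem_map.1 hk'
              have := h.avlt q hq
              omega
          · intro x hx hcx
            simp only [cnt, del_eq] at hcx ⊢
            by_cases hxk : k = x
            · subst hxk
              rw [h.cnt_new le_rfl]
              simp
            · by_cases hxk1 : k + 1 = x
              · subst hxk1
                rw [h.cnt_new (by omega)]
                simp
              · simp only [if_neg hxk, if_neg hxk1, zero_add] at hcx ⊢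
                exact List.mem_cons_of_mem _ (List.mem_cons_of_mem _ (h.avail x (by omega) hcx))
        have hkn' := hInv.card_le
        have hgo := gc.resolve_left (by
            intro h'
            have := Nat.le_of_ble_eq_true h'
            omega)
        exact ih _ _ _ _ _ (by omega) hInv hgo

end Pool.Agent.H73AM
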