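import Pool.Agent.H73AM.Sound

/-!
# The first two rows of the enumeration
-/

set_option autoImplicit false

namespace Pool.Agent.H73AM

open Matrix

variable {n : ℕ} {A : Matrix (Fin n) (Fin n) ℕ}

/-- The two vertices with a loop. -/
theorem exists_loops (hn : 2 ≤ n) (hr : ∀ i, ∑ j, A i j = 2) (htr : ∑ i, A i i = 2)
    (hirr : ∀ i j, ∃ s, 0 < (A ^ s) i j) :
    ∃ u v : Fin n, u ≠ v ∧ A u u = 1 ∧ A v v = 1 ∧ ∀ w, w ≠ u → w ≠ v → A w w = 0 := by
  have h1 : ∀ i, A i i ≤ 1 := by
    intro i
    by_contra hcon
    push Not at hcon
    have h2 : ∀ w, w ≠ i → A i w = 0 := by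
      intro w hw
      have h3 := Finset.sum_erase_add (Finset.univ : Finset (Fin n)) (A i) (Finset.mem_univ i)
      have h4 := Finset.single_le_sum (f := A i) (fun _ _ => Nat.zero_le _)
        (Finset.mem_erase.2 ⟨hw, Finset.mem_univ w⟩)
      have h5 := hr i
      omega
    have h3 : ∀ s w, w ≠ i → (A ^ s) i w = 0 := by
      intro s
      induction s with
      | zero => intro w hw; rw [pow_zero, Matrix.one_apply, if_neg (Ne.symm hw)]
      | succ s ih =>
        intro w hw
        rw [pow_succ, Matrix.mul_apply]
        apply Finset.sum_eq_zero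
        intro j _
        by_cases hj : j = i
        · subst hj; rw [h2 w hw, mul_zero]
        · rw [ih j hj, zero_mul]
    have h4 : ∃ w, w ≠ i := by
      by_contra hcon
      push Not at hcon
      have : (Finset.univ : Finset (Fin n)).card ≤ 1 :=
        Finset.card_le_one.2 (fun a _ b _ => (hcon a).trans (hcon b).symm)
      simp at this
      omega
    obtain ⟨w, hw⟩ := h4
    obtain ⟨s, hs⟩ := hirr i w
    have := h3 s w hw
    omega
  have h2 : (Finset.univ.filter (fun i => A i i = 1)).card = 2 := by
    rw [Finset.card_filter, ← htr]
    apply Finset.sum_congr rfl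
    intro i _
    have := h1 i
    by_cases hi : A i i = 1
    · simp [hi]
    · rw [if_neg hi]; omega
  obtain ⟨u, v, huv, hS⟩ := Finset.card_eq_two.1 h2
  refine ⟨u, v, huv, ?_, ?_, ?_⟩
  · have : u ∈ Finset.univ.filter (fun i => A i i = 1) := by rw [hS]; simp
    exact (Finset.mem_filter.1 this).2
  · have : v ∈ Finset.univ.filter (fun i => A i i = 1) := by rw [hS]; simp
    exact (Finset.mem_filter.1 this).2
  · intro w hu hv
    have h3 : w ∉ Finset.univ.filter (fun i => A i i = 1) := by
      rw [hS]; simp [hu, hv]
    have h4 : ¬ A w w = 1 := fun h' => h3 (Finset.mem_filter.2 ⟨Finset.mem_univ _, h'⟩)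
    have := h1 w
    omega

/-- The row of a vertex with a loop. -/
theorem loop_row {u : Fin n} (hr : ∑ j, A u j = 2) (hu : A u u = 1) :
    ∃ x, x ≠ u ∧ ∀ w, A u w = (if u = w then 1 else 0) + (if x = w then 1 else 0) := by
  obtain ⟨w1, w2, hw⟩ := exists_succ (A u) hr
  have h1 := hw u
  rw [hu] at h1
  by_cases e1 : w1 = u
  · by_cases e2 : w2 = u
    · simp [e1, e2] at h1
    · exact ⟨w2, e2, fun w => by rw [hw w, e1]⟩
  · by_cases e2 : w2 = u
    · exact ⟨w1, e1, fun w => by rw [hw w, e2, add_comm]⟩
    · simp [e1, e2] at h1

theorem start_sound {P : Prop} {L : List (ℕ × ℕ) → List (ℕ × ℕ) → ℕ → Bool}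
    (hr : ∀ i, ∑ j, A i j = 2) (hc : ∀ j, ∑ i, A i j = 2) (htr : ∑ i, A i i = 2)
    (hirr : ∀ i j, ∃ s, 0 < (A ^ s) i j)
    (t : ℕ) (hM : 2 + t ≤ n)
    (hL : ∀ rr av k (f : ℕ → Fin n), Inv A rr av (2 + t) k f → L rr av k = true → P)
    (g0 : go L n t [(0, 1), (0, 1)] [] 2 2 = true)
    (g1 : 3 ≤ n → go L n t [(1, 2), (0, 1)] [(0, 1), (2, 1)] 2 3 = true)
    (g2 : 3 ≤ n → go L n t [(0, 1), (0, 2)] [(1, 1), (2, 1)] 2 3 = true)
    (g3 : 3 ≤ n → go L n t [(1, 2), (0, 2)] [(0, 1), (1, 1)] 2 3 = true)
    (g4 : 4 ≤ n → go L n t [(1, 3), (0, 2)] [(0, 1), (1, 1), (2, 1), (3, 1)] 2 4 = true) : P := by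
  obtain ⟨u, v, huv, hu, hv, hno⟩ := exists_loops (by omega) hr htr hirr
  obtain ⟨x, hxu, hx⟩ := loop_row (hr u) hu
  obtain ⟨y, hyv, hy⟩ := loop_row (hr v) hv
  have run : ∀ rr av k (f : ℕ → Fin n), go L n t rr av 2 k = true → Inv A rr av 2 k f → P :=
    fun rr av k f hg hI => go_sound hr hc hirr (2 + t) hM hL t rr av 2 k f rfl hI hg
  by_cases h1 : x = v
  · by_cases h2 : y = u
    · subst h1 h2
      refine run _ _ _ (fun i => if i = 0 then y else x) g0
        ⟨?_, le_rfl, rfl, le_rfl, ?_, ?_, by simp, by simp, ?_⟩
      · intro i j hi hj hij
        interval_cases i <;> interval_cases j <;> simp_all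
      · intro i hi
        interval_cases i
        · refine ⟨by simp [sc], by simp [sc], fun w => ?_⟩
          simpa [sc] using hx w
        · refine ⟨by simp [sc], by simp [sc], fun w => ?_⟩
          simpa [sc, add_comm] using hy w
      · intro w w0 w1
        exact hno w (by simpa using w0) (by simpa using w1)
      · intro z hz hcz
        interval_cases z <;> simp [cnt, del_eq] at hcz
    · subst h1
      refine run _ _ _ (fun i => if i = 0 then u else if i = 1 then x else y) (g1 ?_)
        ⟨?_, le_rfl, rfl, by norm_num, ?_, ?_, ?_, ?_, ?_⟩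
      · have hcard : ({u, x, y} : Finset (Fin n)).card = 3 := by
          rw [Finset.card_eq_three]
          exact ⟨u, x, y, huv, Ne.symm h2, Ne.symm hyv, rfl⟩
        have := Finset.card_le_card (Finset.subset_univ ({u, x, y} : Finset (Fin n)))
        rw [hcard] at this
        simpa using this
      · intro i j hi hj hij
        have e1 : ¬ y = u := h2
        have e2 : ¬ u = y := fun h => h2 h.symm
        have e3 : ¬ x = y := fun h => hyv h.symm
        have e4 : ¬ x = u := fun h => huv h.symm
        interval_cases i <;> interval_cases j <;> simp_all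
      · intro i hi
        interval_cases i
        · refine ⟨by simp [sc], by simp [sc], fun w => ?_⟩
          simpa [sc] using hx w
        · refine ⟨by simp [sc], by simp [sc], fun w => ?_⟩
          simpa [sc] using hy w
      · intro w w0 w1
        exact hno w (by simpa using w0) (by simpa using w1)
      · intro p hp
        simp only [List.mem_cons, List.not_mem_nil, or_false] at hp
        rcases hp with rfl | rfl <;> norm_num
      · simp
      · intro z hz hcz
        interval_cases z <;> simp [cnt, del_eq] at hcz ⊢
  · by_cases h2 : y = u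
    · subst h2
      refine run _ _ _ (fun i => if i = 0 then y else if i = 1 then v else x) (g2 ?_)
        ⟨?_, le_rfl, rfl, by norm_num, ?_, ?_, ?_, ?_, ?_⟩
      · have hcard : ({y, v, x} : Finset (Fin n)).card = 3 := by
          rw [Finset.card_eq_three]
          exact ⟨y, v, x, huv, Ne.symm hxu, Ne.symm h1, rfl⟩
        have := Finset.card_le_card (Finset.subset_univ ({y, v, x} : Finset (Fin n)))
        rw [hcard] at this
        simpa using this
      · intro i j hi hj hij
        have e1 : ¬ x = v := h1
        have e2 : ¬ v = x := fun h => h1 h.symm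
        have e3 : ¬ y = x := fun h => hxu h.symm
        have e4 : ¬ v = y := fun h => huv h.symm
        interval_cases i <;> interval_cases j <;> simp_all
      · intro i hi
        interval_cases i
        · refine ⟨by simp [sc], by simp [sc], fun w => ?_⟩
          simpa [sc] using hx w
        · refine ⟨by simp [sc], by simp [sc], fun w => ?_⟩
          simpa [sc, add_comm] using hy w
      · intro w w0 w1
        exact hno w (by simpa using w0) (by simpa using w1)
      · intro p hp
        simp only [List.mem_cons, List.not_mem_nil, or_false] at hp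
        rcases hp with rfl | rfl <;> norm_num
      · simp
      · intro z hz hcz
        interval_cases z <;> simp [cnt, del_eq] at hcz ⊢
    · by_cases h3 : y = x
      · subst h3
        refine run _ _ _ (fun i => if i = 0 then u else if i = 1 then v else y) (g3 ?_)
          ⟨?_, le_rfl, rfl, by norm_num, ?_, ?_, ?_, ?_, ?_⟩
        · have hcard : ({u, v, y} : Finset (Fin n)).card = 3 := by
            rw [Finset.card_eq_three]
            exact ⟨u, v, y, huv, Ne.symm h2, Ne.symm h1, rfl⟩
          have := Finset.card_le_card (Finset.subset_univ ({u, v, y} : Finset (Fin n)))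
          rw [hcard] at this
          simpa using this
        · intro i j hi hj hij
          have e1 : ¬ y = v := h1
          have e2 : ¬ v = y := fun h => h1 h.symm
          have e3 : ¬ u = y := fun h => h2 h.symm
          have e4 : ¬ v = u := fun h => huv h.symm
          interval_cases i <;> interval_cases j <;> simp_all
        · intro i hi
          interval_cases i
          · refine ⟨by simp [sc], by simp [sc], fun w => ?_⟩
            simpa [sc] using hx w
          · refine ⟨by simp [sc], by simp [sc], fun w => ?_⟩
            simpa [sc] using hy w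
        · intro w w0 w1
          exact hno w (by simpa using w0) (by simpa using w1)
        · intro p hp
          simp only [List.mem_cons, List.not_mem_nil, or_false] at hp
          rcases hp with rfl | rfl <;> norm_num
        · simp
        · intro z hz hcz
          interval_cases z <;> simp [cnt, del_eq] at hcz ⊢
      · refine run _ _ _ (fun i => if i = 0 then u else if i = 1 then v else
          if i = 2 then x else y) (g4 ?_)
          ⟨?_, le_rfl, rfl, by norm_num, ?_, ?_, ?_, ?_, ?_⟩
        · have h5 : u ∉ ({v, x, y} : Finset (Fin n)) := by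
            simp only [Finset.mem_insert, Finset.mem_singleton, not_or]
            exact ⟨huv, Ne.symm hxu, Ne.symm h2⟩
          have h6 : v ∉ ({x, y} : Finset (Fin n)) := by
            simp only [Finset.mem_insert, Finset.mem_singleton, not_or]
            exact ⟨Ne.symm h1, Ne.symm hyv⟩
          have h7 : x ∉ ({y} : Finset (Fin n)) := by
            simp only [Finset.mem_singleton]
            exact Ne.symm h3
          have hcard : ({u, v, x, y} : Finset (Fin n)).card = 4 := by
            rw [Finset.card_insert_of_notMem h5, Finset.card_insert_of_notMem h6,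
              Finset.card_insert_of_notMem h7, Finset.card_singleton]
          have := Finset.card_le_card (Finset.subset_univ ({u, v, x, y} : Finset (Fin n)))
          rw [hcard] at this
          simpa using this
        · intro i j hi hj hij
          have e1 : ¬ x = v := h1
          have e2 : ¬ v = x := fun h => h1 h.symm
          have e3 : ¬ u = y := fun h => h2 h.symm
          have e4 : ¬ v = u := fun h => huv h.symm
          have e5 : ¬ u = x := fun h => hxu h.symm
          have e6 : ¬ v = y := fun h => hyv h.symm
          have e7 : ¬ x = y := fun h => h3 h.symm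
          interval_cases i <;> interval_cases j <;> simp_all
        · intro i hi
          interval_cases i
          · refine ⟨by simp [sc], by simp [sc], fun w => ?_⟩
            simpa [sc] using hx w
          · refine ⟨by simp [sc], by simp [sc], fun w => ?_⟩
            simpa [sc] using hy w
        · intro w w0 w1
          exact hno w (by simpa using w0) (by simpa using w1)
        · intro p hp
          simp only [List.mem_cons, List.not_mem_nil, or_false] at hp
          rcases hp with rfl | rfl | rfl | rfl <;> norm_num
        · simp
        · intro z hz hcz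
          interval_cases z <;> simp [cnt, del_eq] at hcz ⊢

end Pool.Agent.H73AM
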