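import Pool.Agent.H73AM.Defs

/-!
# Strong shift equivalence over `ℕ`: basic lemmas
-/

set_option autoImplicit false

namespace Pool.Agent.H73AM

open Matrix

theorem elem_symm {X Y : Σ n : ℕ, Matrix (Fin n) (Fin n) ℕ} (h : Elem X Y) : Elem Y X := by
  obtain ⟨R, S, h1, h2⟩ := h
  exact ⟨S, R, h2, h1⟩

theorem SSE.of_elem {n m : ℕ} {A : Matrix (Fin n) (Fin n) ℕ} {B : Matrix (Fin m) (Fin m) ℕ}
    (R : Matrix (Fin n) (Fin m) ℕ) (S : Matrix (Fin m) (Fin n) ℕ)
    (h1 : A = R * S) (h2 : B = S * R) : SSE A B :=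
  Relation.TransGen.single ⟨R, S, h1, h2⟩

theorem SSE.refl {n : ℕ} (A : Matrix (Fin n) (Fin n) ℕ) : SSE A A :=
  SSE.of_elem A 1 (by simp) (by simp)

theorem SSE.trans {n m k : ℕ} {A : Matrix (Fin n) (Fin n) ℕ} {B : Matrix (Fin m) (Fin m) ℕ}
    {C : Matrix (Fin k) (Fin k) ℕ} (h1 : SSE A B) (h2 : SSE B C) : SSE A C :=
  Relation.TransGen.trans h1 h2

theorem SSE.symm {n m : ℕ} {A : Matrix (Fin n) (Fin n) ℕ} {B : Matrix (Fin m) (Fin m) ℕ}
    (h : SSE A B) : SSE B A := by
  have key : ∀ X Y : (Σ n : ℕ, Matrix (Fin n) (Fin n) ℕ), Relation.TransGen Elem X Y →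
      Relation.TransGen Elem Y X := by
    intro X Y hXY
    induction hXY with
    | single h => exact Relation.TransGen.single (elem_symm h)
    | tail _ h ih => exact Relation.TransGen.head (elem_symm h) ih
  exact key _ _ h

theorem SSE.of_perm {n : ℕ} {A B : Matrix (Fin n) (Fin n) ℕ} (σ : Equiv.Perm (Fin n))
    (h : ∀ i j, A (σ i) (σ j) = B i j) : SSE A B := by
  refine SSE.of_elem (Matrix.of fun i j => A i (σ j))
    (Matrix.of fun i j => if σ i = j then 1 else 0) ?_ ?_
  · ext i j
    simp only [Matrix.mul_apply, Matrix.of_apply]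
    rw [Finset.sum_eq_single (σ.symm j)]
    · simp
    · intro b _ hb
      have : σ b ≠ j := fun h => hb (by simp [← h])
      simp [this]
    · simp
  · ext i j
    simp only [Matrix.mul_apply, Matrix.of_apply]
    rw [Finset.sum_eq_single (σ i)]
    · simp [h]
    · intro b _ hb
      simp [Ne.symm hb]
    · simp

/-- Strong shift equivalence implies shift equivalence. -/
theorem SSE.se {n m : ℕ} {A : Matrix (Fin n) (Fin n) ℕ} {B : Matrix (Fin m) (Fin m) ℕ}
    (h : SSE A B) : SE A B := by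
  have key : ∀ X Y : (Σ n : ℕ, Matrix (Fin n) (Fin n) ℕ), Relation.TransGen Elem X Y →
      SE X.2 Y.2 := by
    intro X Y hXY
    induction hXY using Relation.TransGen.head_induction_on with
    | single h =>
      obtain ⟨R, S, h1, h2⟩ := h
      refine ⟨1, R, S, le_refl _, by simpa using h1, by simpa using h2, ?_, ?_⟩
      · rw [h1, h2, Matrix.mul_assoc]
      · rw [h1, h2, Matrix.mul_assoc]
    | head h _ ih =>
      obtain ⟨R, S, h1, h2⟩ := h
      obtain ⟨l, U, V, hl, e1, e2, e3, e4⟩ := ih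
      have hp : ∀ k : ℕ, R * (S * R) ^ k * S = (R * S) ^ (k + 1) := by
        intro k
        induction k with
        | zero => simp
        | succ k ihk =>
          rw [pow_succ, pow_succ (R * S) (k + 1), ← ihk]
          simp only [Matrix.mul_assoc]
      refine ⟨l + 1, R * U, V * S, by omega, ?_, ?_, ?_, ?_⟩
      · rw [h1, ← hp, ← h2, e1]
        simp only [Matrix.mul_assoc]
      · rw [pow_succ, e2, Matrix.mul_assoc V U, ← e3, h2]
        simp only [Matrix.mul_assoc]
      · rw [h1, Matrix.mul_assoc R U, ← e3, h2]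
        simp only [Matrix.mul_assoc]
      · rw [← Matrix.mul_assoc, ← e4, h1, h2]
        simp only [Matrix.mul_assoc]
  exact key _ _ h

end Pool.Agent.H73AM
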